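import Mathlib

/-!
The fractional bushy submeasure on the binary tree.

At a node of length `n` the value is `min 1 (a + b)` if `G n` (a boosted level) and `(a + b) / 2`
otherwise, where `a, b` are the values at the two children.
-/

namespace Pool.Agent.MP_b653e9_lc

open Filter Topology

/-- the combination function -/
noncomputable def fz (b : Bool) (x y : ℝ) : ℝ := if b then min 1 (x + y) else (x + y) / 2

theorem fz_nonneg (b : Bool) {x y : ℝ} (hx : 0 ≤ x) (hy : 0 ≤ y) : 0 ≤ fz b x y := by
  unfold fz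
  split_ifs
  · exact le_min zero_le_one (add_nonneg hx hy)
  · positivity

theorem fz_le_one (b : Bool) {x y : ℝ} (hx : x ≤ 1) (hy : y ≤ 1) : fz b x y ≤ 1 := by
  unfold fz
  split_ifs
  · exact min_le_left _ _
  · linarith

theorem fz_mono (b : Bool) {x y x' y' : ℝ} (hx : x ≤ x') (hy : y ≤ y') :
    fz b x y ≤ fz b x' y' := by
  unfold fz
  split_ifs
  · exact min_le_min le_rfl (add_le_add hx hy)
  · linarith

theorem fz_add_le (b : Bool) {x y x' y' : ℝ} (hx : 0 ≤ x) (hy : 0 ≤ y) (hx' : 0 ≤ x')
    (hy' : 0 ≤ y') : fz b (x + x') (y + y') ≤ fz b x y + fz b x' y' := by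
  unfold fz
  split_ifs
  · rcases min_choice (1 : ℝ) (x + y) with h | h <;> rcases min_choice (1 : ℝ) (x' + y') with h' | h'
    · rw [h, h']
      have := min_le_left (1 : ℝ) (x + x' + (y + y'))
      linarith
    · rw [h, h']
      have := min_le_left (1 : ℝ) (x + x' + (y + y'))
      linarith
    · rw [h, h']
      have := min_le_left (1 : ℝ) (x + x' + (y + y'))
      linarith
    · rw [h, h']
      have := min_le_right (1 : ℝ) (x + x' + (y + y'))
      linarith
  · linarith

theorem mul_fz_le (b : Bool) {c x y : ℝ} (hc : 0 ≤ c) (hc1 : c ≤ 1) :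
    c * fz b x y ≤ fz b (c * x) (c * y) := by
  unfold fz
  split_ifs
  · refine le_min ?_ ?_
    · calc c * min 1 (x + y) ≤ c * 1 := mul_le_mul_of_nonneg_left (min_le_left _ _) hc
        _ ≤ 1 := by linarith
    · calc c * min 1 (x + y) ≤ c * (x + y) := mul_le_mul_of_nonneg_left (min_le_right _ _) hc
        _ = c * x + c * y := by ring
  · apply le_of_eq; ring

theorem fz_bool_mono {b b' : Bool} (h : b = true → b' = true) {x y : ℝ} (hx : 0 ≤ x) (hy : 0 ≤ y)
    (hx1 : x ≤ 1) (hy1 : y ≤ 1) : fz b x y ≤ fz b' x y := by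
  unfold fz
  cases b with
  | true => rw [h rfl]
  | false =>
    cases b' with
    | false => exact le_rfl
    | true =>
      simp only [Bool.false_eq_true, if_false, if_true]
      exact le_min (by linarith) (by linarith)

theorem fz_one_one (b : Bool) : fz b 1 1 = 1 := by
  unfold fz
  split_ifs <;> norm_num

open Classical in
/-- the depth-`d` value of the set `C` above the node `σ` -/
noncomputable def v (G : ℕ → Bool) (C : Set (List Bool)) : ℕ → List Bool → ℝ
  | 0, σ => if σ ∈ C then 1 else 0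
  | d + 1, σ => fz (G σ.length) (v G C d (σ ++ [false])) (v G C d (σ ++ [true]))

theorem v_zero_of_mem {G : ℕ → Bool} {C : Set (List Bool)} {σ : List Bool} (h : σ ∈ C) :
    v G C 0 σ = 1 := by simp [v, h]

theorem v_zero_of_not_mem {G : ℕ → Bool} {C : Set (List Bool)} {σ : List Bool} (h : σ ∉ C) :
    v G C 0 σ = 0 := by simp [v, h]

theorem v_succ (G : ℕ → Bool) (C : Set (List Bool)) (d : ℕ) (σ : List Bool) :
    v G C (d + 1) σ = fz (G σ.length) (v G C d (σ ++ [false])) (v G C d (σ ++ [true])) := rfl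

theorem v_nonneg (G : ℕ → Bool) (C : Set (List Bool)) (d : ℕ) (σ : List Bool) :
    0 ≤ v G C d σ := by
  induction d generalizing σ with
  | zero => by_cases h : σ ∈ C <;> simp [v, h]
  | succ d ih => exact fz_nonneg _ (ih _) (ih _)

theorem v_le_one (G : ℕ → Bool) (C : Set (List Bool)) (d : ℕ) (σ : List Bool) :
    v G C d σ ≤ 1 := by
  induction d generalizing σ with
  | zero => by_cases h : σ ∈ C <;> simp [v, h]
  | succ d ih => exact fz_le_one _ (ih _) (ih _)

theorem v_mono_set {G : ℕ → Bool} {C C' : Set (List Bool)} (h : C ⊆ C') (d : ℕ) (σ : List Bool) :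
    v G C d σ ≤ v G C' d σ := by
  induction d generalizing σ with
  | zero =>
    by_cases h1 : σ ∈ C
    · simp [v, h1, h h1]
    · rw [v_zero_of_not_mem h1]; exact v_nonneg _ _ _ _
  | succ d ih => exact fz_mono _ (ih _) (ih _)

theorem v_union_le (G : ℕ → Bool) (C C' : Set (List Bool)) (d : ℕ) (σ : List Bool) :
    v G (C ∪ C') d σ ≤ v G C d σ + v G C' d σ := by
  induction d generalizing σ with
  | zero =>
    by_cases h1 : σ ∈ C
    · have : σ ∈ C ∪ C' := Or.inl h1
      rw [v_zero_of_mem this, v_zero_of_mem h1]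
      have := v_nonneg G C' 0 σ
      linarith
    · by_cases h2 : σ ∈ C'
      · have : σ ∈ C ∪ C' := Or.inr h2
        rw [v_zero_of_mem this, v_zero_of_mem h2]
        have := v_nonneg G C 0 σ
        linarith
      · have : σ ∉ C ∪ C' := fun h => h.elim h1 h2
        rw [v_zero_of_not_mem this, v_zero_of_not_mem h1, v_zero_of_not_mem h2]
        norm_num
  | succ d ih =>
    rw [v_succ, v_succ, v_succ]
    exact (fz_mono _ (ih _) (ih _)).trans
      (fz_add_le _ (v_nonneg _ _ _ _) (v_nonneg _ _ _ _) (v_nonneg _ _ _ _) (v_nonneg _ _ _ _))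

/-- `C` is closed under extension -/
def Up (C : Set (List Bool)) : Prop := ∀ σ τ, σ ∈ C → σ <+: τ → τ ∈ C

theorem Up.union {C C' : Set (List Bool)} (h : Up C) (h' : Up C') : Up (C ∪ C') := by
  rintro σ τ (h1 | h1) h2
  · exact Or.inl (h _ _ h1 h2)
  · exact Or.inr (h' _ _ h1 h2)

theorem v_eq_one_of_mem {G : ℕ → Bool} {C : Set (List Bool)} (hC : Up C) {σ : List Bool}
    (h : σ ∈ C) (d : ℕ) : v G C d σ = 1 := by
  induction d generalizing σ with
  | zero => exact v_zero_of_mem h
  | succ d ih =>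
    rw [v_succ, ih (hC _ _ h (List.prefix_append _ _)), ih (hC _ _ h (List.prefix_append _ _)),
      fz_one_one]

theorem v_le_succ {G : ℕ → Bool} {C : Set (List Bool)} (hC : Up C) (d : ℕ) (σ : List Bool) :
    v G C d σ ≤ v G C (d + 1) σ := by
  induction d generalizing σ with
  | zero =>
    by_cases h : σ ∈ C
    · rw [v_eq_one_of_mem hC h, v_eq_one_of_mem hC h]
    · rw [v_zero_of_not_mem h]; exact v_nonneg _ _ _ _
  | succ d ih =>
    rw [v_succ G C d, v_succ G C (d + 1)]
    exact fz_mono _ (ih _) (ih _)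

theorem v_mono_depth {G : ℕ → Bool} {C : Set (List Bool)} (hC : Up C) (σ : List Bool) :
    Monotone (fun d => v G C d σ) :=
  monotone_nat_of_le_succ (fun d => v_le_succ hC d σ)

theorem v_mono_G {G G' : ℕ → Bool} (h : ∀ n, G n = true → G' n = true) (C : Set (List Bool))
    (d : ℕ) (σ : List Bool) : v G C d σ ≤ v G' C d σ := by
  induction d generalizing σ with
  | zero => by_cases h : σ ∈ C <;> simp [v, h]
  | succ d ih =>
    rw [v_succ, v_succ]
    exact (fz_bool_mono (h _) (v_nonneg _ _ _ _) (v_nonneg _ _ _ _) (v_le_one _ _ _ _)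
      (v_le_one _ _ _ _)).trans (fz_mono _ (ih _) (ih _))

/-- the limit value -/
noncomputable def S (G : ℕ → Bool) (C : Set (List Bool)) (σ : List Bool) : ℝ := ⨆ d, v G C d σ

theorem v_bdd (G : ℕ → Bool) (C : Set (List Bool)) (σ : List Bool) :
    BddAbove (Set.range (fun d => v G C d σ)) :=
  ⟨1, by rintro _ ⟨d, rfl⟩; exact v_le_one _ _ _ _⟩

theorem v_le_S (G : ℕ → Bool) (C : Set (List Bool)) (d : ℕ) (σ : List Bool) :
    v G C d σ ≤ S G C σ := le_ciSup (v_bdd G C σ) d

theorem S_le {G : ℕ → Bool} {C : Set (List Bool)} {σ : List Bool} {r : ℝ}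
    (h : ∀ d, v G C d σ ≤ r) : S G C σ ≤ r := ciSup_le h

theorem S_nonneg (G : ℕ → Bool) (C : Set (List Bool)) (σ : List Bool) : 0 ≤ S G C σ :=
  (v_nonneg G C 0 σ).trans (v_le_S _ _ _ _)

theorem S_le_one (G : ℕ → Bool) (C : Set (List Bool)) (σ : List Bool) : S G C σ ≤ 1 :=
  S_le (fun d => v_le_one _ _ _ _)

theorem S_eq_one_of_mem {G : ℕ → Bool} {C : Set (List Bool)} {σ : List Bool}
    (h : σ ∈ C) : S G C σ = 1 := by
  apply le_antisymm (S_le_one _ _ _)
  have := v_le_S G C 0 σ
  rwa [v_zero_of_mem h] at this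

theorem S_mono_set {G : ℕ → Bool} {C C' : Set (List Bool)} (h : C ⊆ C') (σ : List Bool) :
    S G C σ ≤ S G C' σ := S_le (fun d => (v_mono_set h d σ).trans (v_le_S _ _ _ _))

theorem S_mono_G {G G' : ℕ → Bool} (h : ∀ n, G n = true → G' n = true) (C : Set (List Bool))
    (σ : List Bool) : S G C σ ≤ S G' C σ := S_le (fun d => (v_mono_G h C d σ).trans (v_le_S _ _ _ _))

theorem S_union_le (G : ℕ → Bool) (C C' : Set (List Bool)) (σ : List Bool) :
    S G (C ∪ C') σ ≤ S G C σ + S G C' σ :=
  S_le (fun d => (v_union_le G C C' d σ).trans (add_le_add (v_le_S _ _ _ _) (v_le_S _ _ _ _)))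

theorem tendsto_v {G : ℕ → Bool} {C : Set (List Bool)} (hC : Up C) (σ : List Bool) :
    Tendsto (fun d => v G C d σ) atTop (𝓝 (S G C σ)) :=
  tendsto_atTop_ciSup (v_mono_depth hC σ) (v_bdd G C σ)

theorem S_eq {G : ℕ → Bool} {C : Set (List Bool)} (hC : Up C) (σ : List Bool) :
    S G C σ = fz (G σ.length) (S G C (σ ++ [false])) (S G C (σ ++ [true])) := by
  have h1 : Tendsto (fun d => v G C (d + 1) σ) atTop (𝓝 (S G C σ)) :=
    (tendsto_v hC σ).comp (tendsto_add_atTop_nat 1)
  have h2 : Tendsto (fun d => v G C (d + 1) σ) atTop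
      (𝓝 (fz (G σ.length) (S G C (σ ++ [false])) (S G C (σ ++ [true])))) := by
    have ha := tendsto_v (G := G) hC (σ ++ [false])
    have hb := tendsto_v (G := G) hC (σ ++ [true])
    simp only [v_succ]
    unfold fz
    split_ifs
    · exact tendsto_const_nhds.min (ha.add hb)
    · exact (ha.add hb).div_const 2
  exact tendsto_nhds_unique h1 h2

/-- If the value of `C` exceeds that of `B` at `σ`, some extension in `C` has `B`-value below `1`. -/
theorem exists_ext {G : ℕ → Bool} {B C : Set (List Bool)} (hB : Up B) (d : ℕ) (σ : List Bool)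
    (h : S G B σ < v G C d σ) : ∃ τ ∈ C, σ <+: τ ∧ τ.length = σ.length + d ∧ S G B τ < 1 := by
  induction d generalizing σ with
  | zero =>
    by_cases h1 : σ ∈ C
    · refine ⟨σ, h1, List.prefix_refl _, by simp, ?_⟩
      rwa [v_zero_of_mem h1] at h
    · rw [v_zero_of_not_mem h1] at h
      have := S_nonneg G B σ
      linarith
  | succ d ih =>
    by_contra hcon
    have key : ∀ b : Bool, v G C d (σ ++ [b]) ≤ S G B (σ ++ [b]) := by
      intro b
      by_contra hlt
      obtain ⟨τ, h1, h2, h3, h4⟩ := ih (σ ++ [b]) (lt_of_not_ge hlt)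
      refine hcon ⟨τ, h1, (List.prefix_append _ _).trans h2, ?_, h4⟩
      rw [h3]; simp; ring
    rw [S_eq hB, v_succ] at h
    exact absurd (fz_mono _ (key false) (key true)) (not_le.2 h)

/-- one child does not have a larger value -/
theorem exists_child_le {G : ℕ → Bool} {B : Set (List Bool)} (hB : Up B) (σ : List Bool)
    (h : S G B σ < 1) : ∃ b : Bool, S G B (σ ++ [b]) ≤ S G B σ := by
  by_contra hcon
  simp only [not_exists, not_le] at hcon
  have h0 := hcon false
  have h1 := hcon true
  have heq := S_eq (G := G) hB σ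
  unfold fz at heq
  split_ifs at heq
  · rcases min_choice (1 : ℝ) (S G B (σ ++ [false]) + S G B (σ ++ [true])) with h2 | h2
    · rw [h2] at heq; linarith
    · rw [h2] at heq
      have := S_nonneg G B (σ ++ [false])
      linarith
  · linarith

/-- at a boosted level one child has value less than `1/2` -/
theorem exists_child_half {G : ℕ → Bool} {B : Set (List Bool)} (hB : Up B) (σ : List Bool)
    (hG : G σ.length = true) (h : S G B σ < 1) : ∃ b : Bool, S G B (σ ++ [b]) < 1 / 2 := by
  by_contra hcon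
  simp only [not_exists, not_lt] at hcon
  have h0 := hcon false
  have h1 := hcon true
  have heq := S_eq (G := G) hB σ
  unfold fz at heq
  rw [if_pos hG] at heq
  rcases min_choice (1 : ℝ) (S G B (σ ++ [false]) + S G B (σ ++ [true])) with h2 | h2
  · rw [h2] at heq; linarith
  · rw [h2] at heq; linarith

/-- we can extend to any length with value below one -/
theorem exists_long {G : ℕ → Bool} {B : Set (List Bool)} (hB : Up B) (σ : List Bool)
    (h : S G B σ < 1) (n : ℕ) : ∃ τ, σ <+: τ ∧ τ.length = σ.length + n ∧ S G B τ < 1 := by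
  induction n with
  | zero => exact ⟨σ, List.prefix_refl _, by simp, h⟩
  | succ n ih =>
    obtain ⟨τ, h1, h2, h3⟩ := ih
    obtain ⟨b, hb⟩ := exists_child_le hB τ h3
    exact ⟨τ ++ [b], h1.trans (List.prefix_append _ _), by simp [h2]; ring, hb.trans_lt h3⟩

/-- if there are boosted levels arbitrarily high, we can extend to value less than `1/2`. -/
theorem exists_half {G : ℕ → Bool} (hG : ∀ n, ∃ m, n ≤ m ∧ G m = true) {B : Set (List Bool)}
    (hB : Up B) (σ : List Bool) (h : S G B σ < 1) :
    ∃ τ, σ <+: τ ∧ σ.length < τ.length ∧ S G B τ < 1 / 2 := by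
  obtain ⟨m, hm, hGm⟩ := hG σ.length
  obtain ⟨τ, h1, h2, h3⟩ := exists_long hB σ h (m - σ.length)
  have hlen : τ.length = m := by omega
  obtain ⟨b, hb⟩ := exists_child_half hB τ (by rw [hlen]; exact hGm) h3
  exact ⟨τ ++ [b], h1.trans (List.prefix_append _ _), by simp; omega, hb⟩

end Pool.Agent.MP_b653e9_lc
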