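import Mathlib

/-!
Prefix-free machines, prefix-free Kolmogorov complexity, reals and Turing reducibility.
-/

namespace Pool.Agent.MP_b653e9_lc

/-- A prefix-free machine: a partial recursive function on binary strings whose domain contains
no two distinct strings one of which is a prefix of the other. -/
def PrefixFreeMachine (M : List Bool →. List Bool) : Prop :=
  Partrec M ∧ ∀ p q, (M p).Dom → (M q).Dom → p <+: q → p = q

/-- A universal prefix-free machine: a prefix-free machine which describes every string as
efficiently as any other prefix-free machine, up to an additive constant. -/
def UniversalMachine (U : List Bool →. List Bool) : Prop :=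
  PrefixFreeMachine U ∧ ∀ M, PrefixFreeMachine M →
    ∃ c : ℕ, ∀ p σ, σ ∈ M p → ∃ q, σ ∈ U q ∧ q.length ≤ p.length + c

/-- Prefix-free Kolmogorov complexity with respect to the machine `U`: the length of a shortest
`U`-program for `σ`. -/
noncomputable def K (U : List Bool →. List Bool) (σ : List Bool) : ℕ :=
  sInf {n | ∃ p, σ ∈ U p ∧ p.length = n}

/-- The string of the first `n` bits of the real `X`. -/
def pre (X : ℕ → Bool) (n : ℕ) : List Bool := (List.range n).map X

/-- The real `X` computes the real `Y` (Mathlib's `TuringReducible` applied to the characteristic
functions). -/
def ComputesReal (X Y : ℕ → Bool) : Prop :=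
  TuringReducible (fun n => Part.some (Y n).toNat) (fun n => Part.some (X n).toNat)

end Pool.Agent.MP_b653e9_lc
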