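import Mathlib

/-!
Computability helpers: range maps, bounded quantifiers, powers.
-/

namespace Pool.Agent.MP_b653e9_lc

section

variable {α β : Type*} [Primcodable α] [Primcodable β]

theorem computable_rangeMap {n : α → ℕ} {h : α → ℕ → β} (hn : Computable n)
    (hh : Computable₂ h) : Computable (fun a => (List.range (n a)).map (h a)) := by
  have hs : Computable₂ (fun (a : α) (q : ℕ × List β) => q.2 ++ [h a q.1]) := by
    refine Computable.list_concat.comp (Computable.snd.comp Computable.snd) ?_
    exact hh.comp Computable.fst (Computable.fst.comp Computable.snd)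
  refine (Computable.nat_rec hn (Computable.const []) hs).of_eq (fun a => ?_)
  induction n a with
  | zero => simp
  | succ n ih => simp only [ih, List.range_succ, List.map_append, List.map_cons, List.map_nil]

/-- bounded universal quantifier -/
def ballB (n : ℕ) (p : ℕ → Bool) : Bool := n.rec true (fun i acc => acc && p i)

/-- bounded existential quantifier -/
def bexB (n : ℕ) (p : ℕ → Bool) : Bool := n.rec false (fun i acc => acc || p i)

theorem ballB_succ (n : ℕ) (p : ℕ → Bool) : ballB (n + 1) p = (ballB n p && p n) := rfl

theorem bexB_succ (n : ℕ) (p : ℕ → Bool) : bexB (n + 1) p = (bexB n p || p n) := rfl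

theorem ballB_iff (n : ℕ) (p : ℕ → Bool) : ballB n p = true ↔ ∀ i < n, p i = true := by
  induction n with
  | zero => simp [ballB]
  | succ n ih =>
    rw [ballB_succ, Bool.and_eq_true, ih]
    constructor
    · rintro ⟨h1, h2⟩ i hi
      rcases Nat.lt_succ_iff_lt_or_eq.1 hi with h | h
      · exact h1 i h
      · subst h; exact h2
    · intro h
      exact ⟨fun i hi => h i (by omega), h n (by omega)⟩

theorem bexB_iff (n : ℕ) (p : ℕ → Bool) : bexB n p = true ↔ ∃ i < n, p i = true := by
  induction n with
  | zero => simp [bexB]
  | succ n ih =>
    rw [bexB_succ, Bool.or_eq_true, ih]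
    constructor
    · rintro (⟨i, hi, h⟩ | h)
      · exact ⟨i, by omega, h⟩
      · exact ⟨n, by omega, h⟩
    · rintro ⟨i, hi, h⟩
      rcases Nat.lt_succ_iff_lt_or_eq.1 hi with h1 | h1
      · exact Or.inl ⟨i, h1, h⟩
      · subst h1; exact Or.inr h

theorem computable_ballB {n : α → ℕ} {p : α → ℕ → Bool} (hn : Computable n)
    (hp : Computable₂ p) : Computable (fun a => ballB (n a) (p a)) := by
  have hs : Computable₂ (fun (a : α) (q : ℕ × Bool) => q.2 && p a q.1) :=
    Primrec.and.to_comp.comp (Computable.snd.comp Computable.snd)
      (hp.comp Computable.fst (Computable.fst.comp Computable.snd))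
  exact (Computable.nat_rec hn (Computable.const true) hs).of_eq (fun a => rfl)

theorem computable_bexB {n : α → ℕ} {p : α → ℕ → Bool} (hn : Computable n)
    (hp : Computable₂ p) : Computable (fun a => bexB (n a) (p a)) := by
  have hs : Computable₂ (fun (a : α) (q : ℕ × Bool) => q.2 || p a q.1) :=
    Primrec.or.to_comp.comp (Computable.snd.comp Computable.snd)
      (hp.comp Computable.fst (Computable.fst.comp Computable.snd))
  exact (Computable.nat_rec hn (Computable.const false) hs).of_eq (fun a => rfl)

theorem primrec_pow (c : ℕ) {f : α → ℕ} (hf : Primrec f) : Primrec (fun a => c ^ f a) := by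
  have h : Primrec₂ (fun (_ : α) (q : ℕ × ℕ) => q.2 * c) :=
    Primrec.nat_mul.comp (Primrec.snd.comp Primrec.snd) (Primrec.const c)
  refine (Primrec.nat_rec' hf (Primrec.const 1) h).of_eq (fun a => ?_)
  induction f a with
  | zero => simp
  | succ n ih => simp only [ih, pow_succ]

theorem computable_pow (c : ℕ) {f : α → ℕ} (hf : Computable f) : Computable (fun a => c ^ f a) :=
  (primrec_pow c Primrec.id).to_comp.comp hf

theorem computable_eq [DecidableEq β] {f g : α → β} (hf : Computable f) (hg : Computable g) :
    Computable (fun a => decide (f a = g a)) := by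
  have : Primrec (fun p : β × β => decide (p.1 = p.2)) :=
    (PrimrecRel.comp Primrec.eq Primrec.fst Primrec.snd).decide
  exact this.to_comp.comp (hf.pair hg)

theorem computable_le {f g : α → ℕ} (hf : Computable f) (hg : Computable g) :
    Computable (fun a => decide (f a ≤ g a)) := by
  have : Primrec (fun p : ℕ × ℕ => decide (p.1 ≤ p.2)) :=
    (PrimrecRel.comp Primrec.nat_le Primrec.fst Primrec.snd).decide
  exact this.to_comp.comp (hf.pair hg)

theorem computable_lt {f g : α → ℕ} (hf : Computable f) (hg : Computable g) :
    Computable (fun a => decide (f a < g a)) := by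
  have : Primrec (fun p : ℕ × ℕ => decide (p.1 < p.2)) :=
    (PrimrecRel.comp Primrec.nat_lt Primrec.fst Primrec.snd).decide
  exact this.to_comp.comp (hf.pair hg)

theorem computable_add {f g : α → ℕ} (hf : Computable f) (hg : Computable g) :
    Computable (fun a => f a + g a) := Primrec.nat_add.to_comp.comp hf hg

theorem computable_sub {f g : α → ℕ} (hf : Computable f) (hg : Computable g) :
    Computable (fun a => f a - g a) := Primrec.nat_sub.to_comp.comp hf hg

theorem computable_mul {f g : α → ℕ} (hf : Computable f) (hg : Computable g) :
    Computable (fun a => f a * g a) := Primrec.nat_mul.to_comp.comp hf hg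

theorem computable_div {f g : α → ℕ} (hf : Computable f) (hg : Computable g) :
    Computable (fun a => f a / g a) := Primrec.nat_div.to_comp.comp hf hg

theorem computable_mod {f g : α → ℕ} (hf : Computable f) (hg : Computable g) :
    Computable (fun a => f a % g a) := Primrec.nat_mod.to_comp.comp hf hg

theorem computable_min {f g : α → ℕ} (hf : Computable f) (hg : Computable g) :
    Computable (fun a => min (f a) (g a)) := Primrec.nat_min.to_comp.comp hf hg

theorem computable_getD (d : β) {f : α → List β} {g : α → ℕ} (hf : Computable f)
    (hg : Computable g) : Computable (fun a => (f a).getD (g a) d) :=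
  (Primrec.list_getD d).to_comp.comp hf hg

theorem computable_append {f g : α → List β} (hf : Computable f) (hg : Computable g) :
    Computable (fun a => f a ++ g a) := Primrec.list_append.to_comp.comp hf hg

theorem computable_length {f : α → List β} (hf : Computable f) :
    Computable (fun a => (f a).length) := Computable.list_length.comp hf

theorem computable_ite {c : α → Bool} {f g : α → β} (hc : Computable c) (hf : Computable f)
    (hg : Computable g) : Computable (fun a => if c a = true then f a else g a) := by
  refine (Computable.cond hc hf hg).of_eq (fun a => ?_)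
  cases c a <;> simp

end

end Pool.Agent.MP_b653e9_lc
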