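import Mathlib

/-!
A simultaneous selection lemma: finitely many nonnegative weight functions on a finite set have a
common subset of prescribed density that captures the prescribed proportion of each weight.
-/

namespace Pool.Agent.MP_b653e9_lc

open Finset

variable {V : Type*} [Fintype V] [DecidableEq V]

/-- coordinates that are strictly fractional -/
noncomputable def frac (x : V → ℝ) : Finset V :=
  univ.filter (fun v => 0 < x v ∧ x v < 1)

/-- Reduce the number of fractional coordinates keeping `W` linear functionals. -/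
theorem reduce_frac {W : ℕ} (q : Fin W → V → ℝ) (x : V → ℝ) (hx : ∀ v, 0 ≤ x v ∧ x v ≤ 1)
    (hlarge : W < (frac x).card) :
    ∃ x' : V → ℝ, (∀ v, 0 ≤ x' v ∧ x' v ≤ 1) ∧ (∀ i, ∑ v, q i v * x' v = ∑ v, q i v * x v) ∧
      (frac x').card < (frac x).card := by
  classical
  -- a nontrivial relation among the columns indexed by fractional coordinates
  let f : (frac x) → (Fin W → ℝ) := fun v i => q i v
  have hnot : ¬ LinearIndependent ℝ f := by
    intro hli
    have := hli.fintype_card_le_finrank
    simp at this
    omega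
  obtain ⟨g, hg1, v0, hg0⟩ := Fintype.not_linearIndependent_iff.1 hnot
  -- extend by zero
  let z : V → ℝ := fun v => if h : v ∈ frac x then g ⟨v, h⟩ else 0
  have hz0 : z v0 ≠ 0 := by simpa [z] using hg0
  have hzsupp : ∀ v, z v ≠ 0 → v ∈ frac x := by
    intro v hv
    by_contra h
    exact hv (by simp [z, h])
  have hzq : ∀ i, ∑ v, q i v * z v = 0 := by
    intro i
    have h1 := congrFun hg1 i
    simp only [Finset.sum_apply, Pi.smul_apply, smul_eq_mul, Pi.zero_apply, f] at h1
    have h2 : ∑ v, q i v * z v = ∑ v ∈ frac x, q i v * z v := by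
      symm
      apply Finset.sum_subset (Finset.subset_univ _)
      intro v _ hv
      simp [z, hv]
    rw [h2, ← h1, ← Finset.sum_coe_sort]
    refine Finset.sum_congr rfl (fun v _ => ?_)
    simp [z, mul_comm]
  -- the maximal step
  let T : V → ℝ := fun v => if 0 < z v then (1 - x v) / z v else x v / (-z v)
  let N : Finset V := univ.filter (fun v => z v ≠ 0)
  have hN : N.Nonempty := ⟨v0, by simp [N, hz0]⟩
  obtain ⟨v1, hv1N, hv1⟩ := Finset.exists_min_image N T hN
  have hv1z : z v1 ≠ 0 := (Finset.mem_filter.1 hv1N).2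
  have hTpos : ∀ v, z v ≠ 0 → 0 < T v := by
    intro v hv
    have hf := (Finset.mem_filter.1 (hzsupp v hv)).2
    simp only [T]
    split_ifs with h
    · exact div_pos (by linarith [hf.2]) h
    · have : z v < 0 := lt_of_le_of_ne (not_lt.1 h) hv
      exact div_pos hf.1 (by linarith)
  set t := T v1 with ht
  have htpos : 0 < t := hTpos v1 hv1z
  refine ⟨fun v => x v + t * z v, ?_, ?_, ?_⟩
  · intro v
    by_cases hv : z v = 0
    · simpa [hv] using hx v
    · have hle : t ≤ T v := hv1 v (Finset.mem_filter.2 ⟨Finset.mem_univ _, hv⟩)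
      have hf := hx v
      rcases lt_or_gt_of_ne hv with hneg | hpos
      · have hT : T v = x v / (-z v) := by simp [T, not_lt.2 hneg.le]
        rw [hT, le_div_iff₀ (by linarith)] at hle
        constructor
        · nlinarith
        · nlinarith
      · have hT : T v = (1 - x v) / z v := by simp [T, hpos]
        rw [hT, le_div_iff₀ hpos] at hle
        constructor
        · nlinarith
        · nlinarith
  · intro i
    have : ∑ v, q i v * (x v + t * z v) = ∑ v, q i v * x v + t * ∑ v, q i v * z v := by
      rw [Finset.mul_sum, ← Finset.sum_add_distrib]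
      exact Finset.sum_congr rfl (fun v _ => by ring)
    rw [this, hzq i]; ring
  · apply Finset.card_lt_card
    rw [Finset.ssubset_iff_of_subset]
    · refine ⟨v1, hzsupp v1 hv1z, ?_⟩
      rw [frac, Finset.mem_filter]
      rintro ⟨_, h1, h2⟩
      rcases lt_or_gt_of_ne hv1z with hneg | hpos
      · have hT : t = x v1 / (-z v1) := by rw [ht]; simp [T, not_lt.2 hneg.le]
        have hne : (-z v1) ≠ 0 := by linarith
        have : t * (-z v1) = x v1 := by rw [hT]; field_simp
        nlinarith
      · have hT : t = (1 - x v1) / z v1 := by rw [ht]; simp [T, hpos]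
        have : t * z v1 = 1 - x v1 := by rw [hT]; field_simp
        nlinarith
    · intro v hv
      by_contra hnv
      have hzv : z v = 0 := by
        by_contra h
        exact hnv (hzsupp v h)
      rw [frac, Finset.mem_filter] at hv hnv
      simp only [hzv, mul_zero, add_zero] at hv
      exact hnv hv

/-- There is a point with at most `W` fractional coordinates. -/
theorem exists_few_frac {W : ℕ} (q : Fin W → V → ℝ) (x : V → ℝ) (hx : ∀ v, 0 ≤ x v ∧ x v ≤ 1) :
    ∃ x' : V → ℝ, (∀ v, 0 ≤ x' v ∧ x' v ≤ 1) ∧ (∀ i, ∑ v, q i v * x' v = ∑ v, q i v * x v) ∧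
      (frac x').card ≤ W := by
  induction h : (frac x).card using Nat.strong_induction_on generalizing x with
  | _ n ih =>
    by_cases hW : n ≤ W
    · exact ⟨x, hx, fun _ => rfl, by omega⟩
    · obtain ⟨x1, h1, h2, h3⟩ := reduce_frac q x hx (by omega)
      obtain ⟨x2, h4, h5, h6⟩ := ih (frac x1).card (by omega) x1 h1 rfl
      exact ⟨x2, h4, fun i => (h5 i).trans (h2 i), h6⟩

/-- Simultaneous selection. -/
theorem exists_select {W : ℕ} (q : Fin W → V → ℝ) (hq : ∀ i v, 0 ≤ q i v) {θ : ℝ} (hθ : 0 ≤ θ)
    (hθ1 : θ ≤ 1) :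
    ∃ A : Finset V, (A.card : ℝ) ≤ θ * Fintype.card V + (W + 1) ∧
      ∀ i, θ * ∑ v, q i v ≤ ∑ v ∈ A, q i v := by
  classical
  -- add the counting functional
  let q' : Fin (W + 1) → V → ℝ := Fin.cons (fun _ => 1) q
  obtain ⟨x, hx, hxq, hfr⟩ := exists_few_frac q' (fun _ => θ) (fun _ => ⟨hθ, hθ1⟩)
  refine ⟨univ.filter (fun v => 0 < x v), ?_, ?_⟩
  · have h0 := hxq 0
    simp only [q', Fin.cons_zero, one_mul, Finset.sum_const, Finset.card_univ, nsmul_eq_mul] at h0
    have hsplit : univ.filter (fun v => 0 < x v) ⊆
        univ.filter (fun v => x v = 1) ∪ frac x := by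
      intro v hv
      rw [Finset.mem_filter] at hv
      rw [Finset.mem_union, Finset.mem_filter, frac, Finset.mem_filter]
      rcases lt_or_eq_of_le (hx v).2 with h | h
      · exact Or.inr ⟨Finset.mem_univ _, hv.2, h⟩
      · exact Or.inl ⟨Finset.mem_univ _, h⟩
    have h1 : (univ.filter (fun v => 0 < x v)).card ≤
        (univ.filter (fun v => x v = 1)).card + (frac x).card :=
      (Finset.card_le_card hsplit).trans (Finset.card_union_le _ _)
    have h2 : ((univ.filter (fun v => x v = 1)).card : ℝ) ≤ ∑ v, x v := by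
      calc ((univ.filter (fun v => x v = 1)).card : ℝ)
          = ∑ v ∈ univ.filter (fun v => x v = 1), x v := by
            rw [Finset.sum_congr rfl (fun v hv => (Finset.mem_filter.1 hv).2)]
            simp
        _ ≤ ∑ v, x v := Finset.sum_le_sum_of_subset_of_nonneg (Finset.filter_subset _ _)
            (fun v _ _ => (hx v).1)
    have h3 : ((univ.filter (fun v => 0 < x v)).card : ℝ) ≤
        (univ.filter (fun v => x v = 1)).card + (frac x).card := by exact_mod_cast h1
    have h4 : ((frac x).card : ℝ) ≤ W + 1 := by exact_mod_cast hfr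
    rw [h0] at h2
    linarith [mul_comm θ (Fintype.card V : ℝ)]
  · intro i
    have hi := hxq i.succ
    simp only [q', Fin.cons_succ] at hi
    rw [← Finset.sum_mul, mul_comm] at hi
    rw [← hi]
    calc ∑ v, q i v * x v = ∑ v ∈ univ.filter (fun v => 0 < x v), q i v * x v := by
          symm
          apply Finset.sum_subset (Finset.subset_univ _)
          intro v _ hv
          have : x v = 0 := by
            by_contra h
            exact hv (Finset.mem_filter.2 ⟨Finset.mem_univ _, lt_of_le_of_ne (hx v).1 (Ne.symm h)⟩)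
          rw [this, mul_zero]
      _ ≤ ∑ v ∈ univ.filter (fun v => 0 < x v), q i v :=
          Finset.sum_le_sum (fun v _ => mul_le_of_le_one_right (hq i v) (hx v).2)

end Pool.Agent.MP_b653e9_lc
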