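import Mathlib
import Pool.Agent.Lib.MP_b653e9_lc.Bushy
import Pool.Agent.Lib.MP_b653e9_lc.Select

/-!
Existence of small sets of outputs whose preimage is big.
-/

namespace Pool.Agent.MP_b653e9_lc

open Finset

section meas

variable {V : Type*} [Fintype V] [DecidableEq V]

/-- oracles whose output is defined -/
def defd (o : List Bool → Option V) : Set (List Bool) := {τ | ∃ t, o τ = some t}

/-- oracles whose output lies in `T` -/
def hits (o : List Bool → Option V) (T : Finset V) : Set (List Bool) := {τ | ∃ t ∈ T, o τ = some t}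

/-- normalization factor -/
noncomputable def nf (T : ℝ) : ℝ := if T ≤ 1 then 1 else 1 / T

theorem nf_nonneg {T : ℝ} (h : 0 ≤ T) : 0 ≤ nf T := by
  unfold nf; split_ifs
  · norm_num
  · positivity

theorem nf_le_one {T : ℝ} : nf T ≤ 1 := by
  unfold nf; split_ifs with h
  · exact le_rfl
  · rw [div_le_one (by linarith)]; linarith

theorem nf_mul {T : ℝ} : nf T * T = min 1 T := by
  unfold nf; split_ifs with h
  · rw [one_mul, min_eq_right h]
  · have : T ≠ 0 := by linarith
    rw [min_eq_left (by linarith)]
    field_simp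

/-- the measure below the submeasure -/
noncomputable def q (G : ℕ → Bool) (o : List Bool → Option V) : ℕ → List Bool → V → ℝ
  | 0, y, t => if o y = some t then 1 else 0
  | d + 1, y, t =>
    if G y.length then
      nf (v G (defd o) d (y ++ [false]) + v G (defd o) d (y ++ [true])) *
        (q G o d (y ++ [false]) t + q G o d (y ++ [true]) t)
    else (q G o d (y ++ [false]) t + q G o d (y ++ [true]) t) / 2

omit [Fintype V] in
theorem q_nonneg (G : ℕ → Bool) (o : List Bool → Option V) (d : ℕ) (y : List Bool) (t : V) :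
    0 ≤ q G o d y t := by
  induction d generalizing y with
  | zero => unfold q; split_ifs <;> norm_num
  | succ d ih =>
    unfold q
    have h0 := ih (y ++ [false])
    have h1 := ih (y ++ [true])
    split_ifs
    · exact mul_nonneg (nf_nonneg (add_nonneg (v_nonneg _ _ _ _) (v_nonneg _ _ _ _)))
        (add_nonneg h0 h1)
    · positivity

theorem q_total (G : ℕ → Bool) (o : List Bool → Option V) (d : ℕ) (y : List Bool) :
    ∑ t, q G o d y t = v G (defd o) d y := by
  induction d generalizing y with
  | zero =>
    unfold q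
    by_cases h : y ∈ defd o
    · rw [v_zero_of_mem h]
      obtain ⟨t, ht⟩ := h
      rw [Finset.sum_eq_single t]
      · simp [ht]
      · intro b _ hb
        rw [if_neg]
        rw [ht]
        intro h'
        exact hb (Option.some_injective _ h').symm
      · intro h; exact absurd (Finset.mem_univ _) h
    · rw [v_zero_of_not_mem h]
      apply Finset.sum_eq_zero
      intro t _
      rw [if_neg]
      intro h'
      exact h ⟨t, h'⟩
  | succ d ih =>
    rw [v_succ]
    unfold q fz
    split_ifs
    · rw [← Finset.mul_sum, Finset.sum_add_distrib, ih, ih, nf_mul]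
    · rw [← Finset.sum_div, Finset.sum_add_distrib, ih, ih]

theorem q_le (G : ℕ → Bool) (o : List Bool → Option V) (T : Finset V) (d : ℕ) (y : List Bool) :
    ∑ t ∈ T, q G o d y t ≤ v G (hits o T) d y := by
  induction d generalizing y with
  | zero =>
    unfold q
    by_cases h : y ∈ hits o T
    · rw [v_zero_of_mem h]
      obtain ⟨t, htT, ht⟩ := h
      rw [Finset.sum_eq_single t]
      · simp [ht]
      · intro b _ hb
        rw [if_neg]
        rw [ht]
        intro h'
        exact hb (Option.some_injective _ h').symm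
      · intro h; exact absurd htT h
    · rw [v_zero_of_not_mem h]
      apply le_of_eq
      apply Finset.sum_eq_zero
      intro t ht
      rw [if_neg]
      intro h'
      exact h ⟨t, ht, h'⟩
  | succ d ih =>
    rw [v_succ]
    have h0 := ih (y ++ [false])
    have h1 := ih (y ++ [true])
    have hle : ∀ y', ∑ t ∈ T, q G o d y' t ≤ ∑ t, q G o d y' t := fun y' =>
      Finset.sum_le_sum_of_subset_of_nonneg (Finset.subset_univ _) (fun t _ _ => q_nonneg _ _ _ _ _)
    unfold q fz
    split_ifs
    · rw [← Finset.mul_sum, Finset.sum_add_distrib]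
      have hT0 : 0 ≤ v G (defd o) d (y ++ [false]) + v G (defd o) d (y ++ [true]) :=
        add_nonneg (v_nonneg _ _ _ _) (v_nonneg _ _ _ _)
      refine le_min ?_ ?_
      · calc _ ≤ nf (v G (defd o) d (y ++ [false]) + v G (defd o) d (y ++ [true])) *
              (v G (defd o) d (y ++ [false]) + v G (defd o) d (y ++ [true])) := by
              refine mul_le_mul_of_nonneg_left ?_ (nf_nonneg hT0)
              have a0 := hle (y ++ [false])
              have a1 := hle (y ++ [true])
              rw [q_total] at a0 a1
              linarith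
          _ = min 1 _ := nf_mul
          _ ≤ 1 := min_le_left _ _
      · calc _ ≤ 1 * (∑ t ∈ T, q G o d (y ++ [false]) t + ∑ t ∈ T, q G o d (y ++ [true]) t) := by
              refine mul_le_mul_of_nonneg_right nf_le_one ?_
              exact add_nonneg (Finset.sum_nonneg (fun t _ => q_nonneg _ _ _ _ _))
                (Finset.sum_nonneg (fun t _ => q_nonneg _ _ _ _ _))
          _ ≤ _ := by linarith
    · rw [← Finset.sum_div, Finset.sum_add_distrib]
      linarith

end meas

/-- number of special levels (in `G`, not in `G'`) among `n, ..., n + e - 1` -/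
def sp (G G' : ℕ → Bool) : ℕ → ℕ → ℕ
  | _, 0 => 0
  | n, e + 1 => (if G n = true ∧ G' n = false then 1 else 0) + sp G G' (n + 1) e

theorem sp_add (G G' : ℕ → Bool) (n e e' : ℕ) :
    sp G G' n (e + e') = sp G G' n e + sp G G' (n + e) e' := by
  induction e generalizing n with
  | zero => simp [sp]
  | succ e ih =>
    have : e + 1 + e' = (e + e') + 1 := by ring
    rw [this]
    show _ + sp G G' (n + 1) (e + e') = _ + sp G G' (n + 1) e + _
    rw [ih, show n + 1 + e = n + (e + 1) by ring]
    ring

theorem exists_sp (G G' : ℕ → Bool) (h : ∀ n, ∃ m, n ≤ m ∧ G m = true ∧ G' m = false) (n s : ℕ) :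
    ∃ e, s ≤ sp G G' n e := by
  induction s with
  | zero => exact ⟨0, Nat.zero_le _⟩
  | succ s ih =>
    obtain ⟨e, he⟩ := ih
    obtain ⟨m, hm, h1, h2⟩ := h (n + e)
    refine ⟨e + ((m - (n + e)) + 1), ?_⟩
    rw [sp_add, sp_add]
    have : n + e + (m - (n + e)) = m := by omega
    rw [this]
    have : sp G G' m 1 = 1 := by simp [sp, h1, h2]
    omega

/-- Boosting through special levels. -/
theorem boost {G G' : ℕ → Bool} (hGG : ∀ n, G' n = true → G n = true) (C A : Set (List Bool))
    (c : ℝ) (hc : 0 ≤ c) (d e : ℕ) (σ : List Bool)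
    (h : ∀ w : List Bool, w.length = e → c * v G' A d (σ ++ w) ≤ v G C d (σ ++ w)) :
    min 1 (c * 2 ^ (sp G G' σ.length e)) * v G' A (d + e) σ ≤ v G C (d + e) σ := by
  induction e generalizing σ with
  | zero =>
    have h0 := h [] rfl
    simp only [List.append_nil] at h0
    simp only [sp, pow_zero, mul_one, add_zero]
    refine le_trans ?_ h0
    exact mul_le_mul_of_nonneg_right (min_le_right _ _) (v_nonneg _ _ _ _)
  | succ e ih =>
    have hstep : ∀ b : Bool, min 1 (c * 2 ^ (sp G G' (σ.length + 1) e)) * v G' A (d + e) (σ ++ [b])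
        ≤ v G C (d + e) (σ ++ [b]) := by
      intro b
      have := ih (σ ++ [b]) (fun w hw => by
        have := h (b :: w) (by simp [hw])
        simpa using this)
      simpa using this
    set ρ := min 1 (c * 2 ^ (sp G G' (σ.length + 1) e)) with hρ
    have hρ0 : 0 ≤ ρ := le_min zero_le_one (by positivity)
    have hρ1 : ρ ≤ 1 := min_le_left _ _
    have h0 := hstep false
    have h1 := hstep true
    rw [show d + (e + 1) = (d + e) + 1 by ring, v_succ, v_succ]
    set a0 := v G C (d + e) (σ ++ [false])
    set a1 := v G C (d + e) (σ ++ [true])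
    have hb0 := v_nonneg G' A (d + e) (σ ++ [false])
    have hb1 := v_nonneg G' A (d + e) (σ ++ [true])
    have hb0' := v_le_one G' A (d + e) (σ ++ [false])
    have hb1' := v_le_one G' A (d + e) (σ ++ [true])
    set b0 := v G' A (d + e) (σ ++ [false])
    set b1 := v G' A (d + e) (σ ++ [true])
    by_cases hs : G σ.length = true ∧ G' σ.length = false
    · have hsp : sp G G' σ.length (e + 1) = 1 + sp G G' (σ.length + 1) e := by
        simp [sp, hs]
      rw [hsp]
      unfold fz
      rw [hs.1, hs.2]
      simp only [Bool.false_eq_true, if_false, if_true]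
      have h2 : min 1 (c * 2 ^ (1 + sp G G' (σ.length + 1) e)) ≤ 2 * ρ := by
        rw [hρ]
        rcases min_choice (1 : ℝ) (c * 2 ^ (sp G G' (σ.length + 1) e)) with h | h
        · rw [h]; exact (min_le_left _ _).trans (by norm_num)
        · rw [h]
          refine (min_le_right _ _).trans ?_
          rw [pow_add]; apply le_of_eq; ring
      have h3 : min 1 (c * 2 ^ (1 + sp G G' (σ.length + 1) e)) ≤ 1 := min_le_left _ _
      have h4 : 0 ≤ min 1 (c * 2 ^ (1 + sp G G' (σ.length + 1) e)) :=
        le_min zero_le_one (by positivity)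
      refine le_min ?_ ?_
      · nlinarith
      · calc _ ≤ (2 * ρ) * ((b0 + b1) / 2) := mul_le_mul_of_nonneg_right h2 (by positivity)
          _ = ρ * b0 + ρ * b1 := by ring
          _ ≤ a0 + a1 := by linarith
    · have hsp : sp G G' σ.length (e + 1) = sp G G' (σ.length + 1) e := by
        simp only [sp, if_neg hs, zero_add]
      rw [hsp, ← hρ]
      have hGeq : G σ.length = G' σ.length := by
        cases hG : G σ.length <;> cases hG' : G' σ.length
        · rfl
        · have := hGG _ hG'
          rw [hG] at this; exact absurd this (by simp)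
        · exact absurd ⟨hG, hG'⟩ hs
        · rfl
      rw [hGeq]
      exact (mul_fz_le _ hρ0 hρ1).trans (fz_mono _ h0 h1)

/-- the string `t` agrees with the output of `F` on the oracle string `τ` -/
def Agrees (F : List Bool → ℕ → Option Bool) (τ t : List Bool) : Prop :=
  ∀ j (h : j < t.length), F τ j = some t[j]

/-- oracle strings on which the first `m` outputs are defined -/
def defUpto (F : List Bool → ℕ → Option Bool) (m : ℕ) : Set (List Bool) :=
  {τ | ∀ j < m, (F τ j).isSome}

/-- oracle strings whose output has a prefix in `T` -/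
def outIn (F : List Bool → ℕ → Option Bool) (T : Set (List Bool)) : Set (List Bool) :=
  {τ | ∃ t ∈ T, Agrees F τ t}

/-- `F` is monotone in the oracle string -/
def MonoF (F : List Bool → ℕ → Option Bool) : Prop :=
  ∀ τ τ' n b, τ <+: τ' → F τ n = some b → F τ' n = some b

theorem defUpto_up {F : List Bool → ℕ → Option Bool} (hF : MonoF F) (m : ℕ) :
    Up (defUpto F m) := by
  intro σ τ h1 h2 j hj
  obtain ⟨b, hb⟩ := Option.isSome_iff_exists.1 (h1 j hj)
  rw [hF _ _ _ _ h2 hb]; rfl

theorem outIn_up {F : List Bool → ℕ → Option Bool} (hF : MonoF F) (T : Set (List Bool)) :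
    Up (outIn F T) := by
  rintro σ τ ⟨t, ht, h1⟩ h2
  exact ⟨t, ht, fun j hj => hF _ _ _ _ h2 (h1 j hj)⟩

open Classical in
/-- the first `m` outputs as a function -/
noncomputable def oF (F : List Bool → ℕ → Option Bool) (m : ℕ) (τ : List Bool) :
    Option (Fin m → Bool) :=
  if ∀ j < m, (F τ j).isSome then some (fun j => (F τ j).getD false) else none

/-- Main existence lemma. -/
theorem exists_small_big {G G' : ℕ → Bool} (hGG : ∀ n, G' n = true → G n = true)
    (hsp : ∀ n, ∃ m, n ≤ m ∧ G m = true ∧ G' m = false)
    {F : List Bool → ℕ → Option Bool} (hF : MonoF F) (σ : List Bool)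
    (hA : ∀ m, 1 / 2 < S G' (defUpto F m) σ) (s : ℕ) :
    ∃ m, s ≤ m ∧ ∃ T : Finset (List Bool), (∀ t ∈ T, t.length = m) ∧ T.card ≤ 2 ^ (m - s) ∧
      ∃ d, 1 / 2 < v G (outIn F (T : Set (List Bool))) d σ := by
  classical
  obtain ⟨e, he⟩ := exists_sp G G' hsp σ.length (s + 1)
  obtain ⟨m, hm⟩ : ∃ m, m = s + 1 + e + 1 := ⟨_, rfl⟩
  refine ⟨m, by omega, ?_⟩
  -- depth
  obtain ⟨d0, hd0⟩ : ∃ d0, 1 / 2 < v G' (defUpto F m) d0 σ := by
    by_contra h
    simp only [not_exists, not_lt] at h
    have := S_le (G := G') (C := defUpto F m) (σ := σ) h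
    linarith [hA m]
  obtain ⟨d', hd'⟩ : ∃ d', 1 / 2 < v G' (defUpto F m) (d' + e) σ :=
    ⟨d0, hd0.trans_le (v_mono_depth (defUpto_up hF m) σ (by omega))⟩
  have hdef : defd (oF F m) = defUpto F m := by
    ext τ
    unfold defd defUpto oF
    constructor
    · rintro ⟨t, ht⟩
      split_ifs at ht with h
      exact h
    · intro h
      exact ⟨_, if_pos h⟩
  -- selection
  let ι := Fin e → Bool
  let en : ι ≃ Fin (2 ^ e) := Fintype.equivFinOfCardEq (by simp [ι])
  obtain ⟨A, hA1, hA2⟩ := exists_select (V := Fin m → Bool)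
    (fun i : Fin (2 ^ e) => q G' (oF F m) d' (σ ++ List.ofFn (en.symm i)))
    (fun i t => q_nonneg _ _ _ _ _) (θ := 1 / 2 ^ (s + 1)) (by positivity)
    (by rw [div_le_one (by positivity)]; exact one_le_pow₀ (by norm_num))
  refine ⟨A.image List.ofFn, ?_, ?_, ⟨d' + e, ?_⟩⟩
  · intro t ht
    obtain ⟨a, _, rfl⟩ := Finset.mem_image.1 ht
    simp
  · have h1 : (A.image List.ofFn).card ≤ A.card := Finset.card_image_le
    have h2 : A.card ≤ 2 ^ (m - s) := by
      have hcard : (Fintype.card (Fin m → Bool) : ℝ) = 2 ^ m := by simp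
      rw [hcard] at hA1
      have e1 : (1 / 2 ^ (s + 1) * 2 ^ m : ℝ) = 2 ^ (e + 1) := by
        rw [hm, show s + 1 + e + 1 = (s + 1) + (e + 1) by ring, pow_add (2 : ℝ) (s + 1) (e + 1)]
        field_simp
      rw [e1] at hA1
      have e2 : m - s = e + 2 := by omega
      rw [e2]
      have e3 : (A.card : ℝ) ≤ 2 ^ (e + 2) := by
        have : (1 : ℝ) ≤ 2 ^ e := one_le_pow₀ (by norm_num)
        push_cast at hA1
        have e4 : (2 : ℝ) ^ (e + 2) = 4 * 2 ^ e := by ring
        have e5 : (2 : ℝ) ^ (e + 1) = 2 * 2 ^ e := by ring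
        rw [e5] at hA1
        rw [e4]
        linarith
      exact_mod_cast e3
    exact h1.trans h2
  · have hb := boost hGG (outIn F ((A.image List.ofFn : Finset (List Bool)) : Set (List Bool)))
      (defUpto F m) (1 / 2 ^ (s + 1)) (by positivity) d' e σ (by
        intro w hw
        obtain ⟨w', rfl⟩ : ∃ w' : Fin e → Bool, w = List.ofFn w' := by
          refine ⟨fun i => w.get (i.cast hw.symm), ?_⟩
          apply List.ext_getElem
          · simp [hw]
          · intro i h1 h2; simp
        have h1 := hA2 (en w')
        simp only [Equiv.symm_apply_apply] at h1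
        rw [q_total, hdef] at h1
        refine h1.trans ((q_le G' (oF F m) A d' _).trans ?_)
        refine (v_mono_set ?_ _ _).trans (v_mono_G hGG _ _ _)
        rintro τ ⟨t, htA, ht⟩
        refine ⟨List.ofFn t, ?_, ?_⟩
        · exact_mod_cast Finset.mem_image_of_mem _ htA
        · intro j hj
          have hjm : j < m := by simpa using hj
          unfold oF at ht
          split_ifs at ht with hall
          have ht' := Option.some_injective _ ht
          obtain ⟨b, hb⟩ := Option.isSome_iff_exists.1 (hall j hjm)
          have h3 : t ⟨j, hjm⟩ = (F τ j).getD false := by rw [← ht']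
          rw [hb] at h3
          simp only [Option.getD_some] at h3
          rw [hb, ← h3]
          simp)
    have hone : min (1 : ℝ) (1 / 2 ^ (s + 1) * 2 ^ sp G G' σ.length e) = 1 := by
      apply min_eq_left
      have : (2 : ℝ) ^ (s + 1) ≤ 2 ^ sp G G' σ.length e := pow_le_pow_right₀ (by norm_num) he
      rw [one_div, inv_mul_eq_div, one_le_div (by positivity)]
      exact this
    rw [hone, one_mul] at hb
    exact hd'.trans_le hb

end Pool.Agent.MP_b653e9_lc
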