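import Mathlib
import Pool.Agent.Lib.MP_b653e9_lc.Comp
import Pool.Agent.Lib.MP_b653e9_lc.Test

/-!
Integer version of the tree values and its computability.
-/

namespace Pool.Agent.MP_b653e9_lc

/-- integer-scaled tree value -/
def tv (G : ℕ → Bool) (leaf : List Bool → Bool) : ℕ → List Bool → ℕ
  | 0, y => if leaf y then 1 else 0
  | d + 1, y =>
    if G y.length then min (2 ^ (d + 1)) (2 * (tv G leaf d (y ++ [false]) + tv G leaf d (y ++ [true])))
    else tv G leaf d (y ++ [false]) + tv G leaf d (y ++ [true])

theorem tv_eq (G : ℕ → Bool) (leaf : List Bool → Bool) (d : ℕ) (y : List Bool) :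
    (tv G leaf d y : ℝ) = 2 ^ d * v G {τ | leaf τ = true} d y := by
  induction d generalizing y with
  | zero =>
    unfold tv
    by_cases h : leaf y = true
    · rw [v_zero_of_mem (show y ∈ {τ | leaf τ = true} from h)]; simp [h]
    · rw [v_zero_of_not_mem (show y ∉ {τ | leaf τ = true} from h)]; simp [h]
  | succ d ih =>
    rw [v_succ]
    unfold tv fz
    split_ifs
    · push_cast
      rw [ih, ih, mul_min_of_nonneg _ _ (by positivity)]
      congr 1
      · ring
      · ring
    · push_cast
      rw [ih, ih]
      ring

/-- the `n`-bit big-endian representation of `j` -/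
def wd (n j : ℕ) : List Bool := (List.range n).map (fun i => decide (j / 2 ^ (n - 1 - i) % 2 = 1))

theorem wd_length (n j : ℕ) : (wd n j).length = n := by simp [wd]

theorem wd_succ (n j : ℕ) (b : Bool) : wd (n + 1) (2 * j + b.toNat) = wd n j ++ [b] := by
  unfold wd
  rw [List.range_succ, List.map_append]
  congr 1
  · apply List.map_congr_left
    intro i hi
    have hi := List.mem_range.1 hi
    obtain ⟨k, hk⟩ : ∃ k, n = i + 1 + k := ⟨n - (i + 1), by omega⟩
    have e1 : n + 1 - 1 - i = k + 1 := by omega
    have e2 : n - 1 - i = k := by omega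
    rw [e1, e2, pow_succ, mul_comm (2 ^ k) 2, ← Nat.div_div_eq_div_mul]
    have : (2 * j + b.toNat) / 2 = j := by
      have := Bool.toNat_le b
      omega
    rw [this]
  · cases b
    · simp
    · simp

/-- value of a binary string -/
def num (w : List Bool) : ℕ := w.foldl (fun acc b => 2 * acc + b.toNat) 0

theorem num_append (w : List Bool) (b : Bool) : num (w ++ [b]) = 2 * num w + b.toNat := by
  unfold num; rw [List.foldl_append]; rfl

theorem num_lt (w : List Bool) : num w < 2 ^ w.length := by
  induction w using List.reverseRecOn with
  | nil => simp [num]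
  | append_singleton w b ih =>
    rw [num_append, List.length_append, List.length_singleton, pow_succ]
    have : b.toNat ≤ 1 := Bool.toNat_le b
    omega

theorem num_wd (n j : ℕ) (hj : j < 2 ^ n) : num (wd n j) = j := by
  induction n generalizing j with
  | zero => simp at hj; subst hj; rfl
  | succ n ih =>
    have h1 : j = 2 * (j / 2) + (decide (j % 2 = 1)).toNat := by
      by_cases h : j % 2 = 1
      · simp [h]; omega
      · simp [h]; omega
    rw [pow_succ] at hj
    rw [h1, wd_succ, num_append, ih _ (by omega)]

/-- list of the tree values at all extensions of `y` of relative depth `d - i` -/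
def vals (G : ℕ → Bool) (leaf : List Bool → Bool) (d : ℕ) (y : List Bool) (i : ℕ) : List ℕ :=
  i.rec ((List.range (2 ^ d)).map (fun j => if leaf (y ++ wd d j) then 1 else 0))
    (fun i L => (List.range (2 ^ (d - (i + 1)))).map (fun j =>
      if G (y.length + (d - (i + 1))) then
        min (2 ^ (i + 1)) (2 * (L.getD (2 * j) 0 + L.getD (2 * j + 1) 0))
      else L.getD (2 * j) 0 + L.getD (2 * j + 1) 0))

theorem vals_eq (G : ℕ → Bool) (leaf : List Bool → Bool) (d : ℕ) (y : List Bool) (i : ℕ)
    (hi : i ≤ d) : vals G leaf d y i =
      (List.range (2 ^ (d - i))).map (fun j => tv G leaf i (y ++ wd (d - i) j)) := by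
  induction i with
  | zero => rfl
  | succ i ih =>
    have ih := ih (by omega)
    have hstep : vals G leaf d y (i + 1) =
      (List.range (2 ^ (d - (i + 1)))).map (fun j =>
      if G (y.length + (d - (i + 1))) then
        min (2 ^ (i + 1)) (2 * ((vals G leaf d y i).getD (2 * j) 0 + (vals G leaf d y i).getD (2 * j + 1) 0))
      else (vals G leaf d y i).getD (2 * j) 0 + (vals G leaf d y i).getD (2 * j + 1) 0) := rfl
    rw [hstep]
    apply List.map_congr_left
    intro j hj
    have hj := List.mem_range.1 hj
    have hd : d - i = d - (i + 1) + 1 := by omega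
    have h2 : 2 ^ (d - i) = 2 * 2 ^ (d - (i + 1)) := by rw [hd, pow_succ]; ring
    have g0 : (vals G leaf d y i).getD (2 * j) 0 = tv G leaf i (y ++ wd (d - (i + 1)) j ++ [false]) := by
      rw [ih, List.getD_eq_getElem?_getD, List.getElem?_map, List.getElem?_range (by omega)]
      simp only [Option.map_some, Option.getD_some]
      rw [hd]
      have := wd_succ (d - (i + 1)) j false
      simp only [Bool.toNat_false, add_zero] at this
      rw [this, List.append_assoc]
    have g1 : (vals G leaf d y i).getD (2 * j + 1) 0 = tv G leaf i (y ++ wd (d - (i + 1)) j ++ [true]) := by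
      rw [ih, List.getD_eq_getElem?_getD, List.getElem?_map, List.getElem?_range (by omega)]
      simp only [Option.map_some, Option.getD_some]
      rw [hd]
      have := wd_succ (d - (i + 1)) j true
      simp only [Bool.toNat_true] at this
      rw [this, List.append_assoc]
    rw [g0, g1]
    have hlen : (y ++ wd (d - (i + 1)) j).length = y.length + (d - (i + 1)) := by
      simp [wd_length]
    conv_rhs => unfold tv
    rw [hlen]

theorem tv_eq_vals (G : ℕ → Bool) (leaf : List Bool → Bool) (d : ℕ) (y : List Bool) :
    tv G leaf d y = (vals G leaf d y d).getD 0 0 := by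
  rw [vals_eq G leaf d y d le_rfl]
  simp [wd]

section comp

variable {α : Type*} [Primcodable α]

theorem primrec_wd : Primrec₂ wd := by
  unfold wd
  refine Primrec.list_map (Primrec.list_range.comp Primrec.fst) ?_
  refine (PrimrecRel.comp Primrec.eq ?_ (Primrec.const 1)).decide
  refine Primrec.nat_mod.comp (Primrec.nat_div.comp (Primrec.snd.comp Primrec.fst) ?_)
    (Primrec.const 2)
  refine primrec_pow 2 ?_
  exact Primrec.nat_sub.comp (Primrec.nat_sub.comp (Primrec.fst.comp Primrec.fst)
    (Primrec.const 1)) Primrec.snd

theorem primrec_num : Primrec num := by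
  unfold num
  refine Primrec.list_foldl (h := fun (_ : List Bool) (q : ℕ × Bool) => 2 * q.1 + q.2.toNat)
    Primrec.id (Primrec.const 0) ?_
  refine Primrec.nat_add.comp (Primrec.nat_mul.comp (Primrec.const 2)
    (Primrec.fst.comp Primrec.snd)) ?_
  exact (Primrec.dom_bool Bool.toNat).comp (Primrec.snd.comp Primrec.snd)

theorem computable_vals {G : ℕ → Bool} (hG : Computable G) {leaf : α → List Bool → Bool}
    (hleaf : Computable₂ leaf) {d : α → ℕ} (hd : Computable d) {y : α → List Bool}
    (hy : Computable y) {i : α → ℕ} (hi : Computable i) :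
    Computable (fun a => vals G (leaf a) (d a) (y a) (i a)) := by
  have h0 : Computable (fun a => (List.range (2 ^ (d a))).map
      (fun j => if leaf a (y a ++ wd (d a) j) = true then 1 else 0)) := by
    refine computable_rangeMap (h := fun a j => if leaf a (y a ++ wd (d a) j) = true then 1 else 0)
      (computable_pow 2 hd) ?_
    refine computable_ite ?_ (Computable.const 1) (Computable.const 0)
    refine hleaf.comp Computable.fst ?_
    exact computable_append (hy.comp Computable.fst)
      (primrec_wd.to_comp.comp (hd.comp Computable.fst) Computable.snd)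
  have hs : Computable₂ (fun (a : α) (q : ℕ × List ℕ) =>
      (List.range (2 ^ (d a - (q.1 + 1)))).map (fun j =>
      if G ((y a).length + (d a - (q.1 + 1))) then
        min (2 ^ (q.1 + 1)) (2 * (q.2.getD (2 * j) 0 + q.2.getD (2 * j + 1) 0))
      else q.2.getD (2 * j) 0 + q.2.getD (2 * j + 1) 0)) := by
    have hd1 : Computable (fun p : α × (ℕ × List ℕ) => d p.1 - (p.2.1 + 1)) :=
      computable_sub (hd.comp Computable.fst)
        (Computable.succ.comp (Computable.fst.comp Computable.snd))
    refine computable_rangeMap (α := α × (ℕ × List ℕ)) (h := fun p j =>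
      if G ((y p.1).length + (d p.1 - (p.2.1 + 1))) = true then
        min (2 ^ (p.2.1 + 1)) (2 * (p.2.2.getD (2 * j) 0 + p.2.2.getD (2 * j + 1) 0))
      else p.2.2.getD (2 * j) 0 + p.2.2.getD (2 * j + 1) 0) (computable_pow 2 hd1) ?_
    have hL : Computable (fun p : (α × (ℕ × List ℕ)) × ℕ => p.1.2.2) :=
      Computable.snd.comp (Computable.snd.comp Computable.fst)
    have h2j : Computable (fun p : (α × (ℕ × List ℕ)) × ℕ => 2 * p.2) :=
      computable_mul (Computable.const 2) Computable.snd
    have hsum : Computable (fun p : (α × (ℕ × List ℕ)) × ℕ =>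
        p.1.2.2.getD (2 * p.2) 0 + p.1.2.2.getD (2 * p.2 + 1) 0) :=
      computable_add (computable_getD 0 hL h2j) (computable_getD 0 hL (Computable.succ.comp h2j))
    refine computable_ite ?_ ?_ hsum
    · refine hG.comp (computable_add ?_ (hd1.comp Computable.fst))
      exact computable_length (hy.comp (Computable.fst.comp Computable.fst))
    · refine computable_min (computable_pow 2 ?_) (computable_mul (Computable.const 2) hsum)
      exact Computable.succ.comp (Computable.fst.comp (Computable.snd.comp Computable.fst))
  exact (Computable.nat_rec hi h0 hs).of_eq (fun a => rfl)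

theorem computable_tv {G : ℕ → Bool} (hG : Computable G) {leaf : α → List Bool → Bool}
    (hleaf : Computable₂ leaf) {d : α → ℕ} (hd : Computable d) {y : α → List Bool}
    (hy : Computable y) : Computable (fun a => tv G (leaf a) (d a) (y a)) := by
  refine (computable_getD 0 (computable_vals hG hleaf hd hy hd) (Computable.const 0)).of_eq ?_
  intro a
  rw [tv_eq_vals]

end comp

/-- decidable version of the statement that the output has a prefix in `T` -/
def leafB (F : List Bool → ℕ → Option Bool) (T : List (List Bool)) (τ : List Bool) : Bool :=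
  bexB T.length (fun k => ballB (T.getD k []).length
    (fun j => decide (F τ j = some ((T.getD k []).getD j false))))

theorem leafB_iff (F : List Bool → ℕ → Option Bool) (T : List (List Bool)) (τ : List Bool) :
    leafB F T τ = true ↔ τ ∈ outIn F {t | t ∈ T} := by
  unfold leafB
  rw [bexB_iff]
  constructor
  · rintro ⟨k, hk, h⟩
    rw [ballB_iff] at h
    have hg : T.getD k [] = T[k] := by simp [List.getD, hk]
    rw [hg] at h
    refine ⟨T[k], List.getElem_mem hk, ?_⟩
    intro j hj
    have := h j hj
    simp only [decide_eq_true_eq] at this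
    rw [this]
    simp [List.getD, hj]
  · rintro ⟨t, ht, h⟩
    have ht : t ∈ T := ht
    obtain ⟨k, hk, rfl⟩ := List.getElem_of_mem ht
    refine ⟨k, hk, ?_⟩
    rw [ballB_iff]
    have hg : T.getD k [] = T[k] := by simp [List.getD, hk]
    rw [hg]
    intro j hj
    rw [decide_eq_true_eq, h j hj]
    simp [List.getD, hj]

theorem computable_leafB {F : List Bool → ℕ → Option Bool} (hF : Computable₂ F) :
    Computable₂ (leafB F) := by
  unfold leafB
  refine computable_bexB (α := List (List Bool) × List Bool) (p := fun q k =>
    ballB (q.1.getD k []).length (fun j => decide (F q.2 j = some ((q.1.getD k []).getD j false))))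
    (computable_length Computable.fst) ?_
  have hg : Computable (fun p : (List (List Bool) × List Bool) × ℕ => p.1.1.getD p.2 []) :=
    computable_getD [] (Computable.fst.comp Computable.fst) Computable.snd
  refine computable_ballB (α := (List (List Bool) × List Bool) × ℕ) (p := fun p j =>
    decide (F p.1.2 j = some ((p.1.1.getD p.2 []).getD j false))) (computable_length hg) ?_
  refine computable_eq ?_ ?_
  · exact hF.comp (Computable.snd.comp (Computable.fst.comp Computable.fst)) Computable.snd
  · exact Computable.option_some.comp (computable_getD false (hg.comp Computable.fst)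
      Computable.snd)

end Pool.Agent.MP_b653e9_lc
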