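import Mathlib
import Pool.Agent.Lib.MP_b653e9_lc.Defs
import Pool.Agent.Lib.MP_b653e9_lc.Tree

/-!
The machine compressing the outputs caught by the tests.
-/

namespace Pool.Agent.MP_b653e9_lc

theorem K_le {U : List Bool →. List Bool} {σ p : List Bool} (h : σ ∈ U p) : K U σ ≤ p.length :=
  Nat.sInf_le ⟨p, h, rfl⟩

/-- a prefix-free machine given by a computable choice of finite lists -/
def tmach (cf : ℕ → List (List Bool) × ℕ) (p : List Bool) : Option (List Bool) :=
  let j := p.findIdx (fun b => !b)
  let w := p.drop (j + 1)
  let c := cf (2 * j + 2)
  if decide (j < p.length) && decide (w.length = c.2) then some (c.1.getD (num w) []) else none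

theorem computable_tmach {cf : ℕ → List (List Bool) × ℕ} (hcf : Computable cf) :
    Computable (tmach cf) := by
  have hj : Computable (fun p : List Bool => p.findIdx (fun b => !b)) := by
    refine Primrec.to_comp ?_
    exact Primrec.list_findIdx Primrec.id (Primrec.not.comp Primrec.snd).to₂
  have hw : Computable (fun p : List Bool => p.drop (p.findIdx (fun b => !b) + 1)) :=
    Primrec.list_drop.to_comp.comp (Computable.succ.comp hj) Computable.id
  have hc : Computable (fun p : List Bool => cf (2 * p.findIdx (fun b => !b) + 2)) :=
    hcf.comp (computable_add (computable_mul (Computable.const 2) hj) (Computable.const 2))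
  have hcond : Computable (fun p : List Bool =>
      decide (p.findIdx (fun b => !b) < p.length) &&
        decide ((p.drop (p.findIdx (fun b => !b) + 1)).length =
          (cf (2 * p.findIdx (fun b => !b) + 2)).2)) :=
    Primrec.and.to_comp.comp (computable_lt hj Computable.list_length)
      (computable_eq (computable_length hw) (Computable.snd.comp hc))
  have hout : Computable (fun p : List Bool =>
      (cf (2 * p.findIdx (fun b => !b) + 2)).1.getD (num (p.drop (p.findIdx (fun b => !b) + 1))) []) :=
    computable_getD [] (Computable.fst.comp hc) (primrec_num.to_comp.comp hw)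
  refine (computable_ite hcond (Computable.option_some.comp hout) (Computable.const none)).of_eq ?_
  intro p
  rfl

theorem tmach_dom {cf : ℕ → List (List Bool) × ℕ} {p : List Bool}
    (h : (tmach cf p).isSome) : ∃ j w, p = List.replicate j true ++ false :: w ∧
      w.length = (cf (2 * j + 2)).2 := by
  unfold tmach at h
  simp only at h
  split_ifs at h with hc
  · rw [Bool.and_eq_true, decide_eq_true_eq, decide_eq_true_eq] at hc
    obtain ⟨h1, h2⟩ := hc
    set j := p.findIdx (fun b => !b) with hj
    refine ⟨j, p.drop (j + 1), ?_, h2⟩
    have hfalse : p[j] = false := by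
      have := List.findIdx_getElem (w := h1)
      simpa using this
    have htake : p.take j = List.replicate j true := by
      rw [List.eq_replicate_iff]
      refine ⟨by simp; omega, ?_⟩
      intro b hb
      obtain ⟨i, hi, rfl⟩ := List.getElem_of_mem hb
      have hi' : i < j := by simp at hi; omega
      have := List.not_of_lt_findIdx (p := fun b => !b) (xs := p) (i := i) hi'
      simp only [List.getElem_take]
      simpa using this
    calc p = p.take j ++ p.drop j := (List.take_append_drop j p).symm
      _ = List.replicate j true ++ (p[j] :: p.drop (j + 1)) := by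
          rw [htake, List.drop_eq_getElem_cons h1]
      _ = _ := by rw [hfalse]
  · simp at h

theorem findIdx_aux (j : ℕ) (w : List Bool) :
    (List.replicate j true ++ false :: w).findIdx (fun b => !b) = j := by
  induction j with
  | zero => simp [List.findIdx_cons]
  | succ j ih =>
    rw [List.replicate_succ, List.cons_append, List.findIdx_cons, ih]
    simp

theorem tmach_eq {cf : ℕ → List (List Bool) × ℕ} {j : ℕ} {w : List Bool}
    (hw : w.length = (cf (2 * j + 2)).2) :
    tmach cf (List.replicate j true ++ false :: w) =
      some ((cf (2 * j + 2)).1.getD (num w) []) := by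
  have hj : (List.replicate j true ++ false :: w).findIdx (fun b => !b) = j := findIdx_aux j w
  have hdrop : (List.replicate j true ++ false :: w).drop (j + 1) = w := by
    rw [List.drop_append]
    simp
  unfold tmach
  simp only [hj, hdrop]
  have : (decide (j < (List.replicate j true ++ false :: w).length) &&
      decide (w.length = (cf (2 * j + 2)).2)) = true := by
    rw [Bool.and_eq_true, decide_eq_true_eq, decide_eq_true_eq]
    exact ⟨by simp, hw⟩
  rw [if_pos this]

theorem replicate_prefix_aux {j j' : ℕ} {w w' : List Bool}
    (h : (List.replicate j true ++ false :: w) <+: (List.replicate j' true ++ false :: w')) :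
    j = j' ∧ w <+: w' := by
  induction j generalizing j' with
  | zero =>
    cases j' with
    | zero =>
      refine ⟨rfl, ?_⟩
      simpa using h
    | succ j' =>
      exfalso
      rw [List.replicate_succ] at h
      simp only [List.replicate_zero, List.nil_append, List.cons_append] at h
      rw [List.cons_prefix_cons] at h
      exact absurd h.1 (by simp)
  | succ j ih =>
    cases j' with
    | zero =>
      exfalso
      rw [List.replicate_succ] at h
      simp only [List.replicate_zero, List.nil_append, List.cons_append] at h
      rw [List.cons_prefix_cons] at h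
      exact absurd h.1 (by simp)
    | succ j' =>
      rw [List.replicate_succ, List.replicate_succ] at h
      simp only [List.cons_append] at h
      rw [List.cons_prefix_cons] at h
      obtain ⟨h1, h2⟩ := ih h.2
      exact ⟨by omega, h2⟩

theorem tmach_machine {cf : ℕ → List (List Bool) × ℕ} (hcf : Computable cf) :
    PrefixFreeMachine (fun p => (tmach cf p : Part (List Bool))) := by
  refine ⟨(computable_tmach hcf).ofOption, ?_⟩
  intro p q hp hq hpq
  have hp' : (tmach cf p).isSome := by
    rw [Option.isSome_iff_exists]
    obtain ⟨a, ha⟩ := Part.dom_iff_mem.1 hp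
    exact ⟨a, by simpa using ha⟩
  have hq' : (tmach cf q).isSome := by
    rw [Option.isSome_iff_exists]
    obtain ⟨a, ha⟩ := Part.dom_iff_mem.1 hq
    exact ⟨a, by simpa using ha⟩
  obtain ⟨j, w, rfl, hw⟩ := tmach_dom hp'
  obtain ⟨j', w', rfl, hw'⟩ := tmach_dom hq'
  obtain ⟨rfl, h2⟩ := replicate_prefix_aux hpq
  have : w.length = w'.length := by rw [hw, hw']
  rw [h2.eq_of_length this]

/-- If a computable function picks, for every `s`, a list of at most `2^(m-s)` strings of length
`m`, then for each `r` all strings picked for some `s` have complexity below `m - r`. -/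
theorem compress {U : List Bool →. List Bool} (hU : UniversalMachine U)
    {cf : ℕ → List (List Bool) × ℕ} (hcf : Computable cf)
    {m : ℕ → ℕ} (hm : ∀ s, s ≤ m s) (hc2 : ∀ s, (cf s).2 = m s - s)
    (hlen : ∀ s, (cf s).1.length ≤ 2 ^ (m s - s)) (r : ℕ) :
    ∃ s, ∀ t ∈ (cf s).1, K U t + r < m s := by
  obtain ⟨c, hc⟩ := hU.2 _ (tmach_machine hcf)
  refine ⟨2 * (r + c) + 2, ?_⟩
  intro t ht
  set j := r + c with hj
  set s := 2 * j + 2 with hs
  obtain ⟨k, hk, rfl⟩ := List.getElem_of_mem ht
  have hk2 : k < 2 ^ (m s - s) := hk.trans_le (hlen s)
  have hw : (wd (m s - s) k).length = (cf (2 * j + 2)).2 := by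
    rw [wd_length, ← hs, hc2]
  have hmem : (cf s).1[k] ∈ (tmach cf (List.replicate j true ++ false :: wd (m s - s) k) :
      Part (List Bool)) := by
    rw [tmach_eq hw, num_wd _ _ hk2]
    have : (cf (2 * j + 2)).1.getD k [] = (cf s).1[k] := by
      rw [← hs]; simp [List.getD, hk]
    rw [this]
    simp
  obtain ⟨q, hq1, hq2⟩ := hc _ _ hmem
  have h1 := K_le hq1
  have h2 : (List.replicate j true ++ false :: wd (m s - s) k).length = j + 1 + (m s - s) := by
    simp [wd_length]; ring
  rw [h2] at hq2
  have := hm s
  omega

end Pool.Agent.MP_b653e9_lc
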