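import Mathlib
import Pool.Agent.Lib.MP_b653e9_lc.Machine

/-!
The effective search for the test sets.
-/

namespace Pool.Agent.MP_b653e9_lc

open Encodable

/-- the check for a candidate `(m, T, d)` at level `s` -/
def chkB (G : ℕ → Bool) (F : List Bool → ℕ → Option Bool) (σ : List Bool) (s : ℕ)
    (c : ℕ × List (List Bool) × ℕ) : Bool :=
  decide (s ≤ c.1) && (decide (c.2.1.length ≤ 2 ^ (c.1 - s)) &&
    (ballB c.2.1.length (fun k => decide ((c.2.1.getD k []).length = c.1)) &&
      decide (2 ^ c.2.2 < 2 * tv G (leafB F c.2.1) c.2.2 σ)))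

theorem computable_chkB {G : ℕ → Bool} (hG : Computable G) {F : List Bool → ℕ → Option Bool}
    (hF : Computable₂ F) (σ : List Bool) : Computable₂ (chkB G F σ) := by
  have hm : Computable (fun q : ℕ × (ℕ × List (List Bool) × ℕ) => q.2.1) :=
    Computable.fst.comp Computable.snd
  have hT : Computable (fun q : ℕ × (ℕ × List (List Bool) × ℕ) => q.2.2.1) :=
    Computable.fst.comp (Computable.snd.comp Computable.snd)
  have hd : Computable (fun q : ℕ × (ℕ × List (List Bool) × ℕ) => q.2.2.2) :=
    Computable.snd.comp (Computable.snd.comp Computable.snd)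
  unfold chkB
  refine Primrec.and.to_comp.comp (computable_le Computable.fst hm) ?_
  refine Primrec.and.to_comp.comp
    (computable_le (computable_length hT) (computable_pow 2 (computable_sub hm Computable.fst))) ?_
  refine Primrec.and.to_comp.comp ?_ ?_
  · refine computable_ballB (p := fun (q : ℕ × (ℕ × List (List Bool) × ℕ)) k =>
      decide ((q.2.2.1.getD k []).length = q.2.1)) (computable_length hT) ?_
    exact computable_eq (computable_length (computable_getD [] (hT.comp Computable.fst)
      Computable.snd)) (hm.comp Computable.fst)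
  · refine computable_lt (computable_pow 2 hd) (computable_mul (Computable.const 2) ?_)
    refine computable_tv (α := ℕ × (ℕ × List (List Bool) × ℕ)) hG
      (leaf := fun q => leafB F q.2.2.1) ?_ hd (Computable.const σ)
    exact (computable_leafB hF).comp (hT.comp Computable.fst) Computable.snd

theorem chkB_iff {G : ℕ → Bool} {F : List Bool → ℕ → Option Bool} {σ : List Bool} {s : ℕ}
    {m : ℕ} {T : List (List Bool)} {d : ℕ} : chkB G F σ s (m, T, d) = true ↔
      s ≤ m ∧ T.length ≤ 2 ^ (m - s) ∧ (∀ t ∈ T, t.length = m) ∧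
        1 / 2 < v G (outIn F {t | t ∈ T}) d σ := by
  unfold chkB
  rw [Bool.and_eq_true, Bool.and_eq_true, Bool.and_eq_true, decide_eq_true_eq, decide_eq_true_eq,
    decide_eq_true_eq, ballB_iff]
  have h1 : (∀ i < T.length, decide ((T.getD i []).length = m) = true) ↔
      ∀ t ∈ T, t.length = m := by
    constructor
    · intro h t ht
      obtain ⟨k, hk, rfl⟩ := List.getElem_of_mem ht
      have := h k hk
      simpa [List.getD, hk] using this
    · intro h k hk
      have := h T[k] (List.getElem_mem hk)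
      simpa [List.getD, hk] using this
  have h2 : (2 ^ d < 2 * tv G (leafB F T) d σ) ↔ 1 / 2 < v G (outIn F {t | t ∈ T}) d σ := by
    have h3 : {τ | leafB F T τ = true} = outIn F {t | t ∈ T} := by
      ext τ; exact leafB_iff F T τ
    have h4 := tv_eq G (leafB F T) d σ
    rw [h3] at h4
    have h5 : (2 ^ d < 2 * tv G (leafB F T) d σ) ↔
        ((2 : ℝ) ^ d < 2 * (tv G (leafB F T) d σ : ℝ)) := by exact_mod_cast Iff.rfl
    rw [h5, h4]
    have hpos : (0 : ℝ) < 2 ^ d := by positivity
    constructor
    · intro h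
      have : (2 : ℝ) ^ d * 1 < 2 ^ d * (2 * v G (outIn F {t | t ∈ T}) d σ) := by linarith
      have := lt_of_mul_lt_mul_left this hpos.le
      linarith
    · intro h
      have : (2 : ℝ) ^ d * 1 < 2 ^ d * (2 * v G (outIn F {t | t ∈ T}) d σ) :=
        mul_lt_mul_of_pos_left (by linarith) hpos
      linarith
  rw [h2]
  constructor
  · rintro ⟨a, b, c, d⟩
    exact ⟨a, b, h1.1 c, d⟩
  · rintro ⟨a, b, c, d⟩
    exact ⟨a, b, h1.2 c, d⟩

/-- Case B of the construction. -/
theorem caseB {U : List Bool →. List Bool} (hU : UniversalMachine U) {G G' : ℕ → Bool}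
    (hG : Computable G) (hGG : ∀ n, G' n = true → G n = true)
    (hsp : ∀ n, ∃ m, n ≤ m ∧ G m = true ∧ G' m = false)
    {F : List Bool → ℕ → Option Bool} (hFc : Computable₂ F) (hF : MonoF F) (σ : List Bool)
    (hA : ∀ m, 1 / 2 < S G' (defUpto F m) σ) (r : ℕ) :
    ∃ m, ∃ T : Set (List Bool), (∀ t ∈ T, t.length = m ∧ K U t + r < m) ∧
      ∃ d, 1 / 2 < v G (outIn F T) d σ := by
  classical
  have hex : ∀ s, ∃ n, chkB G F σ s ((decode (α := ℕ × List (List Bool) × ℕ) n).getD (0, [], 0))
      = true := by
    intro s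
    obtain ⟨m, hm, T, hT1, hT2, d, hd⟩ := exists_small_big hGG hsp hF σ hA s
    refine ⟨encode (m, T.toList, d), ?_⟩
    rw [encodek, Option.getD_some, chkB_iff]
    refine ⟨hm, by simpa using hT2, fun t ht => hT1 t (by simpa using ht), ?_⟩
    have : {t | t ∈ T.toList} = (T : Set (List Bool)) := by ext t; simp
    rw [this]
    exact hd
  have hcp : ComputablePred (fun p : ℕ × ℕ =>
      chkB G F σ p.1 ((decode (α := ℕ × List (List Bool) × ℕ) p.2).getD (0, [], 0)) = true) := by
    refine ComputablePred.computable_iff.2 ⟨_, ?_, rfl⟩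
    refine (computable_chkB hG hFc σ).comp Computable.fst ?_
    exact (Primrec.option_getD.comp (Primrec.decode.comp Primrec.snd) (Primrec.const _)).to_comp
  have hfind : Computable (fun s => Nat.find (hex s)) :=
    Computable.find (P := fun s n => chkB G F σ s
      ((decode (α := ℕ × List (List Bool) × ℕ) n).getD (0, [], 0)) = true) hcp hex
  set ch : ℕ → ℕ × List (List Bool) × ℕ := fun s =>
    (decode (α := ℕ × List (List Bool) × ℕ) (Nat.find (hex s))).getD (0, [], 0) with hch
  have hchc : Computable ch :=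
    (Primrec.option_getD.comp (Primrec.decode.comp Primrec.id) (Primrec.const _)).to_comp.comp hfind
  have hspec : ∀ s, s ≤ (ch s).1 ∧ (ch s).2.1.length ≤ 2 ^ ((ch s).1 - s) ∧
      (∀ t ∈ (ch s).2.1, t.length = (ch s).1) ∧
        1 / 2 < v G (outIn F {t | t ∈ (ch s).2.1}) (ch s).2.2 σ := fun s =>
    chkB_iff.1 (Nat.find_spec (hex s))
  have hcf : Computable (fun s => ((ch s).2.1, (ch s).1 - s)) := by
    refine Computable.pair (Computable.fst.comp (Computable.snd.comp hchc)) ?_
    exact computable_sub (Computable.fst.comp hchc) Computable.id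
  obtain ⟨s, hs⟩ := compress hU hcf (m := fun s => (ch s).1) (fun s => (hspec s).1)
    (fun s => rfl) (fun s => (hspec s).2.1) r
  refine ⟨(ch s).1, {t | t ∈ (ch s).2.1}, ?_, (ch s).2.2, (hspec s).2.2.2⟩
  intro t ht
  exact ⟨(hspec s).2.2.1 t ht, hs t ht⟩

end Pool.Agent.MP_b653e9_lc
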