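import Mathlib
import Pool.Agent.Lib.MP_b653e9_lc.CaseB

/-!
Kraft's inequality and the initial condition of the construction.
-/

namespace Pool.Agent.MP_b653e9_lc

open Finset

/-- Kraft's inequality for finite prefix-free sets of binary strings. -/
theorem kraft (n : ℕ) (P : Finset (List Bool)) (hlen : ∀ p ∈ P, p.length ≤ n)
    (hpf : ∀ p ∈ P, ∀ q ∈ P, p <+: q → p = q) : ∑ p ∈ P, (1 / 2 : ℝ) ^ p.length ≤ 1 := by
  classical
  induction n generalizing P with
  | zero =>
    have hsub : P ⊆ {[]} := by
      intro p hp
      have := hlen p hp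
      simp only [Finset.mem_singleton]
      exact List.length_eq_zero_iff.1 (by omega)
    calc ∑ p ∈ P, (1 / 2 : ℝ) ^ p.length ≤ ∑ p ∈ ({[]} : Finset (List Bool)), (1 / 2 : ℝ) ^ p.length :=
          Finset.sum_le_sum_of_subset_of_nonneg hsub (fun _ _ _ => by positivity)
      _ = 1 := by simp
  | succ n ih =>
    by_cases hnil : [] ∈ P
    · have hsub : P ⊆ {[]} := by
        intro p hp
        have := hpf [] hnil p hp (List.nil_prefix)
        simp [← this]
      calc ∑ p ∈ P, (1 / 2 : ℝ) ^ p.length ≤ ∑ p ∈ ({[]} : Finset (List Bool)), (1 / 2 : ℝ) ^ p.length :=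
            Finset.sum_le_sum_of_subset_of_nonneg hsub (fun _ _ _ => by positivity)
        _ = 1 := by simp
    · -- split according to the first bit
      have half : ∀ b : Bool, ∑ p ∈ P.filter (fun p => p.head? = some b), (1 / 2 : ℝ) ^ p.length
          ≤ 1 / 2 := by
        intro b
        set Q := P.filter (fun p => p.head? = some b) with hQ
        have hform : ∀ p ∈ Q, p = b :: p.tail := by
          intro p hp
          have := (Finset.mem_filter.1 hp).2
          cases p with
          | nil => simp at this
          | cons a l => simp at this; simp [this]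
        have hinj : Set.InjOn List.tail (Q : Set (List Bool)) := by
          intro p hp q hq h
          rw [hform p hp, hform q hq]
          exact congrArg _ h
        have h1 : ∑ p ∈ Q, (1 / 2 : ℝ) ^ p.length =
            1 / 2 * ∑ w ∈ Q.image List.tail, (1 / 2 : ℝ) ^ w.length := by
          rw [Finset.sum_image hinj, Finset.mul_sum]
          refine Finset.sum_congr rfl (fun p hp => ?_)
          conv_lhs => rw [hform p hp]
          rw [List.length_cons, pow_succ]; ring
        have h2 : ∑ w ∈ Q.image List.tail, (1 / 2 : ℝ) ^ w.length ≤ 1 := by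
          apply ih
          · intro w hw
            obtain ⟨p, hp, rfl⟩ := Finset.mem_image.1 hw
            have := hlen p (Finset.mem_filter.1 hp).1
            simp only [List.length_tail]
            omega
          · intro w hw w' hw' hpre
            obtain ⟨p, hp, rfl⟩ := Finset.mem_image.1 hw
            obtain ⟨q, hq, rfl⟩ := Finset.mem_image.1 hw'
            have : p = q := by
              apply hpf p (Finset.mem_filter.1 hp).1 q (Finset.mem_filter.1 hq).1
              rw [hform p hp, hform q hq]
              simpa [List.cons_prefix_cons] using hpre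
            rw [this]
        rw [h1]
        linarith
      have hunion : P = P.filter (fun p => p.head? = some false) ∪
          P.filter (fun p => p.head? = some true) := by
        ext p
        simp only [Finset.mem_union, Finset.mem_filter]
        constructor
        · intro hp
          cases p with
          | nil => exact absurd hp hnil
          | cons a l => cases a <;> simp [hp]
        · rintro (h | h) <;> exact h.1
      calc ∑ p ∈ P, (1 / 2 : ℝ) ^ p.length
          = ∑ p ∈ P.filter (fun p => p.head? = some false) ∪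
            P.filter (fun p => p.head? = some true), (1 / 2 : ℝ) ^ p.length := by rw [← hunion]
        _ ≤ ∑ p ∈ P.filter (fun p => p.head? = some false), (1 / 2 : ℝ) ^ p.length +
            ∑ p ∈ P.filter (fun p => p.head? = some true), (1 / 2 : ℝ) ^ p.length := by
            rw [← Finset.sum_union_inter]
            have : 0 ≤ ∑ x ∈ P.filter (fun p => p.head? = some false) ∩
              P.filter (fun p => p.head? = some true), (1 / 2 : ℝ) ^ x.length :=
              Finset.sum_nonneg (fun _ _ => by positivity)
            linarith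
        _ ≤ 1 := by linarith [half false, half true]

/-- every string has a program -/
theorem exists_program {U : List Bool →. List Bool} (hU : UniversalMachine U) (σ : List Bool) :
    ∃ p, σ ∈ U p ∧ p.length = K U σ := by
  have hne : {n | ∃ p, σ ∈ U p ∧ p.length = n}.Nonempty := by
    let g : List Bool → Option (List Bool) := fun p => if p.length = 0 then some σ else none
    have hg : Computable g := by
      have h1 : Computable (fun p : List Bool => decide (p.length = 0)) :=
        computable_eq Computable.list_length (Computable.const 0)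
      refine (Computable.cond h1 (Computable.const (some σ)) (Computable.const none)).of_eq ?_
      intro p
      cases p with
      | nil => simp [g]
      | cons a l => simp [g]
    have hM : PrefixFreeMachine (fun p => (g p : Part (List Bool))) := by
      refine ⟨hg.ofOption, ?_⟩
      intro p q hp hq _
      have hlen : ∀ p : List Bool, ((g p : Part (List Bool))).Dom → p.length = 0 := by
        intro p hp
        by_contra h
        have : g p = none := by simp only [g, h, if_false]
        rw [this] at hp
        exact hp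
      rw [List.length_eq_zero_iff.1 (hlen p hp), List.length_eq_zero_iff.1 (hlen q hq)]
    obtain ⟨c, hc⟩ := hU.2 _ hM
    obtain ⟨q, hq, _⟩ := hc [] σ (by simp [g])
    exact ⟨q.length, q, hq, rfl⟩
  exact Nat.sInf_mem hne

/-- Kraft's inequality for complexity. -/
theorem kraft_K {U : List Bool →. List Bool} (hU : UniversalMachine U) (P : Finset (List Bool)) :
    ∑ σ ∈ P, (1 / 2 : ℝ) ^ (K U σ) ≤ 1 := by
  classical
  choose pr hpr1 hpr2 using exists_program hU
  have hinj : Function.Injective pr := by
    intro σ τ h
    have h1 := hpr1 σ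
    have h2 := hpr1 τ
    rw [h] at h1
    exact Part.mem_unique h1 h2
  have h1 : ∑ σ ∈ P, (1 / 2 : ℝ) ^ (K U σ) = ∑ p ∈ P.image pr, (1 / 2 : ℝ) ^ p.length := by
    rw [Finset.sum_image (fun _ _ _ _ h => hinj h)]
    exact Finset.sum_congr rfl (fun σ _ => by rw [hpr2])
  rw [h1]
  refine kraft ((P.image pr).sup List.length) _ (fun p hp => Finset.le_sup (f := List.length) hp) ?_
  intro p hp q hq hpq
  obtain ⟨σ, _, rfl⟩ := Finset.mem_image.1 hp
  obtain ⟨τ, _, rfl⟩ := Finset.mem_image.1 hq
  exact hU.1.2 _ _ (Part.dom_iff_mem.2 ⟨σ, hpr1 σ⟩) (Part.dom_iff_mem.2 ⟨τ, hpr1 τ⟩) hpq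

/-! ### Weights of cylinders -/

/-- number of boosted levels below `n` -/
def cnt (G : ℕ → Bool) (n : ℕ) : ℕ := n.rec 0 (fun i acc => acc + (G i).toNat)

theorem cnt_succ (G : ℕ → Bool) (n : ℕ) : cnt G (n + 1) = cnt G n + (G n).toNat := rfl

/-- weight of a level -/
noncomputable def wt (G : ℕ → Bool) (n : ℕ) : ℝ := 2 ^ cnt G n * (1 / 2) ^ n

theorem wt_nonneg (G : ℕ → Bool) (n : ℕ) : 0 ≤ wt G n := by unfold wt; positivity

theorem wt_succ_true {G : ℕ → Bool} {n : ℕ} (h : G n = true) : wt G (n + 1) = wt G n := by
  unfold wt
  rw [cnt_succ, h]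
  simp only [Bool.toNat_true]
  rw [pow_succ, pow_succ]; ring

theorem wt_succ_false {G : ℕ → Bool} {n : ℕ} (h : G n = false) : wt G (n + 1) = wt G n / 2 := by
  unfold wt
  rw [cnt_succ, h]
  simp only [Bool.toNat_false, add_zero]
  rw [pow_succ]; ring

/-- the cylinder above `τ` -/
def cyl (τ : List Bool) : Set (List Bool) := {σ | τ <+: σ}

theorem v_cyl_eq_zero (G : ℕ → Bool) (τ : List Bool) (d : ℕ) (σ : List Bool)
    (h1 : ¬ τ <+: σ) (h2 : ¬ σ <+: τ) : v G (cyl τ) d σ = 0 := by
  induction d generalizing σ with
  | zero => exact v_zero_of_not_mem h1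
  | succ d ih =>
    have key : ∀ b : Bool, v G (cyl τ) d (σ ++ [b]) = 0 := by
      intro b
      apply ih
      · intro h
        rcases List.prefix_or_prefix_of_prefix h (List.prefix_append σ [b]) with h' | h'
        · exact h1 h'
        · exact h2 h'
      · intro h
        exact h2 ((List.prefix_append σ [b]).trans h)
    rw [v_succ, key, key]
    unfold fz
    split_ifs <;> norm_num

theorem v_cyl_mul_wt_le (G : ℕ → Bool) (τ : List Bool) (d : ℕ) (σ : List Bool) (h : σ <+: τ) :
    v G (cyl τ) d σ * wt G σ.length ≤ wt G τ.length := by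
  induction d generalizing σ with
  | zero =>
    by_cases h1 : τ <+: σ
    · have : σ = τ := h.eq_of_length_le h1.length_le
      rw [v_zero_of_mem (show σ ∈ cyl τ from h1), this, one_mul]
    · rw [v_zero_of_not_mem (show σ ∉ cyl τ from h1), zero_mul]
      exact wt_nonneg _ _
  | succ d ih =>
    by_cases heq : σ = τ
    · subst heq
      have := v_le_one G (cyl σ) (d + 1) σ
      calc _ ≤ 1 * wt G σ.length := mul_le_mul_of_nonneg_right this (wt_nonneg _ _)
        _ = _ := one_mul _
    · obtain ⟨l, rfl⟩ := h
      cases l with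
      | nil => exact absurd (List.append_nil σ).symm heq
      | cons b l =>
        set τ := σ ++ b :: l with hτ
        have hb : (σ ++ [b]) <+: τ := ⟨l, by simp [hτ]⟩
        have hnb : v G (cyl τ) d (σ ++ [!b]) = 0 := by
          apply v_cyl_eq_zero
          · intro h
            have h3 := h.length_le
            simp only [hτ, List.length_append, List.length_cons, List.length_nil] at h3
            have hl : l = [] := List.length_eq_zero_iff.1 (by omega)
            subst hl
            have := h.eq_of_length (by simp [hτ])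
            simp only [hτ] at this
            have h5 := List.append_cancel_left this
            simp at h5
          · intro h
            have hpre : (σ ++ [!b]) <+: (σ ++ ([b] ++ l)) := by simpa [hτ] using h
            rw [List.prefix_append_right_inj] at hpre
            simp [List.cons_prefix_cons] at hpre
        have hx := ih (σ ++ [b]) hb
        have hlen : (σ ++ [b]).length = σ.length + 1 := by simp
        rw [hlen] at hx
        have hx0 := v_nonneg G (cyl τ) d (σ ++ [b])
        have hval : v G (cyl τ) (d + 1) σ ≤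
            if G σ.length then v G (cyl τ) d (σ ++ [b]) else v G (cyl τ) d (σ ++ [b]) / 2 := by
          rw [v_succ]
          cases b with
          | false =>
            simp only [Bool.not_false] at hnb
            rw [hnb]
            unfold fz
            split_ifs
            · rw [add_zero]; exact min_le_right _ _
            · rw [add_zero]
          | true =>
            simp only [Bool.not_true] at hnb
            rw [hnb]
            unfold fz
            split_ifs
            · rw [zero_add]; exact min_le_right _ _
            · rw [zero_add]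
        cases hG : G σ.length with
        | true =>
          rw [wt_succ_true hG] at hx
          rw [hG, if_pos rfl] at hval
          exact (mul_le_mul_of_nonneg_right hval (wt_nonneg _ _)).trans hx
        | false =>
          rw [wt_succ_false hG] at hx
          rw [hG] at hval
          simp only [Bool.false_eq_true, if_false] at hval
          calc _ ≤ v G (cyl τ) d (σ ++ [b]) / 2 * wt G σ.length :=
                mul_le_mul_of_nonneg_right hval (wt_nonneg _ _)
            _ = v G (cyl τ) d (σ ++ [b]) * (wt G σ.length / 2) := by ring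
            _ ≤ _ := hx

theorem v_congr (G : ℕ → Bool) {C C' : Set (List Bool)} (d : ℕ) (σ : List Bool)
    (h : ∀ τ, τ.length = σ.length + d → (τ ∈ C ↔ τ ∈ C')) : v G C d σ = v G C' d σ := by
  induction d generalizing σ with
  | zero =>
    have := h σ (by simp)
    by_cases h1 : σ ∈ C
    · rw [v_zero_of_mem h1, v_zero_of_mem (this.1 h1)]
    · rw [v_zero_of_not_mem h1, v_zero_of_not_mem (fun h2 => h1 (this.2 h2))]
  | succ d ih =>
    rw [v_succ, v_succ]
    rw [ih (σ ++ [false]) (fun τ hτ => h τ (by simp at hτ; omega)),
      ih (σ ++ [true]) (fun τ hτ => h τ (by simp at hτ; omega))]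

theorem v_empty (G : ℕ → Bool) (d : ℕ) (σ : List Bool) : v G ∅ d σ = 0 := by
  induction d generalizing σ with
  | zero => exact v_zero_of_not_mem (Set.notMem_empty σ)
  | succ d ih =>
    rw [v_succ, ih, ih]
    unfold fz
    split_ifs <;> norm_num

theorem v_biUnion_le (G : ℕ → Bool) (Q : Finset (List Bool)) (d : ℕ) (σ : List Bool) :
    v G (⋃ τ ∈ Q, cyl τ) d σ ≤ ∑ τ ∈ Q, v G (cyl τ) d σ := by
  classical
  induction Q using Finset.induction_on with
  | empty => simp [v_empty]
  | insert a Q ha ih =>
    rw [Finset.set_biUnion_insert, Finset.sum_insert ha]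
    exact (v_union_le _ _ _ _ _).trans (by linarith)

/-- the strings violating the complexity bound, closed under extension -/
def badSet (U : List Bool →. List Bool) (h : ℕ → ℕ) : Set (List Bool) :=
  {σ | ∃ τ, K U τ + h τ.length ≤ τ.length ∧ τ <+: σ}

theorem badSet_up (U : List Bool →. List Bool) (h : ℕ → ℕ) : Up (badSet U h) := by
  rintro σ τ ⟨ρ, h1, h2⟩ h3
  exact ⟨ρ, h1, h2.trans h3⟩

/-- the initial set of boosted levels -/
def G0 (h : ℕ → ℕ) (n : ℕ) : Bool := decide (h n < h (n + 1)) && decide (h 0 < h n)

theorem cnt_G0 {h : ℕ → ℕ} (hm : Monotone h) (n : ℕ) :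
    (h n = h 0 → cnt (G0 h) n = 0) ∧ (h 0 < h n → cnt (G0 h) n + 1 + h 0 ≤ h n) := by
  induction n with
  | zero => exact ⟨fun _ => rfl, fun hlt => absurd hlt (lt_irrefl _)⟩
  | succ n ih =>
    have hle : h n ≤ h (n + 1) := hm (Nat.le_succ n)
    have h0 : h 0 ≤ h n := hm (Nat.zero_le n)
    rw [cnt_succ]
    unfold G0 at *
    by_cases hA : h n < h (n + 1) <;> by_cases hB : h 0 < h n
    · have := ih.2 hB
      simp only [hA, hB, decide_true, Bool.and_self, Bool.toNat_true]
      constructor
      · intro; omega
      · intro; omega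
    · have := ih.1 (by omega)
      simp only [hA, hB, decide_true, decide_false, Bool.and_false, Bool.toNat_false]
      constructor
      · intro; omega
      · intro; omega
    · have := ih.2 hB
      simp only [hA, hB, decide_true, decide_false, Bool.false_and, Bool.toNat_false]
      constructor
      · intro; omega
      · intro; omega
    · have := ih.1 (by omega)
      simp only [hA, hB, decide_false, Bool.false_and, Bool.toNat_false]
      constructor
      · intro; omega
      · intro; omega

theorem S_badSet_lt_one {U : List Bool →. List Bool} (hU : UniversalMachine U) {h : ℕ → ℕ}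
    (hm : Monotone h) (hunb : ∀ k, ∃ n, k ≤ h n) : S (G0 h) (badSet U h) [] < 1 := by
  classical
  obtain ⟨n, hn⟩ := hunb (h 0 + 1)
  set τs : List Bool := List.replicate n false with hτs
  have hτlen : τs.length = n := by simp [hτs]
  have hpos : (0 : ℝ) < (1 / 2) ^ K U τs := by positivity
  suffices hsuff : ∀ d, v (G0 h) (badSet U h) d [] ≤ 1 - 1 / 2 * (1 / 2) ^ K U τs by
    have := S_le hsuff
    linarith
  intro d
  have hfin : {τ : List Bool | τ.length ≤ d ∧ K U τ + h τ.length ≤ τ.length}.Finite :=
    (List.finite_length_le Bool d).subset (fun τ hτ => hτ.1)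
  set Q := hfin.toFinset with hQ
  have hQmem : ∀ τ, τ ∈ Q ↔ τ.length ≤ d ∧ K U τ + h τ.length ≤ τ.length := by
    intro τ; rw [hQ, Set.Finite.mem_toFinset]; rfl
  have h1 : v (G0 h) (badSet U h) d [] = v (G0 h) (⋃ τ ∈ Q, cyl τ) d [] := by
    apply v_congr
    intro σ hσ
    simp only [List.length_nil, zero_add] at hσ
    simp only [Set.mem_iUnion, exists_prop]
    constructor
    · rintro ⟨τ, h1, h2⟩
      exact ⟨τ, (hQmem τ).2 ⟨by have := h2.length_le; omega, h1⟩, h2⟩
    · rintro ⟨τ, h1, h2⟩
      exact ⟨τ, ((hQmem τ).1 h1).2, h2⟩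
  have h2 : ∀ τ ∈ Q, v (G0 h) (cyl τ) d [] ≤
      if h 0 < h τ.length then 1 / 2 * (1 / 2) ^ K U τ else (1 / 2) ^ K U τ := by
    intro τ hτ
    have hK := ((hQmem τ).1 hτ).2
    have h3 := v_cyl_mul_wt_le (G0 h) τ d [] List.nil_prefix
    have hw0 : wt (G0 h) ([] : List Bool).length = 1 := by simp [wt, cnt]
    rw [hw0, mul_one] at h3
    refine h3.trans ?_
    obtain ⟨hc1, hc2⟩ := cnt_G0 hm τ.length
    have h0 : h 0 ≤ h τ.length := hm (Nat.zero_le _)
    have hcalc : ∀ a b : ℕ, cnt (G0 h) τ.length + a + b ≤ τ.length →
        wt (G0 h) τ.length ≤ (1 / 2) ^ a * (1 / 2) ^ b := by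
      intro a b hab
      unfold wt
      obtain ⟨c, hc⟩ : ∃ c, τ.length = cnt (G0 h) τ.length + a + b + c := ⟨_, (Nat.add_sub_cancel' hab).symm⟩
      have e1 : (2 : ℝ) ^ cnt (G0 h) τ.length * (1 / 2) ^ τ.length =
          (1 / 2) ^ a * (1 / 2) ^ b * (1 / 2) ^ c := by
        conv_lhs => rw [hc]
        rw [pow_add, pow_add, pow_add]
        have : (2 : ℝ) ^ cnt (G0 h) τ.length * (1 / 2) ^ cnt (G0 h) τ.length = 1 := by
          rw [← mul_pow]; norm_num
        calc _ = ((2 : ℝ) ^ cnt (G0 h) τ.length * (1 / 2) ^ cnt (G0 h) τ.length) *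
              ((1 / 2) ^ a * (1 / 2) ^ b * (1 / 2) ^ c) := by
                rw [← hc]; ring
          _ = _ := by rw [this, one_mul]
      rw [e1]
      have : (1 / 2 : ℝ) ^ c ≤ 1 := pow_le_one₀ (by norm_num) (by norm_num)
      exact mul_le_of_le_one_right (by positivity) this
    split_ifs with hlt
    · have := hc2 hlt
      have := hcalc 1 (K U τ) (by omega)
      simpa using this
    · have := hc1 (by omega)
      have := hcalc 0 (K U τ) (by omega)
      simpa using this
  rw [h1]
  refine (v_biUnion_le _ _ _ _).trans ((Finset.sum_le_sum h2).trans ?_)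
  -- compare with Kraft's inequality for `insert τs Q`
  have hkr := kraft_K hU (insert τs Q)
  by_cases hmem : τs ∈ Q
  · rw [Finset.insert_eq_of_mem hmem] at hkr
    rw [← Finset.add_sum_erase _ _ hmem] at hkr
    rw [← Finset.add_sum_erase _ _ hmem]
    have hlt : h 0 < h τs.length := by rw [hτlen]; omega
    rw [if_pos hlt]
    have h5 : ∑ τ ∈ Q.erase τs, (if h 0 < h τ.length then 1 / 2 * (1 / 2 : ℝ) ^ K U τ
        else (1 / 2) ^ K U τ) ≤ ∑ τ ∈ Q.erase τs, (1 / 2 : ℝ) ^ K U τ := by
      refine Finset.sum_le_sum (fun τ _ => ?_)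
      have : (0 : ℝ) < (1 / 2) ^ K U τ := by positivity
      split_ifs <;> linarith
    linarith
  · rw [Finset.sum_insert hmem] at hkr
    have h5 : ∑ τ ∈ Q, (if h 0 < h τ.length then 1 / 2 * (1 / 2 : ℝ) ^ K U τ
        else (1 / 2) ^ K U τ) ≤ ∑ τ ∈ Q, (1 / 2 : ℝ) ^ K U τ := by
      refine Finset.sum_le_sum (fun τ _ => ?_)
      have : (0 : ℝ) < (1 / 2) ^ K U τ := by positivity
      split_ifs <;> linarith
    linarith

theorem G0_unbounded {h : ℕ → ℕ} (hm : Monotone h) (hunb : ∀ k, ∃ n, k ≤ h n) (n : ℕ) :
    ∃ m, n ≤ m ∧ G0 h m = true := by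
  -- find a level `m ≥ n` with `h 0 < h m < h (m+1)`
  obtain ⟨a, ha⟩ := hunb (h 0 + 1)
  set s := max n a with hs
  have hsa : h 0 < h s := by
    have : h a ≤ h s := hm (le_max_right _ _)
    omega
  have hex : ∃ m, h s < h m := by
    obtain ⟨b, hb⟩ := hunb (h s + 1)
    exact ⟨b, by omega⟩
  classical
  set b := Nat.find hex with hb
  have hb1 : h s < h b := Nat.find_spec hex
  have hsb : s < b := by
    by_contra hcon
    have : h b ≤ h s := hm (not_lt.1 hcon)
    omega
  obtain ⟨m, hm'⟩ : ∃ m, b = m + 1 := ⟨b - 1, by omega⟩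
  have hb2 : ¬ h s < h m := Nat.find_min hex (by omega)
  have hms : h s ≤ h m := hm (by omega)
  refine ⟨m, by omega, ?_⟩
  unfold G0
  rw [Bool.and_eq_true, decide_eq_true_eq, decide_eq_true_eq]
  rw [hm'] at hb1
  exact ⟨by omega, by omega⟩

theorem computable_G0 {h : ℕ → ℕ} (hc : Computable h) : Computable (G0 h) := by
  unfold G0
  refine Primrec.and.to_comp.comp (computable_lt hc (hc.comp Computable.succ)) ?_
  exact computable_lt (Computable.const _) hc

end Pool.Agent.MP_b653e9_lc
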