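import Mathlib
import Pool.Agent.Lib.MP_b653e9_lc.Defs
import Pool.Agent.Lib.MP_b653e9_lc.Comp

/-!
The use principle: functions recursive in a real are given by computable monotone
approximations on finite strings.
-/

namespace Pool.Agent.MP_b653e9_lc

/-- monotone in the oracle string -/
def MonoN (F : List Bool → ℕ → Option ℕ) : Prop :=
  ∀ τ τ' n v, τ <+: τ' → F τ n = some v → F τ' n = some v

/-- `f` is approximated along `X` by a computable monotone functional -/
def Approx (X : ℕ → Bool) (f : ℕ →. ℕ) : Prop :=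
  ∃ F : List Bool → ℕ → Option ℕ, Computable₂ F ∧ MonoN F ∧
    ∀ n v, v ∈ f n ↔ ∃ k, F (pre X k) n = some v

theorem pre_length (X : ℕ → Bool) (n : ℕ) : (pre X n).length = n := by simp [pre]

theorem pre_prefix (X : ℕ → Bool) {m n : ℕ} (h : m ≤ n) : pre X m <+: pre X n := by
  rw [List.prefix_iff_eq_take]
  apply List.ext_getElem
  · simp [pre, h]
  · intro i h1 h2
    simp [pre]

theorem pre_getElem? (X : ℕ → Bool) (k n : ℕ) :
    (pre X k)[n]? = if n < k then some (X n) else none := by
  unfold pre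
  by_cases h : n < k
  · rw [if_pos h]
    simp [h]
  · rw [if_neg h]
    simp
    omega

theorem approx_total (X : ℕ → Bool) {g : ℕ → ℕ} (hg : Computable g) :
    Approx X (fun n => Part.some (g n)) := by
  refine ⟨fun _ n => some (g n), ?_, ?_, ?_⟩
  · exact Computable.option_some.comp (hg.comp Computable.snd)
  · intro τ τ' n v _ h; exact h
  · intro n v
    simp only [Part.mem_some_iff, exists_const, Option.some.injEq]
    exact eq_comm

theorem approx_oracle (X : ℕ → Bool) : Approx X (fun n => Part.some (X n).toNat) := by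
  refine ⟨fun τ n => τ[n]?.map Bool.toNat, ?_, ?_, ?_⟩
  · have h1 : Computable (fun b : Bool => b.toNat) :=
      (Primrec.cond Primrec.id (Primrec.const 1) (Primrec.const 0)).to_comp.of_eq
        (fun b => by cases b <;> rfl)
    refine Computable.option_map (f := fun p : List Bool × ℕ => p.1[p.2]?)
      (g := fun _ b => Bool.toNat b) ?_ ?_
    · exact Primrec.list_getElem?.to_comp.comp Computable.fst Computable.snd
    · exact h1.comp Computable.snd
  · intro τ τ' n v hp h
    obtain ⟨l, rfl⟩ := hp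
    rw [Option.map_eq_some_iff] at h ⊢
    obtain ⟨b, hb, rfl⟩ := h
    refine ⟨b, ?_, rfl⟩
    rw [List.getElem?_append_left, hb]
    by_contra hcon
    rw [List.getElem?_eq_none (by omega)] at hb
    exact absurd hb (by simp)
  · intro n v
    simp only [pre_getElem?, Part.mem_some_iff]
    constructor
    · rintro rfl
      exact ⟨n + 1, by simp⟩
    · rintro ⟨k, hk⟩
      split_ifs at hk with h
      · simp at hk
        exact hk.symm
      · simp at hk

theorem approx_pair {X : ℕ → Bool} {f h : ℕ →. ℕ} (hf : Approx X f) (hh : Approx X h) :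
    Approx X (fun n => (Nat.pair <$> f n <*> h n)) := by
  obtain ⟨F, hFc, hFm, hF⟩ := hf
  obtain ⟨H, hHc, hHm, hH⟩ := hh
  refine ⟨fun τ n => (F τ n).bind fun a => (H τ n).map fun b => Nat.pair a b, ?_, ?_, ?_⟩
  · refine Computable.option_bind (f := fun p : List Bool × ℕ => F p.1 p.2)
      (g := fun p a => (H p.1 p.2).map fun b => Nat.pair a b) hFc ?_
    refine Computable.option_map (f := fun q : (List Bool × ℕ) × ℕ => H q.1.1 q.1.2)
      (g := fun q b => Nat.pair q.2 b) ?_ ?_
    · exact hHc.comp (Computable.fst.comp Computable.fst) (Computable.snd.comp Computable.fst)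
    · exact Primrec₂.natPair.to_comp.comp (Computable.snd.comp Computable.fst) Computable.snd
  · intro τ τ' n v hp hv
    rw [Option.bind_eq_some_iff] at hv ⊢
    obtain ⟨a, ha, hb⟩ := hv
    rw [Option.map_eq_some_iff] at hb
    obtain ⟨b, hb, rfl⟩ := hb
    exact ⟨a, hFm _ _ _ _ hp ha, by rw [hHm _ _ _ _ hp hb]; rfl⟩
  · intro n v
    have h1 : v ∈ (Nat.pair <$> f n <*> h n) ↔ ∃ a ∈ f n, ∃ b ∈ h n, Nat.pair a b = v := by
      simp [Seq.seq, Functor.map]
    show v ∈ (Nat.pair <$> f n <*> h n) ↔ _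
    rw [h1]
    constructor
    · rintro ⟨a, ha, b, hb, rfl⟩
      obtain ⟨k1, hk1⟩ := (hF _ _).1 ha
      obtain ⟨k2, hk2⟩ := (hH _ _).1 hb
      refine ⟨max k1 k2, ?_⟩
      show (F (pre X (max k1 k2)) n).bind
        (fun a => (H (pre X (max k1 k2)) n).map fun b => Nat.pair a b) = some (Nat.pair a b)
      rw [hFm _ _ _ _ (pre_prefix X (le_max_left _ _)) hk1,
        hHm _ _ _ _ (pre_prefix X (le_max_right _ _)) hk2]
      rfl
    · rintro ⟨k, hk⟩
      rw [Option.bind_eq_some_iff] at hk
      obtain ⟨a, ha, hb⟩ := hk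
      rw [Option.map_eq_some_iff] at hb
      obtain ⟨b, hb, rfl⟩ := hb
      exact ⟨a, (hF _ _).2 ⟨k, ha⟩, b, (hH _ _).2 ⟨k, hb⟩, rfl⟩

theorem approx_comp {X : ℕ → Bool} {f h : ℕ →. ℕ} (hf : Approx X f) (hh : Approx X h) :
    Approx X (fun n => h n >>= f) := by
  obtain ⟨F, hFc, hFm, hF⟩ := hf
  obtain ⟨H, hHc, hHm, hH⟩ := hh
  refine ⟨fun τ n => (H τ n).bind fun a => F τ a, ?_, ?_, ?_⟩
  · refine Computable.option_bind (f := fun p : List Bool × ℕ => H p.1 p.2)
      (g := fun p a => F p.1 a) hHc ?_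
    exact hFc.comp (Computable.fst.comp Computable.fst) Computable.snd
  · intro τ τ' n v hp hv
    rw [Option.bind_eq_some_iff] at hv ⊢
    obtain ⟨a, ha, hb⟩ := hv
    exact ⟨a, hHm _ _ _ _ hp ha, hFm _ _ _ _ hp hb⟩
  · intro n v
    have h1 : v ∈ (h n >>= f) ↔ ∃ a ∈ h n, v ∈ f a := Part.mem_bind_iff
    show v ∈ (h n >>= f) ↔ _
    rw [h1]
    constructor
    · rintro ⟨a, ha, hb⟩
      obtain ⟨k1, hk1⟩ := (hH _ _).1 ha
      obtain ⟨k2, hk2⟩ := (hF _ _).1 hb
      refine ⟨max k1 k2, ?_⟩
      show (H (pre X (max k1 k2)) n).bind (fun a => F (pre X (max k1 k2)) a) = some v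
      rw [hHm _ _ _ _ (pre_prefix X (le_max_left _ _)) hk1]
      exact hFm _ _ _ _ (pre_prefix X (le_max_right _ _)) hk2
    · rintro ⟨k, hk⟩
      rw [Option.bind_eq_some_iff] at hk
      obtain ⟨a, ha, hb⟩ := hk
      exact ⟨a, (hH _ _).2 ⟨k, ha⟩, (hF _ _).2 ⟨k, hb⟩⟩

theorem approx_prec {X : ℕ → Bool} {f h : ℕ →. ℕ} (hf : Approx X f) (hh : Approx X h) :
    Approx X (fun p => let (a, n) := Nat.unpair p
        n.rec (f a) fun y IH => do
          let i ← IH
          h (Nat.pair a (Nat.pair y i))) := by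
  obtain ⟨F, hFc, hFm, hF⟩ := hf
  obtain ⟨H, hHc, hHm, hH⟩ := hh
  let R : List Bool → ℕ → ℕ → Option ℕ := fun τ a n =>
    n.rec (F τ a) fun y IH => IH.bind fun i => H τ (Nat.pair a (Nat.pair y i))
  have hR0 : ∀ τ a, R τ a 0 = F τ a := fun _ _ => rfl
  have hR1 : ∀ τ a n, R τ a (n + 1) = (R τ a n).bind fun i => H τ (Nat.pair a (Nat.pair n i)) :=
    fun _ _ _ => rfl
  have hRm : ∀ τ τ' a n v, τ <+: τ' → R τ a n = some v → R τ' a n = some v := by
    intro τ τ' a n v hp
    induction n generalizing v with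
    | zero => exact hFm _ _ _ _ hp
    | succ n ih =>
      intro hv
      rw [hR1, Option.bind_eq_some_iff] at hv ⊢
      obtain ⟨i, hi, hb⟩ := hv
      exact ⟨i, ih i hi, hHm _ _ _ _ hp hb⟩
  refine ⟨fun τ p => R τ p.unpair.1 p.unpair.2, ?_, ?_, ?_⟩
  · have ha : Computable (fun q : List Bool × ℕ => q.2.unpair.1) :=
      Computable.fst.comp (Primrec.unpair.to_comp.comp Computable.snd)
    have hn : Computable (fun q : List Bool × ℕ => q.2.unpair.2) :=
      Computable.snd.comp (Primrec.unpair.to_comp.comp Computable.snd)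
    refine Computable.nat_rec (f := fun q : List Bool × ℕ => q.2.unpair.2)
      (g := fun q => F q.1 q.2.unpair.1)
      (h := fun q r => r.2.bind fun i => H q.1 (Nat.pair q.2.unpair.1 (Nat.pair r.1 i)))
      hn (hFc.comp Computable.fst ha) ?_
    refine Computable.option_bind
      (f := fun q : (List Bool × ℕ) × ℕ × Option ℕ => q.2.2)
      (g := fun q i => H q.1.1 (Nat.pair q.1.2.unpair.1 (Nat.pair q.2.1 i)))
      (Computable.snd.comp Computable.snd) ?_
    refine hHc.comp (Computable.fst.comp (Computable.fst.comp Computable.fst)) ?_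
    refine Primrec₂.natPair.to_comp.comp (ha.comp (Computable.fst.comp Computable.fst)) ?_
    exact Primrec₂.natPair.to_comp.comp
      (Computable.fst.comp (Computable.snd.comp Computable.fst)) Computable.snd
  · intro τ τ' n v hp hv
    exact hRm _ _ _ _ _ hp hv
  · intro p v
    obtain ⟨a, n, hp⟩ : ∃ a n, p = Nat.pair a n := ⟨p.unpair.1, p.unpair.2, by simp⟩
    subst hp
    simp only [Nat.unpair_pair]
    induction n generalizing v with
    | zero => exact hF a v
    | succ n ih =>
      have h1 : v ∈ ((Nat.rec (f a) (fun y IH => IH >>= fun i => h (Nat.pair a (Nat.pair y i)))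
          (n + 1) : Part ℕ)) ↔ ∃ i ∈ (Nat.rec (f a) (fun y IH => IH >>= fun i =>
            h (Nat.pair a (Nat.pair y i))) n : Part ℕ), v ∈ h (Nat.pair a (Nat.pair n i)) := by
        show v ∈ (Nat.rec (f a) (fun y IH => IH >>= fun i =>
            h (Nat.pair a (Nat.pair y i))) n : Part ℕ) >>= (fun i => h (Nat.pair a (Nat.pair n i)))
            ↔ _
        simp
      refine h1.trans ?_
      constructor
      · rintro ⟨i, hi, hb⟩
        obtain ⟨k1, hk1⟩ := (ih i).1 hi
        obtain ⟨k2, hk2⟩ := (hH _ _).1 hb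
        refine ⟨max k1 k2, ?_⟩
        rw [hR1, hRm _ _ _ _ _ (pre_prefix X (le_max_left _ _)) hk1]
        exact hHm _ _ _ _ (pre_prefix X (le_max_right _ _)) hk2
      · rintro ⟨k, hk⟩
        rw [hR1, Option.bind_eq_some_iff] at hk
        obtain ⟨i, hi, hb⟩ := hk
        exact ⟨i, (ih i).2 ⟨k, hi⟩, (hH _ _).2 ⟨k, hb⟩⟩

theorem exists_uniform {P : ℕ → ℕ → Prop} (hP : ∀ m k k', k ≤ k' → P m k → P m k') (n : ℕ)
    (h : ∀ m < n, ∃ k, P m k) : ∃ k, ∀ m < n, P m k := by
  induction n with
  | zero => exact ⟨0, fun m hm => absurd hm (Nat.not_lt_zero _)⟩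
  | succ n ih =>
    obtain ⟨k1, hk1⟩ := ih (fun m hm => h m (by omega))
    obtain ⟨k2, hk2⟩ := h n (by omega)
    refine ⟨max k1 k2, fun m hm => ?_⟩
    rcases Nat.lt_succ_iff_lt_or_eq.1 hm with h1 | h1
    · exact hP _ _ _ (le_max_left _ _) (hk1 m h1)
    · subst h1; exact hP _ _ _ (le_max_right _ _) hk2

/-- bounded search for the first zero -/
def srchB (F : List Bool → ℕ → Option ℕ) (τ : List Bool) (a n : ℕ) : Bool :=
  decide (F τ (Nat.pair a n) = some 0) &&
    ballB n (fun m => (F τ (Nat.pair a m)).isSome && !decide (F τ (Nat.pair a m) = some 0))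

theorem srchB_iff (F : List Bool → ℕ → Option ℕ) (τ : List Bool) (a n : ℕ) :
    srchB F τ a n = true ↔ F τ (Nat.pair a n) = some 0 ∧
      ∀ m < n, ∃ v, v ≠ 0 ∧ F τ (Nat.pair a m) = some v := by
  unfold srchB
  rw [Bool.and_eq_true, decide_eq_true_eq, ballB_iff]
  refine and_congr_right (fun _ => forall_congr' fun m => imp_congr_right fun _ => ?_)
  cases h : F τ (Nat.pair a m) with
  | none => simp
  | some v => simp

/-- value of bounded search -/
def srch (F : List Bool → ℕ → Option ℕ) (τ : List Bool) (a : ℕ) (n : ℕ) : Option ℕ :=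
  n.rec none (fun y IH => if srchB F τ a y then some y else IH)

theorem srch_iff (F : List Bool → ℕ → Option ℕ) (τ : List Bool) (a n v : ℕ) :
    srch F τ a n = some v ↔ v < n ∧ srchB F τ a v = true := by
  induction n with
  | zero => simp [srch]
  | succ n ih =>
    have h1 : srch F τ a (n + 1) = if srchB F τ a n then some n else srch F τ a n := rfl
    rw [h1]
    split_ifs with h
    · constructor
      · intro h2
        have := Option.some_injective _ h2
        subst this
        exact ⟨Nat.lt_succ_self _, h⟩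
      · rintro ⟨h2, h3⟩
        congr 1
        rw [srchB_iff] at h h3
        by_contra hne
        have hlt : v < n := by omega
        obtain ⟨w, hw, hw'⟩ := h.2 v hlt
        rw [h3.1] at hw'
        exact hw (Option.some_injective _ hw').symm
    · rw [ih]
      constructor
      · rintro ⟨h2, h3⟩; exact ⟨by omega, h3⟩
      · rintro ⟨h2, h3⟩
        refine ⟨?_, h3⟩
        by_contra hcon
        have : v = n := by omega
        subst this
        exact h h3

theorem approx_rfind {X : ℕ → Bool} {f : ℕ →. ℕ} (hf : Approx X f) :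
    Approx X (fun a => Nat.rfind fun n => (fun m => m = 0) <$> f (Nat.pair a n)) := by
  obtain ⟨F, hFc, hFm, hF⟩ := hf
  refine ⟨fun τ a => srch F τ a τ.length, ?_, ?_, ?_⟩
  · refine Computable.nat_rec (f := fun q : List Bool × ℕ => q.1.length)
      (g := fun _ => none)
      (h := fun q r => if srchB F q.1 q.2 r.1 then some r.1 else r.2)
      (Computable.list_length.comp Computable.fst) (Computable.const none) ?_
    refine computable_ite (c := fun q : (List Bool × ℕ) × ℕ × Option ℕ =>
      srchB F q.1.1 q.1.2 q.2.1) ?_ ?_ ?_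
    · unfold srchB
      have hτ : Computable (fun q : (List Bool × ℕ) × ℕ × Option ℕ => q.1.1) :=
        Computable.fst.comp Computable.fst
      have ha : Computable (fun q : (List Bool × ℕ) × ℕ × Option ℕ => q.1.2) :=
        Computable.snd.comp Computable.fst
      have hy : Computable (fun q : (List Bool × ℕ) × ℕ × Option ℕ => q.2.1) :=
        Computable.fst.comp Computable.snd
      refine Primrec.and.to_comp.comp ?_ ?_
      · exact computable_eq (hFc.comp hτ (Primrec₂.natPair.to_comp.comp ha hy))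
          (Computable.const _)
      · refine computable_ballB (n := fun q : (List Bool × ℕ) × ℕ × Option ℕ => q.2.1)
          (p := fun q m => (F q.1.1 (Nat.pair q.1.2 m)).isSome &&
            !decide (F q.1.1 (Nat.pair q.1.2 m) = some 0)) hy ?_
        have hFF : Computable (fun q : ((List Bool × ℕ) × ℕ × Option ℕ) × ℕ =>
            F q.1.1.1 (Nat.pair q.1.1.2 q.2)) :=
          hFc.comp (hτ.comp Computable.fst) (Primrec₂.natPair.to_comp.comp
            (ha.comp Computable.fst) Computable.snd)
        refine Primrec.and.to_comp.comp ?_ ?_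
        · exact (Primrec.option_isSome.to_comp).comp hFF
        · exact Primrec.not.to_comp.comp (computable_eq hFF (Computable.const _))
    · exact Computable.option_some.comp (Computable.fst.comp Computable.snd)
    · exact Computable.snd.comp Computable.snd
  · intro τ τ' a v hp hv
    rw [srch_iff, srchB_iff] at hv ⊢
    refine ⟨lt_of_lt_of_le hv.1 hp.length_le, hFm _ _ _ _ hp hv.2.1, ?_⟩
    intro m hm
    obtain ⟨w, hw, hw'⟩ := hv.2.2 m hm
    exact ⟨w, hw, hFm _ _ _ _ hp hw'⟩
  · intro a v
    simp only [srch_iff, srchB_iff, pre_length]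
    refine (Nat.mem_rfind (p := fun n => (fun m => decide (m = 0)) <$>
      (f (Nat.pair a n) : Part ℕ))).trans ?_
    have h1 : ∀ m, true ∈ ((fun m => decide (m = 0)) <$> f (Nat.pair a m) : Part Bool) ↔
        0 ∈ f (Nat.pair a m) := by
      intro m
      simp [Functor.map]
    have h2 : ∀ m, false ∈ ((fun m => decide (m = 0)) <$> f (Nat.pair a m) : Part Bool) ↔
        ∃ w, w ≠ 0 ∧ w ∈ f (Nat.pair a m) := by
      intro m
      simp [Functor.map, and_comm]
    rw [h1]
    simp only [h2]
    constructor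
    · rintro ⟨h3, h4⟩
      obtain ⟨k1, hk1⟩ := (hF _ _).1 h3
      obtain ⟨k2, hk2⟩ := exists_uniform (P := fun m k => ∃ w, w ≠ 0 ∧
          F (pre X k) (Nat.pair a m) = some w)
        (fun m k k' hkk ⟨w, hw, hw'⟩ => ⟨w, hw, hFm _ _ _ _ (pre_prefix X hkk) hw'⟩) v
        (fun m hm => by
          obtain ⟨w, hw, hw'⟩ := h4 hm
          obtain ⟨k, hk⟩ := (hF _ _).1 hw'
          exact ⟨k, w, hw, hk⟩)
      refine ⟨max (v + 1) (max k1 k2), by omega, ?_, ?_⟩
      · exact hFm _ _ _ _ (pre_prefix X (by omega)) hk1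
      · intro m hm
        obtain ⟨w, hw, hw'⟩ := hk2 m hm
        exact ⟨w, hw, hFm _ _ _ _ (pre_prefix X (by omega)) hw'⟩
    · rintro ⟨k, hk1, hk2, hk3⟩
      refine ⟨(hF _ _).2 ⟨k, hk2⟩, fun {m} hm => ?_⟩
      obtain ⟨w, hw, hw'⟩ := hk3 m hm
      exact ⟨w, hw, (hF _ _).2 ⟨k, hw'⟩⟩

/-- The use principle. -/
theorem approx_of_recursiveIn {X : ℕ → Bool} {f : ℕ →. ℕ}
    (h : Nat.RecursiveIn {fun n => Part.some (X n).toNat} f) : Approx X f := by
  induction h with
  | zero => exact approx_total X (Computable.const 0)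
  | succ => exact approx_total X Computable.succ
  | left => exact approx_total X (Computable.fst.comp Primrec.unpair.to_comp)
  | right => exact approx_total X (Computable.snd.comp Primrec.unpair.to_comp)
  | oracle g hg =>
    have : g = fun n => Part.some (X n).toNat := Set.eq_of_mem_singleton hg
    rw [this]
    exact approx_oracle X
  | pair _ _ ih1 ih2 => exact approx_pair ih1 ih2
  | comp _ _ ih1 ih2 => exact approx_comp ih1 ih2
  | prec _ _ ih1 ih2 => exact approx_prec ih1 ih2
  | rfind _ ih => exact approx_rfind ih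

end Pool.Agent.MP_b653e9_lc
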