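import Mathlib
import Pool.Agent.Lib.MP_b653e9_lc.Init
import Pool.Agent.Lib.MP_b653e9_lc.Use

/-!
Martin-Löf randomness, and the fact that Martin-Löf random reals have incompressible initial
segments.
-/

namespace Pool.Agent.MP_b653e9_lc

open MeasureTheory Encodable
open scoped ENNReal

/-- The fair coin measure on Cantor space. -/
noncomputable def coin : Measure (ℕ → Bool) :=
  Measure.infinitePi (fun _ : ℕ => (PMF.uniformOfFintype Bool).toMeasure)

/-- The open subset of Cantor space generated by a set of strings. -/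
def openSet (W : Set (List Bool)) : Set (ℕ → Bool) := {X | ∃ n, pre X n ∈ W}

/-- A Martin-Löf test: a uniformly c.e. sequence `W k` of sets of strings, the open set generated
by `W k` having measure at most `2 ^ (-k)`. -/
def MLTest (W : ℕ → Set (List Bool)) : Prop :=
  REPred (fun p : ℕ × List Bool => p.2 ∈ W p.1) ∧ ∀ k, coin (openSet (W k)) ≤ (1 / 2) ^ k

/-- `X` is Martin-Löf random (1-random): it passes every Martin-Löf test. -/
def MLRandom (X : ℕ → Bool) : Prop := ∀ W, MLTest W → ∃ k, X ∉ openSet (W k)

theorem coin_cylinder (n : ℕ) (σ : List Bool) (hσ : σ.length = n) :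
    coin {X | pre X n = σ} = (1 / 2) ^ n := by
  have h1 : {X : ℕ → Bool | pre X n = σ} =
      Set.pi (Finset.range n : Finset ℕ) (fun i => {σ.getD i false}) := by
    ext X
    simp only [Set.mem_ofPred_eq, Set.mem_pi, Finset.coe_range, Set.mem_Iio, Set.mem_singleton_iff]
    constructor
    · intro h i hi
      rw [← h]
      simp [pre, List.getD, hi]
    · intro h
      apply List.ext_getElem
      · rw [pre_length, hσ]
      · intro i h1 h2
        have := h i (by rw [pre_length] at h1; exact h1)
        rw [List.getD_eq_getElem _ _ h2] at this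
        rw [← this]
        simp [pre]
  rw [h1]
  unfold coin
  rw [Measure.infinitePi_pi]
  · have : ∀ b : Bool, (PMF.uniformOfFintype Bool).toMeasure {b} = 1 / 2 := by
      intro b
      rw [PMF.toMeasure_apply_singleton _ _ (MeasurableSet.singleton b)]
      simp
    simp only [this, Finset.prod_const, Finset.card_range]
  · intro i _
    exact MeasurableSet.singleton _

theorem re_exists {α β : Type*} [Primcodable α] [Primcodable β] {R : α → β → Bool}
    (hR : Computable₂ R) : REPred (fun a => ∃ b, R a b = true) := by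
  let p : α → ℕ → Bool := fun a n => ((decode (α := β) n).map (R a)).getD false
  have hp : Computable₂ p := by
    refine Computable.option_getD (f := fun q : α × ℕ => (decode (α := β) q.2).map (R q.1))
      (g := fun _ => false) ?_ (Computable.const false)
    refine Computable.option_map (f := fun q : α × ℕ => decode (α := β) q.2)
      (g := fun q b => R q.1 b) (Computable.decode.comp Computable.snd) ?_
    exact hR.comp (Computable.fst.comp Computable.fst) Computable.snd
  have h1 : Partrec fun a => Nat.rfind (fun n => (Part.some (p a n))) :=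
    Partrec.rfind hp.partrec₂
  refine (Partrec.dom_re h1).of_eq ?_
  intro a
  refine (Nat.rfind_dom (p := fun n => Part.some (p a n))).trans ?_
  constructor
  · rintro ⟨n, hn, _⟩
    simp only [Part.mem_some_iff] at hn
    cases h : decode (α := β) n with
    | none => simp [p, h] at hn
    | some b => exact ⟨b, by simpa [p, h] using hn.symm⟩
  · rintro ⟨b, hb⟩
    refine ⟨encode b, ?_, ?_⟩
    · simp [p, hb]
    · intro m _; trivial

theorem K_add_le_iff {U : List Bool →. List Bool} (hU : UniversalMachine U) (c : ℕ)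
    (σ : List Bool) : K U σ + c ≤ σ.length ↔ ∃ q, σ ∈ U q ∧ q.length + c ≤ σ.length := by
  constructor
  · intro h
    obtain ⟨q, h1, h2⟩ := exists_program hU σ
    exact ⟨q, h1, by omega⟩
  · rintro ⟨q, h1, h2⟩
    have := K_le h1
    omega

/-- the sets of compressible strings -/
def kTest (U : List Bool →. List Bool) (c : ℕ) : Set (List Bool) := {σ | K U σ + c ≤ σ.length}

theorem kTest_re {U : List Bool →. List Bool} (hU : UniversalMachine U) :
    REPred (fun p : ℕ × List Bool => p.2 ∈ kTest U p.1) := by
  obtain ⟨cU, hcU⟩ := Nat.Partrec.Code.exists_code.1 hU.1.1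
  have hmem : ∀ q σ, σ ∈ U q ↔ ∃ k, cU.evaln k (encode q) = some (encode σ) := by
    intro q σ
    have h1 : σ ∈ U q ↔ encode σ ∈ cU.eval (encode q) := by
      rw [hcU]
      simp
    rw [h1, Nat.Partrec.Code.evaln_complete]
    rfl
  let R : ℕ × List Bool → ℕ × List Bool → Bool := fun p r =>
    decide (cU.evaln r.1 (encode r.2) = some (encode p.2)) &&
      decide (r.2.length + p.1 ≤ p.2.length)
  have hR : Computable₂ R := by
    refine Primrec.and.to_comp.comp ?_ ?_
    · have h1 : Computable (fun q : (ℕ × List Bool) × ℕ × List Bool =>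
          ((q.2.1, cU), encode q.2.2)) :=
        Computable.pair (Computable.pair (Computable.fst.comp Computable.snd)
          (Computable.const cU)) (Computable.encode.comp (Computable.snd.comp Computable.snd))
      have h2 : Computable (fun q : (ℕ × List Bool) × ℕ × List Bool =>
          cU.evaln q.2.1 (encode q.2.2)) :=
        (Nat.Partrec.Code.primrec_evaln.to_comp).comp h1
      have h3 : Computable (fun q : (ℕ × List Bool) × ℕ × List Bool =>
          (some (encode q.1.2) : Option ℕ)) :=
        Computable.option_some.comp (Computable.encode.comp (Computable.snd.comp Computable.fst))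
      exact computable_eq h2 h3
    · have h1 : Computable (fun q : (ℕ × List Bool) × ℕ × List Bool => q.2.2.length) :=
        Computable.list_length.comp (Computable.snd.comp Computable.snd)
      have h2 : Computable (fun q : (ℕ × List Bool) × ℕ × List Bool => q.1.2.length) :=
        Computable.list_length.comp (Computable.snd.comp Computable.fst)
      exact computable_le (computable_add h1 (Computable.fst.comp Computable.fst)) h2
  refine (re_exists hR).of_eq ?_
  rintro ⟨c, σ⟩
  show _ ↔ K U σ + c ≤ σ.length
  rw [K_add_le_iff hU]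
  constructor
  · rintro ⟨⟨k, q⟩, h⟩
    simp only [R, Bool.and_eq_true, decide_eq_true_eq] at h
    exact ⟨q, (hmem _ _).2 ⟨k, h.1⟩, h.2⟩
  · rintro ⟨q, h1, h2⟩
    obtain ⟨k, hk⟩ := (hmem _ _).1 h1
    exact ⟨⟨k, q⟩, by simp [R, hk, h2]⟩

theorem tsum_K_le {U : List Bool →. List Bool} (hU : UniversalMachine U) :
    ∑' σ : List Bool, (1 / 2 : ℝ≥0∞) ^ K U σ ≤ 1 := by
  rw [ENNReal.tsum_eq_iSup_sum]
  refine iSup_le fun P => ?_
  have h := kraft_K hU P
  have h2 : ∑ σ ∈ P, (1 / 2 : ℝ≥0∞) ^ K U σ = ENNReal.ofReal (∑ σ ∈ P, (1 / 2 : ℝ) ^ K U σ) := by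
    rw [ENNReal.ofReal_sum_of_nonneg (fun _ _ => by positivity)]
    refine Finset.sum_congr rfl (fun σ _ => ?_)
    rw [ENNReal.ofReal_pow (by norm_num)]
    congr 1
    rw [ENNReal.ofReal_div_of_pos (by norm_num)]
    simp
  rw [h2]
  exact ENNReal.ofReal_le_one.2 h

theorem coin_openSet_le (W : Set (List Bool)) :
    coin (openSet W) ≤ ∑' σ : W, (1 / 2 : ℝ≥0∞) ^ (σ : List Bool).length := by
  have h1 : openSet W ⊆ ⋃ σ : W, {X | pre X (σ : List Bool).length = σ} := by
    rintro X ⟨n, hn⟩
    rw [Set.mem_iUnion]
    refine ⟨⟨_, hn⟩, ?_⟩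
    simp only [Set.mem_ofPred_eq, pre_length]
  refine (measure_mono h1).trans ((measure_iUnion_le _).trans ?_)
  refine ENNReal.tsum_le_tsum (fun σ => ?_)
  rw [coin_cylinder _ _ rfl]

theorem kTest_MLTest {U : List Bool →. List Bool} (hU : UniversalMachine U) :
    MLTest (kTest U) := by
  refine ⟨kTest_re hU, fun c => ?_⟩
  refine (coin_openSet_le _).trans ?_
  calc ∑' σ : kTest U c, (1 / 2 : ℝ≥0∞) ^ (σ : List Bool).length
      ≤ ∑' σ : kTest U c, (1 / 2 : ℝ≥0∞) ^ c * (1 / 2) ^ K U (σ : List Bool) := by
        refine ENNReal.tsum_le_tsum (fun σ => ?_)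
        rw [← pow_add]
        have h1 : K U (σ : List Bool) + c ≤ (σ : List Bool).length := σ.2
        exact pow_le_pow_right_of_le_one' (by norm_num) (by omega)
    _ = (1 / 2 : ℝ≥0∞) ^ c * ∑' σ : kTest U c, (1 / 2) ^ K U (σ : List Bool) :=
        ENNReal.tsum_mul_left
    _ ≤ (1 / 2 : ℝ≥0∞) ^ c * 1 := by
        gcongr
        refine le_trans ?_ (tsum_K_le hU)
        exact ENNReal.tsum_comp_le_tsum_of_injective Subtype.val_injective
          (fun σ : List Bool => (1 / 2 : ℝ≥0∞) ^ K U σ)
    _ = _ := mul_one _

/-- A real all of whose deficiencies are attained is not Martin-Löf random. -/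
theorem not_MLRandom {U : List Bool →. List Bool} (hU : UniversalMachine U) {Y : ℕ → Bool}
    (h : ∀ r, ∃ n, K U (pre Y n) + r ≤ n) : ¬ MLRandom Y := by
  intro hY
  obtain ⟨k, hk⟩ := hY _ (kTest_MLTest hU)
  obtain ⟨n, hn⟩ := h k
  exact hk ⟨n, by simpa [kTest, pre_length] using hn⟩

end Pool.Agent.MP_b653e9_lc
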