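import Mathlib
import Pool.Agent.Lib.MP_b653e9_lc.Machine

/-!
Sums of prefix-free machines and the existence of a universal prefix-free machine.
-/

namespace Pool.Agent.MP_b653e9_lc

open Encodable

/-- On input `1^j 0 w` run the `j`-th machine on `w`. -/
def smach (f : ℕ → List Bool →. List Bool) (p : List Bool) : Part (List Bool) :=
  bif decide (p.findIdx (fun b => !b) < p.length) then
    f (p.findIdx (fun b => !b)) (p.drop (p.findIdx (fun b => !b) + 1)) else Part.none

theorem smach_partrec {f : ℕ → List Bool →. List Bool} (hf : Partrec₂ f) : Partrec (smach f) := by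
  have hj : Computable (fun p : List Bool => p.findIdx (fun b => !b)) := by
    refine Primrec.to_comp ?_
    exact Primrec.list_findIdx Primrec.id (Primrec.not.comp Primrec.snd).to₂
  have hw : Computable (fun p : List Bool => p.drop (p.findIdx (fun b => !b) + 1)) :=
    Primrec.list_drop.to_comp.comp (Computable.succ.comp hj) Computable.id
  exact Partrec.cond (computable_lt hj Computable.list_length) (hf.comp hj hw) Partrec.none

theorem decomp {p : List Bool} (h : p.findIdx (fun b => !b) < p.length) :
    ∃ j w, p = List.replicate j true ++ false :: w := by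
  obtain ⟨j, hj⟩ : ∃ j, j = p.findIdx (fun b => !b) := ⟨_, rfl⟩
  rw [← hj] at h
  refine ⟨j, p.drop (j + 1), ?_⟩
  have hfalse : p[j] = false := by
    subst hj
    have := List.findIdx_getElem (w := h)
    simpa using this
  have htake : p.take j = List.replicate j true := by
    rw [List.eq_replicate_iff]
    refine ⟨by simp; omega, ?_⟩
    intro b hb
    obtain ⟨i, hi, rfl⟩ := List.getElem_of_mem hb
    have hi' : i < j := by simp at hi; omega
    have := List.not_of_lt_findIdx (p := fun b => !b) (xs := p) (i := i) (by rw [← hj]; exact hi')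
    simp only [List.getElem_take]
    simpa using this
  calc p = p.take j ++ p.drop j := (List.take_append_drop j p).symm
    _ = List.replicate j true ++ (p[j] :: p.drop (j + 1)) := by
        rw [htake, List.drop_eq_getElem_cons h]
    _ = _ := by rw [hfalse]

theorem smach_eq (f : ℕ → List Bool →. List Bool) (j : ℕ) (w : List Bool) :
    smach f (List.replicate j true ++ false :: w) = f j w := by
  have hj : (List.replicate j true ++ false :: w).findIdx (fun b => !b) = j := findIdx_aux j w
  have hdrop : (List.replicate j true ++ false :: w).drop (j + 1) = w := by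
    rw [List.drop_append]
    simp
  unfold smach
  rw [hj, hdrop]
  have : decide (j < (List.replicate j true ++ false :: w).length) = true := by
    rw [decide_eq_true_eq]; simp
  rw [this, cond_true]

theorem smach_dom {f : ℕ → List Bool →. List Bool} {p : List Bool} (h : (smach f p).Dom) :
    ∃ j w, p = List.replicate j true ++ false :: w ∧ (f j w).Dom := by
  by_cases hc : p.findIdx (fun b => !b) < p.length
  · obtain ⟨j, w, rfl⟩ := decomp hc
    exact ⟨j, w, rfl, by rwa [smach_eq] at h⟩
  · exfalso
    unfold smach at h
    rw [decide_eq_false hc, cond_false] at h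
    exact h

theorem smach_machine {f : ℕ → List Bool →. List Bool} (hf : Partrec₂ f)
    (hpf : ∀ j w w', (f j w).Dom → (f j w').Dom → w <+: w' → w = w') :
    PrefixFreeMachine (smach f) := by
  refine ⟨smach_partrec hf, ?_⟩
  intro p q hp hq hpq
  obtain ⟨j, w, rfl, hw⟩ := smach_dom hp
  obtain ⟨j', w', rfl, hw'⟩ := smach_dom hq
  obtain ⟨rfl, h2⟩ := replicate_prefix_aux hpq
  rw [hpf _ _ _ hw hw' h2]

/-- Descriptions in a computable family of machines bound the complexity. -/
theorem K_le_smach {U : List Bool →. List Bool} (hU : UniversalMachine U)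
    {f : ℕ → List Bool →. List Bool} (hf : Partrec₂ f)
    (hpf : ∀ j w w', (f j w).Dom → (f j w').Dom → w <+: w' → w = w') :
    ∃ c, ∀ j w σ, σ ∈ f j w → K U σ ≤ j + w.length + c := by
  obtain ⟨c, hc⟩ := hU.2 _ (smach_machine hf hpf)
  refine ⟨c + 1, fun j w σ h => ?_⟩
  obtain ⟨q, hq1, hq2⟩ := hc (List.replicate j true ++ false :: w) σ (by rwa [smach_eq])
  have h1 := K_le hq1
  have h2 : (List.replicate j true ++ false :: w).length = j + 1 + w.length := by
    simp; ring
  rw [h2] at hq2
  omega

/-! ### A universal machine -/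

/-- `p` halts within `s` steps under the code with index `i` -/
def hlt (i s : ℕ) (p : List Bool) : Bool :=
  ((Denumerable.ofNat Nat.Partrec.Code i).evaln s (encode p)).isSome

theorem computable_evaln : Computable (fun q : (ℕ × ℕ) × List Bool =>
    (Denumerable.ofNat Nat.Partrec.Code q.1.1).evaln q.1.2 (encode q.2)) := by
  have h1 : Computable (fun q : (ℕ × ℕ) × List Bool =>
      ((q.1.2, Denumerable.ofNat Nat.Partrec.Code q.1.1), encode q.2)) :=
    Computable.pair (Computable.pair (Computable.snd.comp Computable.fst)
      ((Computable.ofNat Nat.Partrec.Code).comp (Computable.fst.comp Computable.fst)))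
      (Computable.encode.comp Computable.snd)
  exact (Nat.Partrec.Code.primrec_evaln.to_comp).comp h1

theorem computable_hlt : Computable (fun q : (ℕ × ℕ) × List Bool => hlt q.1.1 q.1.2 q.2) :=
  Primrec.option_isSome.to_comp.comp computable_evaln

theorem hlt_mono {i s s' : ℕ} (h : s ≤ s') {p : List Bool} (hp : hlt i s p = true) :
    hlt i s' p = true := by
  unfold hlt at *
  obtain ⟨v, hv⟩ := Option.isSome_iff_exists.1 hp
  have : (Denumerable.ofNat Nat.Partrec.Code i).evaln s' (encode p) = some v :=
    Nat.Partrec.Code.evaln_mono h hv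
  rw [this]; rfl

theorem hlt_bound {i s : ℕ} {p : List Bool} (hp : hlt i s p = true) : encode p < s := by
  unfold hlt at hp
  obtain ⟨v, hv⟩ := Option.isSome_iff_exists.1 hp
  exact Nat.Partrec.Code.evaln_bound hv

attribute [local irreducible] hlt

/-- `q` does not halt within `s` steps, or `q = p`, or `q` is not comparable with `p` -/
def cmpB (i s : ℕ) (p q : List Bool) : Bool :=
  !(hlt i s q) || (decide (q = p) ||
    (!decide (q.take p.length = p) && !decide (p.take q.length = q)))

theorem computable_cmpB : Computable (fun z : ((ℕ × ℕ) × List Bool) × List Bool =>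
    cmpB z.1.1.1 z.1.1.2 z.1.2 z.2) := by
  have hq : Computable (fun y : ((ℕ × ℕ) × List Bool) × List Bool => y.2) := Computable.snd
  have hp : Computable (fun y : ((ℕ × ℕ) × List Bool) × List Bool => y.1.2) :=
    Computable.snd.comp Computable.fst
  have his : Computable (fun y : ((ℕ × ℕ) × List Bool) × List Bool => y.1.1) :=
    Computable.fst.comp Computable.fst
  have h1 : Computable (fun y : ((ℕ × ℕ) × List Bool) × List Bool =>
      hlt y.1.1.1 y.1.1.2 y.2) := computable_hlt.comp (Computable.pair his hq)
  have h2 : Computable (fun y : ((ℕ × ℕ) × List Bool) × List Bool =>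
      decide (y.2.take y.1.2.length = y.1.2)) :=
    computable_eq (Primrec.list_take.to_comp.comp (Computable.list_length.comp hp) hq) hp
  have h3 : Computable (fun y : ((ℕ × ℕ) × List Bool) × List Bool =>
      decide (y.1.2.take y.2.length = y.2)) :=
    computable_eq (Primrec.list_take.to_comp.comp (Computable.list_length.comp hq) hp) hq
  have h4 : Computable (fun y : ((ℕ × ℕ) × List Bool) × List Bool =>
      decide (y.2 = y.1.2)) := computable_eq hq hp
  exact Primrec.or.to_comp.comp (Primrec.not.to_comp.comp h1) (Primrec.or.to_comp.comp h4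
    (Primrec.and.to_comp.comp (Primrec.not.to_comp.comp h2) (Primrec.not.to_comp.comp h3)))

attribute [local irreducible] cmpB

/-- no string comparable with `p` and different from `p` halts within `s` steps -/
def okB (i s : ℕ) (p : List Bool) : Bool :=
  ballB s (fun x => ((decode (α := List Bool) x).map (cmpB i s p)).getD true)

theorem computable_okB : Computable (fun q : (ℕ × ℕ) × List Bool => okB q.1.1 q.1.2 q.2) := by
  have h1 : Computable₂ (fun (r : (ℕ × ℕ) × List Bool) (x : ℕ) =>
      ((decode (α := List Bool) x).map (cmpB r.1.1 r.1.2 r.2)).getD true) := by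
    have h2 : Computable (fun z : ((ℕ × ℕ) × List Bool) × ℕ =>
        (decode (α := List Bool) z.2).map (cmpB z.1.1.1 z.1.1.2 z.1.2)) := by
      refine Computable.option_map (f := fun z : ((ℕ × ℕ) × List Bool) × ℕ =>
        decode (α := List Bool) z.2) (g := fun z q => cmpB z.1.1.1 z.1.1.2 z.1.2 q)
        (Computable.decode.comp Computable.snd) ?_
      have hz : Computable (fun y : (((ℕ × ℕ) × List Bool) × ℕ) × List Bool =>
          (y.1.1, y.2)) := Computable.pair (Computable.fst.comp Computable.fst) Computable.snd
      have := computable_cmpB.comp hz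
      exact this
    exact Computable.option_getD h2 (Computable.const true)
  exact computable_ballB (Computable.snd.comp Computable.fst) h1

attribute [local irreducible] okB

theorem okB_iff (i s : ℕ) (p : List Bool) : okB i s p = true ↔
    ∀ q, hlt i s q = true → (p <+: q ∨ q <+: p) → q = p := by
  unfold okB cmpB
  rw [ballB_iff]
  have e1 : ∀ q : List Bool, q.take p.length = p ↔ p <+: q := fun q => by
    rw [List.prefix_iff_eq_take]; exact eq_comm
  have e2 : ∀ q : List Bool, p.take q.length = q ↔ q <+: p := fun q => by
    rw [List.prefix_iff_eq_take]; exact eq_comm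
  constructor
  · intro h q hq hc
    have := h (encode q) (hlt_bound hq)
    rw [encodek] at this
    simp only [Option.map_some, Option.getD_some, hq, Bool.not_true, Bool.false_or,
      Bool.or_eq_true, decide_eq_true_eq, Bool.and_eq_true, Bool.not_eq_true',
      decide_eq_false_iff_not, e1, e2] at this
    rcases this with h1 | ⟨h1, h2⟩
    · exact h1
    · rcases hc with h3 | h3
      · exact absurd h3 h1
      · exact absurd h3 h2
  · intro h x _
    cases hd : decode (α := List Bool) x with
    | none => rfl
    | some q =>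
      have := h q
      simp only [Option.map_some, Option.getD_some, Bool.or_eq_true, decide_eq_true_eq,
        Bool.and_eq_true, Bool.not_eq_true', decide_eq_false_iff_not, e1, e2]
      by_cases h1 : hlt i s q = true
      · by_cases h2 : p <+: q ∨ q <+: p
        · exact Or.inr (Or.inl (this h1 h2))
        · rw [not_or] at h2
          exact Or.inr (Or.inr h2)
      · left
        simpa using h1

/-- output of `p` under the code with index `i` if it is accepted after `s` steps -/
def outB (i s : ℕ) (p : List Bool) : Option (List Bool) :=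
  if okB i s p then ((Denumerable.ofNat Nat.Partrec.Code i).evaln s (encode p)).bind
      (decode (α := List Bool)) else none

theorem computable_outB :
    Computable (fun q : (ℕ × ℕ) × List Bool => outB q.1.1 q.1.2 q.2) := by
  have h1 : Computable (fun q : (ℕ × ℕ) × List Bool =>
      ((Denumerable.ofNat Nat.Partrec.Code q.1.1).evaln q.1.2 (encode q.2)).bind
        (decode (α := List Bool))) := by
    refine Computable.option_bind (g := fun _ n => decode (α := List Bool) n)
      computable_evaln ?_
    exact Computable.decode.comp Computable.snd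
  exact computable_ite computable_okB h1 (Computable.const none)

attribute [local irreducible] outB

/-- the `i`-th prefix-free machine -/
def pfm (i : ℕ) : List Bool →. List Bool := fun p =>
  (Nat.rfind (fun s => Part.some (hlt i s p))).bind fun s => (outB i s p : Part (List Bool))

theorem pfm_partrec : Partrec₂ pfm := by
  have h0 : Computable₂ (fun (q : ℕ × List Bool) (s : ℕ) => hlt q.1 s q.2) := by
    have hz : Computable (fun q : (ℕ × List Bool) × ℕ => ((q.1.1, q.2), q.1.2)) :=
      Computable.pair (Computable.pair
        (Computable.fst.comp Computable.fst) Computable.snd) (Computable.snd.comp Computable.fst)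
    have := computable_hlt.comp hz
    exact this
  have h1 : Partrec (fun q : ℕ × List Bool => Nat.rfind (fun s => Part.some (hlt q.1 s q.2))) :=
    Partrec.rfind h0.partrec₂
  have h2 : Computable₂ (fun (q : ℕ × List Bool) (s : ℕ) => outB q.1 s q.2) := by
    have hz : Computable (fun q : (ℕ × List Bool) × ℕ => ((q.1.1, q.2), q.1.2)) :=
      Computable.pair (Computable.pair
        (Computable.fst.comp Computable.fst) Computable.snd) (Computable.snd.comp Computable.fst)
    have := computable_outB.comp hz
    exact this
  have h3 : Partrec₂ (fun (q : ℕ × List Bool) (s : ℕ) =>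
      ((outB q.1 s q.2 : Option (List Bool)) : Part (List Bool))) := Computable.ofOption h2
  exact Partrec.bind h1 h3

theorem mem_pfm {i : ℕ} {p σ : List Bool} : σ ∈ pfm i p ↔ ∃ s, hlt i s p = true ∧
    (∀ s' < s, hlt i s' p = false) ∧ okB i s p = true ∧
      ((Denumerable.ofNat Nat.Partrec.Code i).evaln s (encode p)).bind
      (decode (α := List Bool)) = some σ := by
  unfold pfm outB
  rw [Part.mem_bind_iff]
  constructor
  · rintro ⟨s, hs, hσ⟩
    have hs' := (Nat.mem_rfind (p := fun s => Part.some (hlt i s p))).1 hs
    obtain ⟨h1, h2⟩ := hs'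
    refine ⟨s, ?_, ?_, ?_⟩
    · exact (Part.mem_some_iff.1 h1).symm
    · intro s' hs'
      exact (Part.mem_some_iff.1 (h2 hs')).symm
    · split_ifs at hσ with h
      · exact ⟨h, by simpa using hσ⟩
      · simp at hσ
  · rintro ⟨s, h1, h2, h3, h4⟩
    refine ⟨s, ?_, ?_⟩
    · refine (Nat.mem_rfind (p := fun s => Part.some (hlt i s p))).2 ⟨?_, ?_⟩
      · rw [Part.mem_some_iff]; exact h1.symm
      · intro m hm
        rw [Part.mem_some_iff]; exact (h2 m hm).symm
    · rw [if_pos h3, h4]; simp

theorem pfm_prefixFree (i : ℕ) (w w' : List Bool) (h : (pfm i w).Dom) (h' : (pfm i w').Dom)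
    (hp : w <+: w') : w = w' := by
  obtain ⟨σ, hσ⟩ := Part.dom_iff_mem.1 h
  obtain ⟨σ', hσ'⟩ := Part.dom_iff_mem.1 h'
  obtain ⟨s, h1, _, h3, _⟩ := mem_pfm.1 hσ
  obtain ⟨s', h1', _, h3', _⟩ := mem_pfm.1 hσ'
  rcases le_total s s' with hss | hss
  · exact (okB_iff _ _ _).1 h3' w (hlt_mono hss h1) (Or.inr hp)
  · exact ((okB_iff _ _ _).1 h3 w' (hlt_mono hss h1') (Or.inl hp)).symm

/-- A universal prefix-free machine exists. -/
theorem exists_universalMachine : ∃ U, UniversalMachine U := by
  refine ⟨smach pfm, smach_machine pfm_partrec pfm_prefixFree, ?_⟩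
  intro M hM
  obtain ⟨c, hc⟩ := Nat.Partrec.Code.exists_code.1 hM.1
  obtain ⟨i, hi⟩ : ∃ i, Denumerable.ofNat Nat.Partrec.Code i = c := ⟨encode c, by simp⟩
  have hev : ∀ p v, v ∈ c.eval (encode p) ↔ ∃ σ ∈ M p, encode σ = v := by
    intro p v
    rw [hc]
    simp
  have hdom : ∀ p s, hlt i s p = true → (M p).Dom := by
    intro p s h
    unfold hlt at h
    obtain ⟨v, hv⟩ := Option.isSome_iff_exists.1 h
    rw [hi] at hv
    obtain ⟨σ, hσ, _⟩ := (hev _ _).1 (Nat.Partrec.Code.evaln_sound hv)
    exact Part.dom_iff_mem.2 ⟨σ, hσ⟩
  refine ⟨i + 1, fun p σ hσ => ⟨List.replicate i true ++ false :: p, ?_, ?_⟩⟩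
  · rw [smach_eq, mem_pfm]
    have h1 : encode σ ∈ c.eval (encode p) := (hev _ _).2 ⟨σ, hσ, rfl⟩
    obtain ⟨k, hk⟩ := Nat.Partrec.Code.evaln_complete.1 h1
    have hex : ∃ s, hlt i s p = true := ⟨k, by unfold hlt; rw [hi, hk]; rfl⟩
    obtain ⟨s, hs1, hs2⟩ : ∃ s, hlt i s p = true ∧ ∀ s' < s, hlt i s' p = false := by
      classical
      refine ⟨Nat.find hex, Nat.find_spec hex, fun s' hs' => ?_⟩
      have := Nat.find_min hex hs'
      simpa using this
    refine ⟨s, hs1, hs2, ?_, ?_⟩
    · rw [okB_iff]
      intro q hq hc
      rcases hc with h | h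
      · exact (hM.2 _ _ (hdom _ _ hs1) (hdom _ _ hq) h).symm
      · exact hM.2 _ _ (hdom _ _ hq) (hdom _ _ hs1) h
    · unfold hlt at hs1
      obtain ⟨v, hv⟩ := Option.isSome_iff_exists.1 hs1
      rw [hi] at hv ⊢
      rw [hv]
      obtain ⟨σ', hσ', rfl⟩ := (hev _ _).1 (Nat.Partrec.Code.evaln_sound hv)
      rw [Part.mem_unique hσ hσ']
      simp
  · simp; omega

end Pool.Agent.MP_b653e9_lc
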