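import Mathlib
import Pool.Agent.Lib.MP_b653e9_lc.ML
import Pool.Agent.Lib.MP_b653e9_lc.Univ

/-!
Stage approximations of Martin-Löf tests, counting, and the class of reals passing all
truncated tests.
-/

namespace Pool.Agent.MP_b653e9_lc

open MeasureTheory Encodable
open scoped ENNReal

/-- the code with index `i` halts on `n` within `s` steps -/
def hltN (i s n : ℕ) : Bool := ((Denumerable.ofNat Nat.Partrec.Code i).evaln s n).isSome

theorem computable_hltN : Computable (fun q : (ℕ × ℕ) × ℕ => hltN q.1.1 q.1.2 q.2) := by
  have h1 : Computable (fun q : (ℕ × ℕ) × ℕ =>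
      ((q.1.2, Denumerable.ofNat Nat.Partrec.Code q.1.1), q.2)) :=
    Computable.pair (Computable.pair (Computable.snd.comp Computable.fst)
      ((Computable.ofNat Nat.Partrec.Code).comp (Computable.fst.comp Computable.fst)))
      Computable.snd
  have h2 : Computable (fun q : (ℕ × ℕ) × ℕ =>
      (Denumerable.ofNat Nat.Partrec.Code q.1.1).evaln q.1.2 q.2) :=
    (Nat.Partrec.Code.primrec_evaln.to_comp).comp h1
  exact Primrec.option_isSome.to_comp.comp h2

theorem hltN_mono {i s s' n : ℕ} (h : s ≤ s') (hp : hltN i s n = true) : hltN i s' n = true := by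
  unfold hltN at *
  obtain ⟨v, hv⟩ := Option.isSome_iff_exists.1 hp
  have : (Denumerable.ofNat Nat.Partrec.Code i).evaln s' n = some v :=
    Nat.Partrec.Code.evaln_mono h hv
  rw [this]; rfl

attribute [local irreducible] hltN

/-- Stage approximation: some initial segment of `τ` is enumerated in the `k`-th component of the
`i`-th potential test within `|τ|` steps. -/
def stA (i k : ℕ) (τ : List Bool) : Bool :=
  bexB (τ.length + 1) (fun l => hltN i τ.length (encode (k, τ.take l)))

theorem computable_stA : Computable (fun q : (ℕ × ℕ) × List Bool => stA q.1.1 q.1.2 q.2) := by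
  have h1 : Computable₂ (fun (q : (ℕ × ℕ) × List Bool) (l : ℕ) =>
      hltN q.1.1 q.2.length (encode (q.1.2, q.2.take l))) := by
    have hτ : Computable (fun z : ((ℕ × ℕ) × List Bool) × ℕ => z.1.2) :=
      Computable.snd.comp Computable.fst
    have hi : Computable (fun z : ((ℕ × ℕ) × List Bool) × ℕ => z.1.1.1) :=
      Computable.fst.comp (Computable.fst.comp Computable.fst)
    have hk : Computable (fun z : ((ℕ × ℕ) × List Bool) × ℕ => z.1.1.2) :=
      Computable.snd.comp (Computable.fst.comp Computable.fst)
    have ht : Computable (fun z : ((ℕ × ℕ) × List Bool) × ℕ => z.1.2.take z.2) :=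
      Primrec.list_take.to_comp.comp Computable.snd hτ
    have hz : Computable (fun z : ((ℕ × ℕ) × List Bool) × ℕ =>
        ((z.1.1.1, z.1.2.length), encode (z.1.1.2, z.1.2.take z.2))) :=
      Computable.pair (Computable.pair hi (Computable.list_length.comp hτ))
        (Computable.encode.comp (Computable.pair hk ht))
    have := computable_hltN.comp hz
    exact this
  exact computable_bexB (Computable.succ.comp (Computable.list_length.comp Computable.snd)) h1

theorem stA_up {i k : ℕ} {τ τ' : List Bool} (h : τ <+: τ') (hτ : stA i k τ = true) :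
    stA i k τ' = true := by
  unfold stA at *
  rw [bexB_iff] at *
  obtain ⟨l, hl, h1⟩ := hτ
  have hle := h.length_le
  refine ⟨l, by omega, ?_⟩
  have h2 : τ'.take l = τ.take l := by
    obtain ⟨u, rfl⟩ := h
    rw [List.take_append_of_le_length (by omega)]
  rw [h2]
  exact hltN_mono hle h1

/-- The stage approximations generate the same open sets. -/
theorem exists_index {W : ℕ → Set (List Bool)}
    (hW : REPred (fun p : ℕ × List Bool => p.2 ∈ W p.1)) :
    ∃ i, ∀ k, openSet (W k) = {X | ∃ n, stA i k (pre X n) = true} := by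
  obtain ⟨c, hc⟩ := Nat.Partrec.Code.exists_code.1 hW
  refine ⟨encode c, fun k => ?_⟩
  have hmem : ∀ σ, σ ∈ W k ↔ ∃ s, hltN (encode c) s (encode (k, σ)) = true := by
    intro σ
    have h1 : σ ∈ W k ↔ (c.eval (encode (k, σ))).Dom := by
      rw [hc]
      simp only [encodek, Part.coe_some, Part.bind_some, Part.map_Dom]
      exact ⟨fun h => ⟨h, trivial⟩, fun h => h.1⟩
    rw [h1, Part.dom_iff_mem]
    constructor
    · rintro ⟨v, hv⟩
      obtain ⟨s, hs⟩ := Nat.Partrec.Code.evaln_complete.1 hv
      refine ⟨s, ?_⟩
      unfold hltN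
      rw [Denumerable.ofNat_encode, hs]; rfl
    · rintro ⟨s, hs⟩
      unfold hltN at hs
      rw [Denumerable.ofNat_encode] at hs
      obtain ⟨v, hv⟩ := Option.isSome_iff_exists.1 hs
      exact ⟨v, Nat.Partrec.Code.evaln_sound hv⟩
  ext X
  constructor
  · rintro ⟨n, hn⟩
    obtain ⟨s, hs⟩ := (hmem _).1 hn
    refine ⟨max n s, ?_⟩
    unfold stA
    rw [bexB_iff, pre_length]
    refine ⟨n, by omega, ?_⟩
    have : (pre X (max n s)).take n = pre X n := by
      have := pre_prefix X (le_max_left n s)
      rw [List.prefix_iff_eq_take, pre_length] at this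
      exact this.symm
    rw [this]
    exact hltN_mono (le_max_right _ _) hs
  · rintro ⟨n, hn⟩
    unfold stA at hn
    rw [bexB_iff, pre_length] at hn
    obtain ⟨l, hl, h1⟩ := hn
    have : (pre X n).take l = pre X l := by
      have := pre_prefix X (show l ≤ n by omega)
      rw [List.prefix_iff_eq_take, pre_length] at this
      exact this.symm
    rw [this] at h1
    exact ⟨l, (hmem _).2 ⟨_, h1⟩⟩

/-! ### Counting -/

theorem wd_num (w : List Bool) : wd w.length (num w) = w := by
  induction w using List.reverseRecOn with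
  | nil => rfl
  | append_singleton w b ih =>
    rw [num_append, List.length_append, List.length_singleton, wd_succ, ih]

/-- the number of strings of length `n` in `A` -/
def nb (A : List Bool → Bool) (n : ℕ) : ℕ := cnt (fun j => A (wd n j)) (2 ^ n)

theorem cnt_eq_card (G : ℕ → Bool) (n : ℕ) :
    cnt G n = ((Finset.range n).filter (fun j => G j = true)).card := by
  induction n with
  | zero => rfl
  | succ n ih =>
    rw [cnt_succ, ih, Finset.range_add_one, Finset.filter_insert]
    cases h : G n with
    | true =>
      rw [if_pos rfl, Finset.card_insert_of_notMem (by simp)]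
      rfl
    | false =>
      rw [if_neg (by simp)]
      rfl

theorem coin_level (A : List Bool → Bool) (n : ℕ) :
    coin {X | A (pre X n) = true} = nb A n * (1 / 2) ^ n := by
  classical
  have h1 : {X | A (pre X n) = true} =
      ⋃ j ∈ (Finset.range (2 ^ n)).filter (fun j => A (wd n j) = true), {X | pre X n = wd n j} := by
    ext X
    simp only [Set.mem_ofPred_eq, Set.mem_iUnion, Finset.mem_filter, Finset.mem_range, exists_prop]
    constructor
    · intro h
      have e1 : wd n (num (pre X n)) = pre X n := by
        have := wd_num (pre X n)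
        rwa [pre_length] at this
      have e2 := num_lt (pre X n)
      rw [pre_length] at e2
      exact ⟨num (pre X n), ⟨e2, by rwa [e1]⟩, e1.symm⟩
    · rintro ⟨j, ⟨_, h2⟩, h3⟩
      rwa [h3]
  rw [h1, measure_biUnion_finset]
  · rw [Finset.sum_congr rfl (fun j _ => coin_cylinder n (wd n j) (wd_length n j)),
      Finset.sum_const, nsmul_eq_mul]
    unfold nb
    rw [cnt_eq_card]
  · intro i hi j hj hij
    rw [Function.onFun, Set.disjoint_left]
    intro X hX hX'
    apply hij
    have hi' : i < 2 ^ n := by simpa using (Finset.mem_filter.1 hi).1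
    have hj' : j < 2 ^ n := by simpa using (Finset.mem_filter.1 hj).1
    have e : wd n i = wd n j := by
      have a1 : pre X n = wd n i := hX
      have a2 : pre X n = wd n j := hX'
      rw [← a1, a2]
    have := congrArg num e
    rwa [num_wd _ _ hi', num_wd _ _ hj'] at this
  · intro j _
    have : MeasurableSet {X : ℕ → Bool | pre X n = wd n j} := by
      have h2 : {X : ℕ → Bool | pre X n = wd n j} =
          ⋂ i ∈ Finset.range n, {X | X i = (wd n j).getD i false} := by
        ext X
        simp only [Set.mem_ofPred_eq, Set.mem_iInter, Finset.mem_range]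
        constructor
        · intro h i hi
          rw [← h]
          simp [pre, List.getD, hi]
        · intro h
          apply List.ext_getElem
          · rw [pre_length, wd_length]
          · intro i h1 h2
            have := h i (by rw [pre_length] at h1; exact h1)
            rw [List.getD_eq_getElem _ _ h2] at this
            rw [← this]
            simp [pre]
      rw [h2]
      refine Finset.measurableSet_biInter _ (fun i _ => ?_)
      exact (measurable_pi_apply i) (MeasurableSet.singleton _)
    exact this

theorem nb_le {A : List Bool → Bool} {n k : ℕ}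
    (h : coin {X | A (pre X n) = true} ≤ (1 / 2) ^ k) : nb A n * 2 ^ k ≤ 2 ^ n := by
  rw [coin_level] at h
  have h1 : (nb A n : ℝ≥0∞) * (1 / 2) ^ n * (2 ^ n * 2 ^ k) ≤ (1 / 2) ^ k * (2 ^ n * 2 ^ k) :=
    mul_le_mul_left h _
  have h2 : ∀ m : ℕ, (1 / 2 : ℝ≥0∞) ^ m * 2 ^ m = 1 := by
    intro m
    rw [← mul_pow, one_div, ENNReal.inv_mul_cancel (by norm_num) (by norm_num), one_pow]
  have h3 : (nb A n : ℝ≥0∞) * (1 / 2) ^ n * (2 ^ n * 2 ^ k) = nb A n * 2 ^ k := by
    calc _ = (nb A n : ℝ≥0∞) * ((1 / 2) ^ n * 2 ^ n) * 2 ^ k := by ring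
      _ = _ := by rw [h2, mul_one]
  have h4 : (1 / 2 : ℝ≥0∞) ^ k * (2 ^ n * 2 ^ k) = 2 ^ n := by
    calc _ = (2 : ℝ≥0∞) ^ n * ((1 / 2) ^ k * 2 ^ k) := by ring
      _ = _ := by rw [h2, mul_one]
  rw [h3, h4] at h1
  exact_mod_cast h1

end Pool.Agent.MP_b653e9_lc
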