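import Mathlib
import Pool.Agent.Lib.MP_b653e9_lc.Stage

/-!
A limit computable Martin-Löf random real.
-/

namespace Pool.Agent.MP_b653e9_lc

open MeasureTheory Encodable
open scoped ENNReal

section
variable {α : Type*} [Primcodable α]

theorem computable_toNat : Computable (fun b : Bool => b.toNat) :=
  (Primrec.cond Primrec.id (Primrec.const 1) (Primrec.const 0)).to_comp.of_eq
    (fun b => by cases b <;> rfl)

theorem computable_cnt₂ {p : α → ℕ → Bool} (hp : Computable₂ p) {n : α → ℕ}
    (hn : Computable n) : Computable (fun a => cnt (p a) (n a)) := by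
  have hs : Computable₂ (fun (a : α) (q : ℕ × ℕ) => q.2 + (p a q.1).toNat) := by
    have h1 : Computable (fun z : α × (ℕ × ℕ) => p z.1 z.2.1) :=
      hp.comp Computable.fst (Computable.fst.comp Computable.snd)
    exact computable_add (Computable.snd.comp Computable.snd) (computable_toNat.comp h1)
  exact (Computable.nat_rec hn (Computable.const 0) hs).of_eq (fun a => rfl)

end

theorem computable_nbst : Computable (fun q : (ℕ × ℕ) × ℕ => nb (stA q.1.1 q.1.2) q.2) := by
  have h1 : Computable₂ (fun (q : (ℕ × ℕ) × ℕ) (j : ℕ) => stA q.1.1 q.1.2 (wd q.2 j)) := by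
    have hw : Computable (fun z : ((ℕ × ℕ) × ℕ) × ℕ => wd z.1.2 z.2) :=
      primrec_wd.to_comp.comp (Computable.snd.comp Computable.fst) Computable.snd
    have hz : Computable (fun z : ((ℕ × ℕ) × ℕ) × ℕ => (z.1.1, wd z.1.2 z.2)) :=
      Computable.pair (Computable.fst.comp Computable.fst) hw
    have := computable_stA.comp hz
    exact this
  exact computable_cnt₂ h1 (computable_pow 2 Computable.snd)

/-- the `i`-th potential test is still small at level `n` -/
def accB (i n : ℕ) : Bool := decide (nb (stA i (i + 2)) n * 2 ^ (i + 2) ≤ 2 ^ n)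

theorem computable_accB : Computable (fun q : ℕ × ℕ => accB q.1 q.2) := by
  have hz : Computable (fun q : ℕ × ℕ => ((q.1, q.1 + 2), q.2)) :=
    Computable.pair (Computable.pair Computable.fst
      (computable_add Computable.fst (Computable.const 2))) Computable.snd
  have h1 := computable_nbst.comp hz
  have h2 : Computable (fun q : ℕ × ℕ => 2 ^ (q.1 + 2)) :=
    computable_pow 2 (computable_add Computable.fst (Computable.const 2))
  exact computable_le (computable_mul h1 h2) (computable_pow 2 Computable.snd)

attribute [local irreducible] stA accB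

/-- `τ` is covered by a truncated test -/
def badB (τ : List Bool) : Bool :=
  bexB τ.length (fun i => bexB (τ.length + 1) (fun n => stA i (i + 2) (τ.take n) && accB i n))

theorem badB_iff (τ : List Bool) : badB τ = true ↔ ∃ i < τ.length, ∃ n ≤ τ.length,
    stA i (i + 2) (τ.take n) = true ∧ accB i n = true := by
  unfold badB
  simp only [bexB_iff, Bool.and_eq_true, Nat.lt_succ_iff]

theorem computable_badB : Computable badB := by
  have h1 : Computable₂ (fun (q : List Bool × ℕ) (n : ℕ) =>
      stA q.2 (q.2 + 2) (q.1.take n) && accB q.2 n) := by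
    have hi : Computable (fun z : (List Bool × ℕ) × ℕ => z.1.2) :=
      Computable.snd.comp Computable.fst
    have ht : Computable (fun z : (List Bool × ℕ) × ℕ => z.1.1.take z.2) :=
      Primrec.list_take.to_comp.comp Computable.snd (Computable.fst.comp Computable.fst)
    have hz : Computable (fun z : (List Bool × ℕ) × ℕ => ((z.1.2, z.1.2 + 2), z.1.1.take z.2)) :=
      Computable.pair (Computable.pair hi (computable_add hi (Computable.const 2))) ht
    have h2 := computable_stA.comp hz
    have hz' : Computable (fun z : (List Bool × ℕ) × ℕ => (z.1.2, z.2)) :=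
      Computable.pair hi Computable.snd
    have h3 := computable_accB.comp hz'
    exact Primrec.and.to_comp.comp h2 h3
  have h2 : Computable₂ (fun (τ : List Bool) (i : ℕ) =>
      bexB (τ.length + 1) (fun n => stA i (i + 2) (τ.take n) && accB i n)) := by
    have hn : Computable (fun q : List Bool × ℕ => q.1.length + 1) :=
      Computable.succ.comp (Computable.list_length.comp Computable.fst)
    exact computable_bexB hn h1
  exact computable_bexB Computable.list_length h2

theorem badB_up {τ τ' : List Bool} (h : τ <+: τ') (hτ : badB τ = true) : badB τ' = true := by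
  rw [badB_iff] at *
  obtain ⟨i, hi, n, hn, h1, h2⟩ := hτ
  have hle := h.length_le
  refine ⟨i, by omega, n, by omega, ?_, h2⟩
  have h2 : τ'.take n = τ.take n := by
    obtain ⟨u, rfl⟩ := h
    rw [List.take_append_of_le_length (by omega)]
  rwa [h2]

theorem coin_test_le (i m : ℕ) : coin {X | ∃ n ≤ m, stA i (i + 2) (pre X n) = true ∧
    accB i n = true} ≤ (1 / 2) ^ (i + 2) := by
  classical
  by_cases hex : ∃ n ≤ m, accB i n = true
  · obtain ⟨n0, hn0, hacc0⟩ := hex
    -- the largest accepted level
    obtain ⟨n, hn, hacc, hmax⟩ : ∃ n ≤ m, accB i n = true ∧ ∀ n' ≤ m, accB i n' = true → n' ≤ n := by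
      refine ⟨Nat.findGreatest (fun n => accB i n = true) m, Nat.findGreatest_le _,
        Nat.findGreatest_spec (P := fun n => accB i n = true) hn0 hacc0,
        fun n' hn' h' => Nat.le_findGreatest (P := fun n => accB i n = true) hn' h'⟩
    have hsub : {X | ∃ n ≤ m, stA i (i + 2) (pre X n) = true ∧ accB i n = true} ⊆
        {X | stA i (i + 2) (pre X n) = true} := by
      rintro X ⟨n', hn', h1, h2⟩
      exact stA_up (pre_prefix X (hmax n' hn' h2)) h1
    refine (measure_mono hsub).trans ?_
    rw [coin_level]
    have hle : nb (stA i (i + 2)) n * 2 ^ (i + 2) ≤ 2 ^ n := by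
      unfold accB at hacc
      simpa using hacc
    have h2 : ∀ m : ℕ, (1 / 2 : ℝ≥0∞) ^ m * 2 ^ m = 1 := by
      intro m
      rw [← mul_pow, one_div, ENNReal.inv_mul_cancel (by norm_num) (by norm_num), one_pow]
    have h3 : ((nb (stA i (i + 2)) n : ℕ) : ℝ≥0∞) * 2 ^ (i + 2) ≤ 2 ^ n := by exact_mod_cast hle
    calc ((nb (stA i (i + 2)) n : ℕ) : ℝ≥0∞) * (1 / 2) ^ n
        = (nb (stA i (i + 2)) n * 2 ^ (i + 2)) * ((1 / 2) ^ n * (1 / 2) ^ (i + 2)) := by
          have := h2 (i + 2)
          calc _ = (nb (stA i (i + 2)) n : ℝ≥0∞) * (1 / 2) ^ n *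
                ((1 / 2) ^ (i + 2) * 2 ^ (i + 2)) := by rw [this, mul_one]
            _ = _ := by ring
      _ ≤ 2 ^ n * ((1 / 2) ^ n * (1 / 2) ^ (i + 2)) := mul_le_mul_left h3 _
      _ = (1 / 2) ^ n * 2 ^ n * (1 / 2) ^ (i + 2) := by ring
      _ = (1 / 2) ^ (i + 2) := by rw [h2, one_mul]
  · have : {X : ℕ → Bool | ∃ n ≤ m, stA i (i + 2) (pre X n) = true ∧ accB i n = true} = ∅ := by
      ext X
      simp only [Set.mem_ofPred_eq, Set.mem_empty_iff_false, iff_false]
      rintro ⟨n, hn, _, h2⟩
      exact hex ⟨n, hn, h2⟩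
    rw [this]
    simp

theorem exists_good (m : ℕ) : ∃ τ : List Bool, τ.length = m ∧ badB τ = false := by
  classical
  by_contra hcon
  have hall : ∀ X : ℕ → Bool, badB (pre X m) = true := by
    intro X
    by_contra h
    exact hcon ⟨pre X m, pre_length X m, by simpa using h⟩
  have h1 : (Set.univ : Set (ℕ → Bool)) ⊆ ⋃ i ∈ Finset.range m,
      {X | ∃ n ≤ m, stA i (i + 2) (pre X n) = true ∧ accB i n = true} := by
    intro X _
    obtain ⟨i, hi, n, hn, h1, h2⟩ := (badB_iff _).1 (hall X)
    rw [pre_length] at hi hn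
    simp only [Set.mem_iUnion, Finset.mem_range]
    refine ⟨i, hi, n, hn, ?_, h2⟩
    have : (pre X m).take n = pre X n := by
      have := pre_prefix X hn
      rw [List.prefix_iff_eq_take, pre_length] at this
      exact this.symm
    rwa [this] at h1
  have h2 : coin Set.univ ≤ ∑ i ∈ Finset.range m, (1 / 2 : ℝ≥0∞) ^ (i + 2) :=
    (measure_mono h1).trans ((measure_biUnion_finset_le _ _).trans
      (Finset.sum_le_sum (fun i _ => coin_test_le i m)))
  have h3 : coin Set.univ = 1 := by
    unfold coin
    exact measure_univ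
  have h4 : ∑ i ∈ Finset.range m, (1 / 2 : ℝ≥0∞) ^ (i + 2) =
      ENNReal.ofReal (∑ i ∈ Finset.range m, (1 / 2 : ℝ) ^ (i + 2)) := by
    rw [ENNReal.ofReal_sum_of_nonneg (fun _ _ => by positivity)]
    refine Finset.sum_congr rfl (fun i _ => ?_)
    rw [ENNReal.ofReal_pow (by norm_num)]
    congr 1
    rw [ENNReal.ofReal_div_of_pos (by norm_num)]
    simp
  have h5 : ∀ m : ℕ, ∑ i ∈ Finset.range m, (1 / 2 : ℝ) ^ (i + 2) = 1 / 2 - 1 / 2 * (1 / 2) ^ m := by
    intro m
    induction m with
    | zero => simp
    | succ m ih => rw [Finset.sum_range_succ, ih]; ring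
  rw [h3, h4, h5] at h2
  have h6 : (1 / 2 - 1 / 2 * (1 / 2) ^ m : ℝ) < 1 := by
    have : (0 : ℝ) < (1 / 2) ^ m := by positivity
    linarith
  exact absurd h2 (not_le.2 (ENNReal.ofReal_lt_one.2 h6))

/-! ### Dead strings and the leftmost path -/

/-- all extensions of `σ` by `t` bits are bad -/
def DeadAt (σ : List Bool) (t : ℕ) : Prop := ∀ ρ : List Bool, ρ.length = t → badB (σ ++ ρ) = true

/-- decision of `DeadAt` -/
def deadB (σ : List Bool) (t : ℕ) : Bool := ballB (2 ^ t) (fun j => badB (σ ++ wd t j))

theorem deadB_iff (σ : List Bool) (t : ℕ) : deadB σ t = true ↔ DeadAt σ t := by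
  unfold deadB DeadAt
  rw [ballB_iff]
  constructor
  · intro h ρ hρ
    have h1 := num_lt ρ
    rw [hρ] at h1
    have := h (num ρ) h1
    have h2 := wd_num ρ
    rw [hρ] at h2
    rwa [h2] at this
  · intro h j _
    exact h _ (wd_length t j)

theorem computable_deadB : Computable₂ deadB := by
  have h1 : Computable₂ (fun (q : List Bool × ℕ) (j : ℕ) => badB (q.1 ++ wd q.2 j)) := by
    have hw : Computable (fun z : (List Bool × ℕ) × ℕ => wd z.1.2 z.2) :=
      primrec_wd.to_comp.comp (Computable.snd.comp Computable.fst) Computable.snd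
    exact computable_badB.comp (computable_append (Computable.fst.comp Computable.fst) hw)
  exact computable_ballB (computable_pow 2 Computable.snd) h1

theorem deadAt_mono {σ : List Bool} {t t' : ℕ} (h : t ≤ t') (hd : DeadAt σ t) : DeadAt σ t' := by
  intro ρ hρ
  have h1 := hd (ρ.take t) (by rw [List.length_take]; omega)
  refine badB_up ?_ h1
  rw [List.prefix_append_right_inj]
  exact List.take_prefix _ _

theorem deadAt_children {σ : List Bool} {t : ℕ} (h : ∀ b, DeadAt (σ ++ [b]) t) :
    DeadAt σ (t + 1) := by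
  intro ρ hρ
  cases ρ with
  | nil => simp at hρ
  | cons b ρ =>
    have := h b ρ (by simpa using hρ)
    simpa using this

open Classical in
/-- the next bit of the leftmost path -/
noncomputable def nxt (σ : List Bool) : Bool := decide (∃ t, DeadAt (σ ++ [false]) t)

/-- initial segments of the leftmost path -/
noncomputable def path : ℕ → List Bool
  | 0 => []
  | n + 1 => path n ++ [nxt (path n)]

/-- the leftmost path -/
noncomputable def Yr (n : ℕ) : Bool := nxt (path n)

theorem pre_Yr (n : ℕ) : pre Yr n = path n := by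
  induction n with
  | zero => rfl
  | succ n ih =>
    unfold pre at *
    rw [List.range_succ, List.map_append, ih]
    rfl

theorem path_alive (n : ℕ) : ¬ ∃ t, DeadAt (path n) t := by
  induction n with
  | zero =>
    rintro ⟨t, ht⟩
    obtain ⟨τ, h1, h2⟩ := exists_good t
    have := ht τ h1
    rw [show path 0 ++ τ = τ from rfl, h2] at this
    exact absurd this (by simp)
  | succ n ih =>
    rintro ⟨t, ht⟩
    have hdef : path (n + 1) = path n ++ [nxt (path n)] := rfl
    rw [hdef] at ht
    by_cases hf : ∃ t, DeadAt (path n ++ [false]) t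
    · have h1 : nxt (path n) = true := by unfold nxt; simpa using hf
      rw [h1] at ht
      obtain ⟨t', ht'⟩ := hf
      refine ih ⟨max t t' + 1, deadAt_children (fun b => ?_)⟩
      cases b
      · exact deadAt_mono (le_max_right _ _) ht'
      · exact deadAt_mono (le_max_left _ _) ht
    · have h1 : nxt (path n) = false := by unfold nxt; simpa using hf
      rw [h1] at ht
      exact hf ⟨t, ht⟩

theorem Yr_not_bad (n : ℕ) : badB (pre Yr n) = false := by
  rw [pre_Yr]
  by_contra h
  refine path_alive n ⟨0, fun ρ hρ => ?_⟩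
  rw [List.length_eq_zero_iff.1 hρ, List.append_nil]
  simpa using h

theorem Yr_MLRandom : MLRandom Yr := by
  intro W hW
  obtain ⟨i, hi⟩ := exists_index hW.1
  refine ⟨i + 2, fun hmem => ?_⟩
  rw [hi] at hmem
  obtain ⟨n, hn⟩ := hmem
  have hacc : accB i n = true := by
    unfold accB
    rw [decide_eq_true_eq]
    apply nb_le
    have h1 := hW.2 (i + 2)
    rw [hi] at h1
    have hsub : {X | stA i (i + 2) (pre X n) = true} ⊆
        {X | ∃ n, stA i (i + 2) (pre X n) = true} := fun X hX => ⟨n, hX⟩
    exact (measure_mono hsub).trans h1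
  have h1 := Yr_not_bad (max n (i + 1))
  have h2 : badB (pre Yr (max n (i + 1))) = true := by
    rw [badB_iff, pre_length]
    refine ⟨i, by omega, n, by omega, ?_, hacc⟩
    have : (pre Yr (max n (i + 1))).take n = pre Yr n := by
      have := pre_prefix Yr (le_max_left n (i + 1))
      rw [List.prefix_iff_eq_take, pre_length] at this
      exact this.symm
    rwa [this]
  rw [h1] at h2
  exact absurd h2 (by simp)

end Pool.Agent.MP_b653e9_lc
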