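import Mathlib
import Pool.Agent.Lib.MP_b653e9_lc.Use

/-!
Total functions recursive in a real.
-/

namespace Pool.Agent.MP_b653e9_lc

open Encodable

/-- `f` is recursive in the real `X` -/
def RecX (X : ℕ → Bool) (f : ℕ → ℕ) : Prop :=
  Nat.RecursiveIn {fun n => Part.some (X n).toNat} (fun n => Part.some (f n))

theorem recX_of_computable (X : ℕ → Bool) {f : ℕ → ℕ} (hf : Computable f) : RecX X f :=
  Nat.Partrec.recursiveIn (Partrec.nat_iff.1 hf)

theorem recX_oracle (X : ℕ → Bool) : RecX X (fun n => (X n).toNat) :=
  Nat.RecursiveIn.oracle _ rfl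

theorem RecX.comp {X : ℕ → Bool} {f g : ℕ → ℕ} (hf : RecX X f) (hg : RecX X g) :
    RecX X (fun n => f (g n)) := by
  have := Nat.RecursiveIn.comp hf hg
  refine this.of_eq (fun n => ?_)
  simp

theorem RecX.pair {X : ℕ → Bool} {f g : ℕ → ℕ} (hf : RecX X f) (hg : RecX X g) :
    RecX X (fun n => Nat.pair (f n) (g n)) := by
  have := Nat.RecursiveIn.pair hf hg
  refine this.of_eq (fun n => ?_)
  simp [Seq.seq]

theorem RecX.nat_rec {X : ℕ → Bool} {a : ℕ} {s : ℕ → ℕ} (hs : RecX X s) :
    RecX X (fun n => n.rec a (fun y i => s (Nat.pair y i))) := by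
  have h1 : RecX X (fun p => s p.unpair.2) :=
    hs.comp (recX_of_computable X (Computable.snd.comp Primrec.unpair.to_comp))
  have h2 := Nat.RecursiveIn.prec (recX_of_computable X (Computable.const a)) h1
  have h3 : RecX X (fun n => Nat.pair 0 n) :=
    recX_of_computable X (Primrec₂.natPair.to_comp.comp (Computable.const 0) Computable.id)
  have h4 := Nat.RecursiveIn.comp h2 h3
  refine h4.of_eq (fun n => ?_)
  simp only [Part.bind_eq_bind, Part.bind_some, Nat.unpair_pair]
  induction n with
  | zero => rfl
  | succ n ih =>
    simp only [ih, Part.bind_some]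

theorem RecX.find {X : ℕ → Bool} {P : ℕ → ℕ → Bool}
    (hP : RecX X (fun p => (P p.unpair.1 p.unpair.2).toNat)) (h : ∀ a, ∃ n, P a n = true) :
    RecX X (fun a => Nat.find (h a)) := by
  have h1 : RecX X (fun p => 1 - (P p.unpair.1 p.unpair.2).toNat) :=
    (recX_of_computable X (f := fun n => 1 - n)
      (Primrec.nat_sub.to_comp.comp (Computable.const 1) Computable.id)).comp hP
  have h2 := Nat.RecursiveIn.rfind h1
  refine h2.of_eq (fun a => ?_)
  rw [Part.eq_some_iff]
  refine Nat.mem_rfind.2 ⟨?_, ?_⟩
  · have := Nat.find_spec (h a)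
    simp [Nat.unpair_pair, this]
  · intro m hm
    have := Nat.find_min (h a) hm
    simp [Nat.unpair_pair, this]

/-- the code of initial segments is recursive in the real -/
theorem recX_pre (X : ℕ → Bool) : RecX X (fun n => encode (pre X n)) := by
  let φ : ℕ → ℕ := fun z => encode (((decode (α := List Bool) z.unpair.2).getD []) ++
    [decide (z.unpair.1 = 1)])
  have hφ : Computable φ := by
    have h1 : Computable (fun z : ℕ => (decode (α := List Bool) z.unpair.2).getD []) :=
      Computable.option_getD (Computable.decode.comp (Computable.snd.comp Primrec.unpair.to_comp))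
        (Computable.const [])
    have h2 : Computable (fun z : ℕ => decide (z.unpair.1 = 1)) :=
      ((PrimrecRel.comp Primrec.eq (Primrec.fst.comp Primrec.unpair)
        (Primrec.const 1)).decide).to_comp
    exact Computable.encode.comp (Computable.list_concat.comp h1 h2)
  have h1 : RecX X (fun z => φ (Nat.pair (X z.unpair.1).toNat z.unpair.2)) := by
    refine (recX_of_computable X hφ).comp (RecX.pair ?_ ?_)
    · exact (recX_oracle X).comp
        (recX_of_computable X (Computable.fst.comp Primrec.unpair.to_comp))
    · exact recX_of_computable X (Computable.snd.comp Primrec.unpair.to_comp)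
  have h2 := RecX.nat_rec (a := encode ([] : List Bool)) h1
  have key : ∀ n, (Nat.rec (motive := fun _ => ℕ) (encode ([] : List Bool))
      (fun y i => φ (Nat.pair (X (Nat.unpair (Nat.pair y i)).1).toNat
        (Nat.unpair (Nat.pair y i)).2)) n) = encode (pre X n) := by
    intro n
    induction n with
    | zero => rfl
    | succ n ih =>
      show φ (Nat.pair (X (Nat.unpair (Nat.pair n _)).1).toNat (Nat.unpair (Nat.pair n _)).2) = _
      rw [ih]
      simp only [Nat.unpair_pair, φ, encodek, Option.getD_some]
      congr 1
      unfold pre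
      rw [List.range_succ, List.map_append]
      cases h : X n <;> simp [h]
  exact h2.of_eq (fun n => congrArg Part.some (key n))

end Pool.Agent.MP_b653e9_lc
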