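import Mathlib
import Pool.Agent.Lib.MP_b653e9_lc.Leftmost
import Pool.Agent.Lib.MP_b653e9_lc.RecX

/-!
A computable deficiency bound tending to infinity which forces computing a random real.
-/

namespace Pool.Agent.MP_b653e9_lc

open MeasureTheory Encodable

attribute [local irreducible] stA accB badB deadB

/-- the string with code `e` -/
def dec (e : ℕ) : List Bool := (decode (α := List Bool) e).getD []

theorem computable_dec : Computable dec :=
  Computable.option_getD Computable.decode (Computable.const [])

/-- the string with code `e` dies at stage `m` -/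
def dtB (e m : ℕ) : Bool := deadB (dec e) m && ballB m (fun t => !deadB (dec e) t)

theorem computable_dtB : Computable₂ dtB := by
  have h1 : Computable (fun q : ℕ × ℕ => deadB (dec q.1) q.2) :=
    computable_deadB.comp (computable_dec.comp Computable.fst) Computable.snd
  have h2 : Computable₂ (fun (q : ℕ × ℕ) (t : ℕ) => !deadB (dec q.1) t) := by
    have : Computable (fun z : (ℕ × ℕ) × ℕ => deadB (dec z.1.1) z.2) :=
      computable_deadB.comp (computable_dec.comp (Computable.fst.comp Computable.fst))
        Computable.snd
    exact Primrec.not.to_comp.comp this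
  exact Primrec.and.to_comp.comp h1 (computable_ballB Computable.snd h2)

theorem dtB_iff (e m : ℕ) : dtB e m = true ↔ DeadAt (dec e) m ∧ ∀ t < m, ¬ DeadAt (dec e) t := by
  unfold dtB
  rw [Bool.and_eq_true, deadB_iff, ballB_iff]
  refine and_congr_right (fun _ => forall_congr' fun t => imp_congr_right fun _ => ?_)
  rw [← deadB_iff]
  simp

theorem dtB_unique {e m m' : ℕ} (h : dtB e m = true) (h' : dtB e m' = true) : m = m' := by
  rw [dtB_iff] at h h'
  rcases lt_trichotomy m m' with h1 | h1 | h1
  · exact absurd h.1 (h'.2 m h1)
  · exact h1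
  · exact absurd h'.1 (h.2 m' h1)

theorem exists_dtB {e : ℕ} (h : ∃ t, DeadAt (dec e) t) : ∃ m, dtB e m = true := by
  classical
  refine ⟨Nat.find h, ?_⟩
  rw [dtB_iff]
  exact ⟨Nat.find_spec h, fun t ht => Nat.find_min h ht⟩

theorem hfun_ex (m : ℕ) : ∃ e, (decide (e = m) || dtB e m) = true := ⟨m, by simp⟩

/-- the deficiency bound: the least `e` dying at stage `m` -/
def hfun (m : ℕ) : ℕ := Nat.find (hfun_ex m)

theorem computable_hfun : Computable hfun := by
  have h1 : Computable (fun p : ℕ × ℕ => (decide (p.2 = p.1) || dtB p.2 p.1)) :=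
    Primrec.or.to_comp.comp (computable_eq Computable.snd Computable.fst)
      (computable_dtB.comp Computable.snd Computable.fst)
  have hcp : ComputablePred (fun p : ℕ × ℕ => (decide (p.2 = p.1) || dtB p.2 p.1) = true) :=
    ComputablePred.computable_iff.2 ⟨_, h1, rfl⟩
  exact Computable.find (P := fun m e => (decide (e = m) || dtB e m) = true) hcp hfun_ex

theorem hfun_le {e m : ℕ} (h : dtB e m = true) : hfun m ≤ e :=
  Nat.find_min' (hfun_ex m) (by rw [h]; simp)

theorem hfun_tendsto : Filter.Tendsto hfun Filter.atTop Filter.atTop := by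
  rw [Filter.tendsto_atTop]
  intro E
  obtain ⟨M, hM⟩ := exists_uniform (P := fun e M => ∀ m, M ≤ m → dtB e m = false)
    (fun e M M' hMM h m hm => h m (hMM.trans hm)) E (fun e _ => by
      by_cases hex : ∃ m, dtB e m = true
      · obtain ⟨m, hm⟩ := hex
        refine ⟨m + 1, fun m' hm' => ?_⟩
        by_contra hcon
        have := dtB_unique hm (by simpa using hcon)
        omega
      · refine ⟨0, fun m _ => ?_⟩
        by_contra hcon
        exact hex ⟨m, by simpa using hcon⟩)
  rw [Filter.eventually_atTop]
  refine ⟨max M E, fun m hm => ?_⟩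
  by_contra hlt
  have hlt' : hfun m < E := not_le.1 hlt
  have hspec := Nat.find_spec (hfun_ex m)
  change (decide (hfun m = m) || dtB (hfun m) m) = true at hspec
  rw [hM _ hlt' m (by omega), Bool.or_false, decide_eq_true_eq] at hspec
  omega

/-! ### The machine -/

/-- last `j < N` satisfying `p` -/
def find1 (p : ℕ → Bool) (N : ℕ) : Option ℕ :=
  N.rec none (fun j IH => if p j then some j else IH)

theorem find1_spec (p : ℕ → Bool) (N j : ℕ) (hj : j < N) (hp : p j = true) :
    ∃ j' < N, p j' = true ∧ find1 p N = some j' := by
  induction N with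
  | zero => omega
  | succ N ih =>
    have h1 : find1 p (N + 1) = if p N then some N else find1 p N := rfl
    rw [h1]
    by_cases hN : p N = true
    · exact ⟨N, by omega, hN, by rw [if_pos hN]⟩
    · have hne : j ≠ N := by rintro rfl; exact hN hp
      obtain ⟨j', h2, h3, h4⟩ := ih (by omega)
      exact ⟨j', by omega, h3, by rw [if_neg hN, h4]⟩

theorem cnt_mono (p : ℕ → Bool) {a b : ℕ} (h : a ≤ b) : cnt p a ≤ cnt p b := by
  induction b, h using Nat.le_induction with
  | base => exact le_rfl
  | succ b _ ih => rw [cnt_succ]; omega

theorem cnt_inj (p : ℕ → Bool) {a b : ℕ} (ha : p a = true) (hb : p b = true)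
    (h : cnt p a = cnt p b) : a = b := by
  rcases lt_trichotomy a b with h1 | h1 | h1
  · have h2 := cnt_mono p (show a + 1 ≤ b from h1)
    rw [cnt_succ, ha] at h2
    simp at h2
    omega
  · exact h1
  · have h2 := cnt_mono p (show b + 1 ≤ a from h1)
    rw [cnt_succ, hb] at h2
    simp at h2
    omega

/-- the candidate predicate of the machine -/
def candB (i : ℕ) (e : ℕ) (w : List Bool) (j : ℕ) : Bool :=
  stA i (3 * e) (wd (w.length + 3 * e) j) &&
    decide (cnt (fun j' => stA i (3 * e) (wd (w.length + 3 * e) j')) j = num w)

/-- the machine describing the strings caught by the test at the stage where `e` dies -/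
def dmach (i : ℕ) (e : ℕ) (w : List Bool) : Option (List Bool) :=
  if dtB e (w.length + 3 * e) then
    (find1 (candB i e w) (2 ^ (w.length + 3 * e))).map (wd (w.length + 3 * e)) else none

theorem computable_find1 {α : Type*} [Primcodable α] {p : α → ℕ → Bool} (hp : Computable₂ p)
    {n : α → ℕ} (hn : Computable n) : Computable (fun a => find1 (p a) (n a)) := by
  have hs : Computable₂ (fun (a : α) (q : ℕ × Option ℕ) => if p a q.1 then some q.1 else q.2) := by
    have h1 : Computable (fun z : α × (ℕ × Option ℕ) => p z.1 z.2.1) :=
      hp.comp Computable.fst (Computable.fst.comp Computable.snd)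
    exact computable_ite h1 (Computable.option_some.comp (Computable.fst.comp Computable.snd))
      (Computable.snd.comp Computable.snd)
  exact (Computable.nat_rec hn (Computable.const none) hs).of_eq (fun a => rfl)

theorem computable_candB (i : ℕ) :
    Computable₂ (fun (q : ℕ × List Bool) (j : ℕ) => candB i q.1 q.2 j) := by
  have he : Computable (fun z : (ℕ × List Bool) × ℕ => 3 * z.1.1) :=
    computable_mul (Computable.const 3) (Computable.fst.comp Computable.fst)
  have hm : Computable (fun z : (ℕ × List Bool) × ℕ => z.1.2.length + 3 * z.1.1) :=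
    computable_add (Computable.list_length.comp (Computable.snd.comp Computable.fst)) he
  have h1 : Computable (fun z : (ℕ × List Bool) × ℕ =>
      stA i (3 * z.1.1) (wd (z.1.2.length + 3 * z.1.1) z.2)) := by
    have hz : Computable (fun z : (ℕ × List Bool) × ℕ =>
        ((i, 3 * z.1.1), wd (z.1.2.length + 3 * z.1.1) z.2)) :=
      Computable.pair (Computable.pair (Computable.const i) he)
        (primrec_wd.to_comp.comp hm Computable.snd)
    have := computable_stA.comp hz
    exact this
  have h2 : Computable₂ (fun (z : (ℕ × List Bool) × ℕ) (j' : ℕ) =>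
      stA i (3 * z.1.1) (wd (z.1.2.length + 3 * z.1.1) j')) := by
    have hz : Computable (fun y : ((ℕ × List Bool) × ℕ) × ℕ => (y.1.1, y.2)) :=
      Computable.pair (Computable.fst.comp Computable.fst) Computable.snd
    have := h1.comp hz
    exact this
  have h3 : Computable (fun z : (ℕ × List Bool) × ℕ =>
      cnt (fun j' => stA i (3 * z.1.1) (wd (z.1.2.length + 3 * z.1.1) j')) z.2) :=
    computable_cnt₂ h2 Computable.snd
  have h4 : Computable (fun z : (ℕ × List Bool) × ℕ => num z.1.2) :=
    primrec_num.to_comp.comp (Computable.snd.comp Computable.fst)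
  exact Primrec.and.to_comp.comp h1 (computable_eq h3 h4)

attribute [local irreducible] candB

theorem computable_dmach (i : ℕ) : Computable₂ (dmach i) := by
  have he : Computable (fun q : ℕ × List Bool => 3 * q.1) :=
    computable_mul (Computable.const 3) Computable.fst
  have hm : Computable (fun q : ℕ × List Bool => q.2.length + 3 * q.1) :=
    computable_add (Computable.list_length.comp Computable.snd) he
  have h1 : Computable (fun q : ℕ × List Bool => dtB q.1 (q.2.length + 3 * q.1)) :=
    computable_dtB.comp Computable.fst hm
  have h2 : Computable (fun q : ℕ × List Bool =>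
      find1 (candB i q.1 q.2) (2 ^ (q.2.length + 3 * q.1))) :=
    computable_find1 (computable_candB i) (computable_pow 2 hm)
  have h3 : Computable (fun q : ℕ × List Bool =>
      (find1 (candB i q.1 q.2) (2 ^ (q.2.length + 3 * q.1))).map (wd (q.2.length + 3 * q.1))) := by
    refine Computable.option_map (g := fun (q : ℕ × List Bool) j => wd (q.2.length + 3 * q.1) j)
      h2 ?_
    exact primrec_wd.to_comp.comp (hm.comp Computable.fst) Computable.snd
  exact computable_ite h1 h3 (Computable.const none)

theorem dmach_prefixFree (i e : ℕ) (w w' : List Bool) (h : ((dmach i e w : Part (List Bool))).Dom)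
    (h' : ((dmach i e w' : Part (List Bool))).Dom) (hp : w <+: w') : w = w' := by
  have key : ∀ w : List Bool, ((dmach i e w : Part (List Bool))).Dom →
      dtB e (w.length + 3 * e) = true := by
    intro w h
    by_contra hcon
    have : dmach i e w = none := by
      unfold dmach
      rw [if_neg hcon]
    rw [this] at h
    exact h
  have := dtB_unique (key w h) (key w' h')
  exact hp.eq_of_length (by omega)

/-- If the test catches `X` before `e` dies, then `X` is compressible at the stage where `e` dies. -/
theorem deep_K {U : List Bool →. List Bool} (hU : UniversalMachine U) (i : ℕ)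
    (hi : ∀ k n, nb (stA i k) n * 2 ^ k ≤ 2 ^ n) :
    ∃ c, ∀ e m (X : ℕ → Bool), dtB e m = true → stA i (3 * e) (pre X m) = true →
      K U (pre X m) + 2 * e ≤ m + c := by
  obtain ⟨c, hc⟩ := K_le_smach hU (f := fun e w => (dmach i e w : Part (List Bool)))
    ((computable_dmach i).ofOption) (dmach_prefixFree i)
  refine ⟨c, fun e m X hm hX => ?_⟩
  obtain ⟨j, hj⟩ : ∃ j, j = num (pre X m) := ⟨_, rfl⟩
  have hjlt : j < 2 ^ m := by
    have := num_lt (pre X m)
    rw [pre_length] at this
    omega
  have hwj : wd m j = pre X m := by
    have := wd_num (pre X m)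
    rw [pre_length, ← hj] at this
    exact this
  have hcnt : cnt (fun j' => stA i (3 * e) (wd m j')) j < nb (stA i (3 * e)) m := by
    unfold nb
    have h1 := cnt_mono (fun j' => stA i (3 * e) (wd m j')) (show j + 1 ≤ 2 ^ m from hjlt)
    rw [cnt_succ] at h1
    have h2 : stA i (3 * e) (wd m j) = true := by rw [hwj]; exact hX
    rw [h2] at h1
    simp at h1
    omega
  have hnb := hi (3 * e) m
  have hme : 3 * e ≤ m := by
    by_contra hcon
    have h1 : 2 ^ m < 2 ^ (3 * e) := Nat.pow_lt_pow_right (by norm_num) (by omega)
    have h2 : 1 * 2 ^ (3 * e) ≤ nb (stA i (3 * e)) m * 2 ^ (3 * e) :=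
      Nat.mul_le_mul_right _ (by omega)
    omega
  obtain ⟨r, hr⟩ : ∃ r, r = cnt (fun j' => stA i (3 * e) (wd m j')) j := ⟨_, rfl⟩
  have hr2 : r < 2 ^ (m - 3 * e) := by
    have h1 : nb (stA i (3 * e)) m * 2 ^ (3 * e) ≤ 2 ^ (m - 3 * e) * 2 ^ (3 * e) := by
      rw [← pow_add, Nat.sub_add_cancel hme]
      exact hnb
    have h2 := Nat.le_of_mul_le_mul_right h1 (by positivity)
    omega
  have hmem : pre X m ∈ ((dmach i e (wd (m - 3 * e) r) : Option (List Bool)) :
      Part (List Bool)) := by
    have hlen : (wd (m - 3 * e) r).length + 3 * e = m := by rw [wd_length]; omega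
    have hcand : ∀ j', candB i e (wd (m - 3 * e) r) j' = true ↔
        stA i (3 * e) (wd m j') = true ∧
          cnt (fun j' => stA i (3 * e) (wd m j')) j' = r := by
      intro j'
      unfold candB
      rw [hlen, Bool.and_eq_true, decide_eq_true_eq, num_wd _ _ hr2]
    have hjc : candB i e (wd (m - 3 * e) r) j = true := by
      rw [hcand]
      exact ⟨by rw [hwj]; exact hX, hr.symm⟩
    obtain ⟨j', h1, h2, h3⟩ := find1_spec (candB i e (wd (m - 3 * e) r)) (2 ^ m) j hjlt hjc
    have hjj : j' = j := by
      rw [hcand] at h2 hjc
      exact cnt_inj (fun j' => stA i (3 * e) (wd m j')) h2.1 hjc.1 (by rw [h2.2, hjc.2])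
    unfold dmach
    rw [hlen, if_pos hm, h3, hjj, Option.map_some, hwj]
    simp
  have := hc e _ _ hmem
  rw [wd_length] at this
  omega

/-- A real of deficiency at most `hfun` which is not random has access to the death stages. -/
theorem deep_main {U : List Bool →. List Bool} (hU : UniversalMachine U) {X : ℕ → Bool}
    (hX : ∀ n, n < K U (pre X n) + hfun n) {i : ℕ}
    (hi : ∀ k n, nb (stA i k) n * 2 ^ k ≤ 2 ^ n) :
    ∃ C, ∀ e n, stA i (3 * e) (pre X n) = true → (∃ t, DeadAt (dec e) t) →
      DeadAt (dec e) (max n C) := by
  obtain ⟨c, hc⟩ := deep_K hU i hi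
  obtain ⟨C, hC⟩ := exists_uniform (P := fun e C => (∃ t, DeadAt (dec e) t) → DeadAt (dec e) C)
    (fun e M M' hMM h hex => deadAt_mono hMM (h hex)) (c + 1) (fun e _ => by
      by_cases hex : ∃ t, DeadAt (dec e) t
      · obtain ⟨t, ht⟩ := hex
        exact ⟨t, fun _ => ht⟩
      · exact ⟨0, fun h => absurd h hex⟩)
  refine ⟨C, fun e n hn hex => ?_⟩
  by_cases hec : e < c + 1
  · exact deadAt_mono (le_max_right _ _) (hC e hec hex)
  · obtain ⟨m, hm⟩ := exists_dtB hex
    by_cases hmn : m ≤ n
    · exact deadAt_mono (hmn.trans (le_max_left _ _)) ((dtB_iff e m).1 hm).1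
    · exfalso
      have h1 := hc e m X hm (stA_up (pre_prefix X (by omega)) hn)
      have h2 := hX m
      have h3 := hfun_le hm
      omega

/-! ### Computing the leftmost path -/

theorem path_succ_eq {g : ℕ → ℕ} (hg : ∀ e, (∃ t, DeadAt (dec e) t) → DeadAt (dec e) (g e))
    (n : ℕ) : path (n + 1) = path n ++ [deadB (path n ++ [false]) (g (encode (path n ++ [false])))] := by
  show path n ++ [nxt (path n)] = _
  congr 2
  have h1 := hg (encode (path n ++ [false]))
  have h2 : dec (encode (path n ++ [false])) = path n ++ [false] := by
    unfold dec; rw [encodek]; rfl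
  rw [h2] at h1
  unfold nxt
  by_cases hex : ∃ t, DeadAt (path n ++ [false]) t
  · rw [(deadB_iff _ _).2 (h1 hex)]
    simpa using hex
  · have h3 : deadB (path n ++ [false]) (g (encode (path n ++ [false]))) = false := by
      by_contra hcon
      exact hex ⟨_, (deadB_iff _ _).1 (by simpa using hcon)⟩
    rw [h3]
    simpa using hex

theorem recX_Yr {X : ℕ → Bool} {g : ℕ → ℕ} (hgX : RecX X g)
    (hg : ∀ e, (∃ t, DeadAt (dec e) t) → DeadAt (dec e) (g e)) : ComputesReal X Yr := by
  -- the code of the next segment from the code of the present one and the bound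
  let φ : ℕ → ℕ := fun z => encode (dec z.unpair.1 ++
    [deadB (dec z.unpair.1 ++ [false]) z.unpair.2])
  have hfst : Computable (fun z : ℕ => z.unpair.1) := Computable.fst.comp Primrec.unpair.to_comp
  have hsnd : Computable (fun z : ℕ => z.unpair.2) := Computable.snd.comp Primrec.unpair.to_comp
  have hψ : Computable (fun y : ℕ => encode (dec y ++ [false])) :=
    Computable.encode.comp (computable_append computable_dec (Computable.const [false]))
  have hφ : Computable φ := by
    have h1 : Computable (fun z : ℕ => dec z.unpair.1) := computable_dec.comp hfst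
    have h2 : Computable (fun z : ℕ => deadB (dec z.unpair.1 ++ [false]) z.unpair.2) :=
      computable_deadB.comp (computable_append h1 (Computable.const [false])) hsnd
    exact Computable.encode.comp (Computable.list_concat.comp h1 h2)
  -- step function
  have hstep : RecX X (fun z => φ (Nat.pair z.unpair.2 (g (encode (dec z.unpair.2 ++ [false]))))) := by
    refine (recX_of_computable X hφ).comp (RecX.pair (recX_of_computable X hsnd) ?_)
    exact hgX.comp ((recX_of_computable X hψ).comp (recX_of_computable X hsnd))
  have hrec := RecX.nat_rec (a := encode ([] : List Bool)) hstep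
  have key : ∀ n, (Nat.rec (motive := fun _ => ℕ) (encode ([] : List Bool))
      (fun y i => φ (Nat.pair (Nat.unpair (Nat.pair y i)).2
        (g (encode (dec (Nat.unpair (Nat.pair y i)).2 ++ [false]))))) n) = encode (path n) := by
    intro n
    induction n with
    | zero => rfl
    | succ n ih =>
      show φ (Nat.pair (Nat.unpair (Nat.pair n _)).2
        (g (encode (dec (Nat.unpair (Nat.pair n _)).2 ++ [false])))) = _
      rw [ih]
      simp only [Nat.unpair_pair, φ]
      have h2 : dec (encode (path n)) = path n := by unfold dec; rw [encodek]; rfl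
      rw [h2, path_succ_eq hg n]
  have hpath : RecX X (fun n => encode (path n)) :=
    hrec.of_eq (fun n => congrArg Part.some (key n))
  -- read off the last bit
  have hlast : Computable (fun z : ℕ => ((dec z.unpair.1).getD z.unpair.2 false).toNat) :=
    computable_toNat.comp (computable_getD false (computable_dec.comp hfst) hsnd)
  have hY : RecX X (fun n => ((dec (Nat.unpair (Nat.pair (encode (path (n + 1))) n)).1).getD
      (Nat.unpair (Nat.pair (encode (path (n + 1))) n)).2 false).toNat) := by
    refine (recX_of_computable X hlast).comp (RecX.pair ?_ (recX_of_computable X Computable.id))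
    exact hpath.comp (recX_of_computable X Computable.succ)
  refine RecursiveIn.iff_nat.2 (hY.of_eq (fun n => ?_))
  congr 2
  have h2 : dec (encode (path (n + 1))) = path (n + 1) := by unfold dec; rw [encodek]; rfl
  simp only [Nat.unpair_pair]
  rw [h2, ← pre_Yr]
  simp [pre, List.getD]

/-- The positive result. -/
theorem deep_result {U : List Bool →. List Bool} (hU : UniversalMachine U) {X : ℕ → Bool}
    (hX : ∀ n, n < K U (pre X n) + hfun n) : ∃ Y, MLRandom Y ∧ ComputesReal X Y := by
  by_cases hr : MLRandom X
  · exact ⟨X, hr, TuringReducible.refl _⟩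
  · unfold MLRandom at hr
    simp only [not_forall, not_exists, not_not] at hr
    obtain ⟨W, hW, hall⟩ := hr
    obtain ⟨i, hi⟩ := exists_index hW.1
    have hnb : ∀ k n, nb (stA i k) n * 2 ^ k ≤ 2 ^ n := by
      intro k n
      apply nb_le
      have h1 := hW.2 k
      rw [hi] at h1
      have hsub : {X | stA i k (pre X n) = true} ⊆ {X | ∃ n, stA i k (pre X n) = true} :=
        fun X hX => ⟨n, hX⟩
      exact (measure_mono hsub).trans h1
    obtain ⟨C, hC⟩ := deep_main hU hX hnb
    have hex : ∀ e, ∃ n, stA i (3 * e) (pre X n) = true := by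
      intro e
      have := hall (3 * e)
      rw [hi] at this
      exact this
    refine ⟨Yr, Yr_MLRandom, recX_Yr (g := fun e => max (Nat.find (hex e)) C) ?_
      (fun e he => hC e _ (Nat.find_spec (hex e)) he)⟩
    have h1 : RecX X (fun p => (stA i (3 * p.unpair.1) (pre X p.unpair.2)).toNat) := by
      have hfst : Computable (fun z : ℕ => z.unpair.1) :=
        Computable.fst.comp Primrec.unpair.to_comp
      have hsnd : Computable (fun z : ℕ => z.unpair.2) :=
        Computable.snd.comp Primrec.unpair.to_comp
      have h2 : Computable (fun z : ℕ => (stA i (3 * z.unpair.1) (dec z.unpair.2)).toNat) := by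
        have hz : Computable (fun z : ℕ => ((i, 3 * z.unpair.1), dec z.unpair.2)) :=
          Computable.pair (Computable.pair (Computable.const i)
            (computable_mul (Computable.const 3) hfst)) (computable_dec.comp hsnd)
        have := computable_toNat.comp (computable_stA.comp hz)
        exact this
      have h3 : RecX X (fun p => Nat.pair p.unpair.1 (encode (pre X p.unpair.2))) :=
        RecX.pair (recX_of_computable X hfst) ((recX_pre X).comp (recX_of_computable X hsnd))
      have h4 := (recX_of_computable X h2).comp h3
      refine h4.of_eq (fun p => ?_)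
      have h5 : dec (encode (pre X p.unpair.2)) = pre X p.unpair.2 := by
        unfold dec; rw [encodek]; rfl
      simp only [Nat.unpair_pair, h5]
    have h2 : RecX X (fun e => Nat.find (hex e)) :=
      RecX.find (P := fun e n => stA i (3 * e) (pre X n)) h1 hex
    have h3 : Computable (fun n : ℕ => max n C) :=
      Primrec.nat_max.to_comp.comp Computable.id (Computable.const C)
    exact (recX_of_computable X h3).comp h2

end Pool.Agent.MP_b653e9_lc
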