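import Mathlib
import Pool.Agent.Lib.MP_b653e9_lc.Init

/-!
The forcing construction.
-/

namespace Pool.Agent.MP_b653e9_lc

/-- every other boosted level -/
def halfG (G : ℕ → Bool) (n : ℕ) : Bool := G n && decide (cnt G n % 2 = 0)

theorem computable_cnt {G : ℕ → Bool} (hG : Computable G) : Computable (cnt G) := by
  unfold cnt
  refine Computable.nat_rec (f := fun n : ℕ => n) (g := fun _ => 0)
    (h := fun _ p => p.2 + (G p.1).toNat) Computable.id (Computable.const 0) ?_
  refine computable_add (Computable.snd.comp Computable.snd) ?_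
  have h1 : Computable (fun b : Bool => b.toNat) :=
    (Primrec.cond Primrec.id (Primrec.const 1) (Primrec.const 0)).to_comp.of_eq
      (fun b => by cases b <;> rfl)
  exact h1.comp (hG.comp (Computable.fst.comp Computable.snd))

theorem computable_halfG {G : ℕ → Bool} (hG : Computable G) : Computable (halfG G) := by
  unfold halfG
  refine Primrec.and.to_comp.comp hG ?_
  exact computable_eq (computable_mod (computable_cnt hG) (Computable.const 2)) (Computable.const 0)

theorem halfG_le {G : ℕ → Bool} (n : ℕ) (h : halfG G n = true) : G n = true := by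
  unfold halfG at h
  rw [Bool.and_eq_true] at h
  exact h.1

theorem exists_next {G : ℕ → Bool} (h : ∀ n, ∃ m, n ≤ m ∧ G m = true) (n : ℕ) :
    ∃ m, n ≤ m ∧ G m = true ∧ cnt G m = cnt G n := by
  classical
  have hn := h n
  refine ⟨Nat.find hn, (Nat.find_spec hn).1, (Nat.find_spec hn).2, ?_⟩
  have key : ∀ k, n + k ≤ Nat.find hn → cnt G (n + k) = cnt G n := by
    intro k
    induction k with
    | zero => intro; rfl
    | succ k ih =>
      intro hk
      rw [← Nat.add_assoc, cnt_succ, ih (by omega)]
      have := Nat.find_min hn (m := n + k) (by omega)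
      have h2 : G (n + k) = false := by
        cases hG : G (n + k) with
        | false => rfl
        | true => exact absurd ⟨by omega, hG⟩ this
      rw [h2]; rfl
  have := key (Nat.find hn - n)
  have h1 := (Nat.find_spec hn).1
  rw [Nat.add_sub_cancel' h1] at this
  exact this le_rfl

theorem halfG_unb {G : ℕ → Bool} (h : ∀ n, ∃ m, n ≤ m ∧ G m = true) (n : ℕ) :
    (∃ m, n ≤ m ∧ halfG G m = true) ∧ (∃ m, n ≤ m ∧ G m = true ∧ halfG G m = false) := by
  obtain ⟨m1, h1, h2, _⟩ := exists_next h n
  obtain ⟨m2, h3, h4, h5⟩ := exists_next h (m1 + 1)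
  have hc : cnt G m2 = cnt G m1 + 1 := by rw [h5, cnt_succ, h2]; rfl
  unfold halfG
  rcases Nat.mod_two_eq_zero_or_one (cnt G m1) with h6 | h6
  · refine ⟨⟨m1, h1, by simp [h2, h6]⟩, ⟨m2, by omega, h4, ?_⟩⟩
    have : ¬ cnt G m2 % 2 = 0 := by omega
    simp [this]
  · refine ⟨⟨m2, by omega, ?_⟩, ⟨m1, h1, h2, by simp [h6]⟩⟩
    have : cnt G m2 % 2 = 0 := by omega
    simp [h4, this]

/-- A forcing condition: a stem, a set of avoided strings, and a set of boosted levels. -/
structure Cond where
  σ : List Bool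
  B : Set (List Bool)
  G : ℕ → Bool
  up : Up B
  comp : Computable G
  unb : ∀ n, ∃ m, n ≤ m ∧ G m = true
  small : S G B σ < 1

/-- The functional `F` is taken care of, at level `r`, by the condition `c`. -/
def Settled (U : List Bool →. List Bool) (F : List Bool → ℕ → Option Bool) (r : ℕ) (c : Cond) :
    Prop :=
  (∃ m, defUpto F m ⊆ c.B) ∨ ∃ t, Agrees F c.σ t ∧ K U t + r < t.length

theorem step {U : List Bool →. List Bool} (hU : UniversalMachine U)
    {F : List Bool → ℕ → Option Bool} (hFc : Computable₂ F) (hF : MonoF F) (r : ℕ) (c : Cond) :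
    ∃ c' : Cond, c.σ <+: c'.σ ∧ c.σ.length < c'.σ.length ∧ c.B ⊆ c'.B ∧ Settled U F r c' := by
  obtain ⟨σ1, h1, h2, h3⟩ := exists_half c.unb c.up c.σ c.small
  by_cases hA : ∃ m, S (halfG c.G) (c.B ∪ defUpto F m) σ1 < 1
  · obtain ⟨m, hm⟩ := hA
    exact ⟨⟨σ1, c.B ∪ defUpto F m, halfG c.G, c.up.union (defUpto_up hF m),
      computable_halfG c.comp, fun n => (halfG_unb c.unb n).1, hm⟩, h1, h2,
      Set.subset_union_left, Or.inl ⟨m, Set.subset_union_right⟩⟩
  · simp only [not_exists, not_lt] at hA
    have hle : S (halfG c.G) c.B σ1 < 1 / 2 := (S_mono_G halfG_le _ _).trans_lt h3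
    have hB : ∀ m, 1 / 2 < S (halfG c.G) (defUpto F m) σ1 := by
      intro m
      have := (hA m).trans (S_union_le _ _ _ _)
      linarith
    obtain ⟨m, T, hT, d, hd⟩ := caseB hU c.comp halfG_le (fun n => (halfG_unb c.unb n).2)
      hFc hF σ1 hB r
    obtain ⟨τ, hτ1, hτ2, hτ3, hτ4⟩ := exists_ext c.up d σ1 (h3.trans hd)
    obtain ⟨t, ht, hagr⟩ := hτ1
    refine ⟨⟨τ, c.B, c.G, c.up, c.comp, c.unb, hτ4⟩, h1.trans hτ2, ?_, subset_rfl,
      Or.inr ⟨t, hagr, ?_⟩⟩
    · have := hτ2.length_le
      simp only
      omega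
    · have := hT t ht
      omega

theorem countable_functionals :
    {F : List Bool → ℕ → Option Bool | Computable₂ F ∧ MonoF F}.Countable := by
  let φ : (List Bool → ℕ → Option Bool) → (ℕ →. ℕ) := fun F n =>
    Part.bind (↑(Encodable.decode (α := List Bool × ℕ) n) : Part (List Bool × ℕ))
      (fun a : List Bool × ℕ => (Part.some (F a.1 a.2)).map Encodable.encode)
  have hφ : Function.Injective φ := by
    intro F F' h
    funext σ n
    have h1 := congrFun h (Encodable.encode (σ, n))
    simp only [φ, Encodable.encodek, Part.coe_some, Part.bind_some, Part.map_some,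
      Part.some_inj, Encodable.encode_inj] at h1
    exact h1
  have h2 : {f : ℕ →. ℕ | Nat.Partrec f}.Countable := by
    have : {f : ℕ →. ℕ | Nat.Partrec f} = Set.range Nat.Partrec.Code.eval := by
      ext f
      exact Nat.Partrec.Code.exists_code
    rw [this]
    exact Set.countable_range _
  refine (h2.preimage hφ).mono ?_
  rintro F ⟨hF, _⟩
  exact hF

/-- Result of the forcing construction. -/
theorem forcing {U : List Bool →. List Bool} (hU : UniversalMachine U) (c0 : Cond) :
    ∃ X : ℕ → Bool, (∀ n, pre X n ∉ c0.B) ∧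
      ∀ F : List Bool → ℕ → Option Bool, Computable₂ F → MonoF F → ∀ r,
        (∃ m, ∀ n, pre X n ∉ defUpto F m) ∨
          ∃ k t, Agrees F (pre X k) t ∧ K U t + r < t.length := by
  classical
  have hne : {F : List Bool → ℕ → Option Bool | Computable₂ F ∧ MonoF F}.Nonempty := by
    refine ⟨fun _ _ => none, ?_, ?_⟩
    · exact Computable.const none
    · intro τ τ' n b _ h
      exact absurd h (by simp)
  obtain ⟨e, he⟩ := countable_functionals.exists_eq_range hne
  have hmem : ∀ i, Computable₂ (e i) ∧ MonoF (e i) := by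
    intro i
    have : e i ∈ {F : List Bool → ℕ → Option Bool | Computable₂ F ∧ MonoF F} := by
      rw [he]; exact Set.mem_range_self i
    exact this
  choose nx hnx using fun (i r : ℕ) (c : Cond) => step hU (hmem i).1 (hmem i).2 r c
  obtain ⟨seq, hseq0, hseq⟩ : ∃ seq : ℕ → Cond, seq 0 = c0 ∧
      ∀ k, seq (k + 1) = nx k.unpair.1 k.unpair.2 (seq k) :=
    ⟨fun n => n.rec c0 (fun k c => nx k.unpair.1 k.unpair.2 c), rfl, fun _ => rfl⟩
  have hstep1 : ∀ k, (seq k).σ <+: (seq (k + 1)).σ := fun k => by
    rw [hseq]; exact (hnx _ _ _).1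
  have hstep2 : ∀ k, (seq k).σ.length < (seq (k + 1)).σ.length := fun k => by
    rw [hseq]; exact (hnx _ _ _).2.1
  have hstep3 : ∀ k, (seq k).B ⊆ (seq (k + 1)).B := fun k => by
    rw [hseq]; exact (hnx _ _ _).2.2.1
  have hstep4 : ∀ k, Settled U (e k.unpair.1) k.unpair.2 (seq (k + 1)) := fun k => by
    rw [hseq]; exact (hnx _ _ _).2.2.2
  have hpre : ∀ i j, i ≤ j → (seq i).σ <+: (seq j).σ := by
    intro i j hij
    induction j, hij using Nat.le_induction with
    | base => exact List.prefix_refl _
    | succ j _ ih => exact ih.trans (hstep1 j)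
  have hB : ∀ i j, i ≤ j → (seq i).B ⊆ (seq j).B := by
    intro i j hij
    induction j, hij using Nat.le_induction with
    | base => exact subset_rfl
    | succ j _ ih => exact ih.trans (hstep3 j)
  have hlen : ∀ k, k ≤ (seq k).σ.length := by
    intro k
    induction k with
    | zero => exact Nat.zero_le _
    | succ k ih => have := hstep2 k; omega
  let X : ℕ → Bool := fun n => (seq (n + 1)).σ.getD n false
  have hX : ∀ k n, n < (seq k).σ.length → X n = (seq k).σ.getD n false := by
    intro k n hn
    have h1 : n < (seq (n + 1)).σ.length := by have := hlen (n + 1); omega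
    rcases le_total k (n + 1) with h | h
    · obtain ⟨l, hl⟩ := hpre _ _ h
      show (seq (n + 1)).σ.getD n false = _
      rw [← hl, List.getD_append _ _ _ _ hn]
    · obtain ⟨l, hl⟩ := hpre _ _ h
      show (seq (n + 1)).σ.getD n false = _
      rw [← hl, List.getD_append _ _ _ _ h1]
  have hXpre : ∀ k n, n ≤ (seq k).σ.length → pre X n <+: (seq k).σ := by
    intro k n hn
    rw [List.prefix_iff_eq_take]
    apply List.ext_getElem
    · simp [pre, hn]
    · intro i h1 h2
      have hi : i < n := by simpa [pre] using h1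
      have h3 := hX k i (by omega)
      simp only [pre, List.getElem_map, List.getElem_range, List.getElem_take]
      rw [h3, List.getD_eq_getElem]
  have hXeq : ∀ k, pre X (seq k).σ.length = (seq k).σ := by
    intro k
    exact (hXpre k _ le_rfl).eq_of_length (by simp [pre])
  have havoid : ∀ i n, pre X n ∉ (seq i).B := by
    intro i n hn
    have h1 : pre X n ∈ (seq (max i n)).B := hB _ _ (le_max_left _ _) hn
    have h2 : (seq (max i n)).σ ∈ (seq (max i n)).B :=
      (seq (max i n)).up _ _ h1 (hXpre _ _ (le_trans (le_max_right i n) (hlen _)))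
    have h3 := S_eq_one_of_mem (G := (seq (max i n)).G) h2
    have h4 := (seq (max i n)).small
    linarith
  refine ⟨X, by rw [← hseq0]; exact havoid 0, ?_⟩
  intro F hFc hF r
  obtain ⟨i, hi⟩ : ∃ i, e i = F := by
    have : F ∈ Set.range e := by rw [← he]; exact ⟨hFc, hF⟩
    exact this
  have hset := hstep4 (Nat.pair i r)
  rw [Nat.unpair_pair] at hset
  simp only [hi] at hset
  rcases hset with ⟨m, hm⟩ | ⟨t, ht1, ht2⟩
  · left
    exact ⟨m, fun n hn => havoid _ n (hm hn)⟩
  · right
    refine ⟨(seq (Nat.pair i r + 1)).σ.length, t, ?_, ht2⟩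
    rw [hXeq]
    exact ht1

end Pool.Agent.MP_b653e9_lc
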