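import Mathlib
import Pool.Agent.Lib.MP_b653e9_lc.Force
import Pool.Agent.Lib.MP_b653e9_lc.ML

/-!
The negative answer for computable orders.
-/

namespace Pool.Agent.MP_b653e9_lc

/-- A real computed by `X` is computed by a monotone functional. -/
theorem exists_functional {X Y : ℕ → Bool} (h : ComputesReal X Y) :
    ∃ F : List Bool → ℕ → Option Bool, Computable₂ F ∧ MonoF F ∧
      (∀ k n b, F (pre X k) n = some b → b = Y n) ∧ ∀ n, ∃ k, F (pre X k) n = some (Y n) := by
  have h1 : Nat.RecursiveIn {fun n => Part.some (X n).toNat} (fun n => Part.some (Y n).toNat) :=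
    RecursiveIn.iff_nat.1 h
  obtain ⟨F, hFc, hFm, hF⟩ := approx_of_recursiveIn h1
  refine ⟨fun τ n => (F τ n).map (fun v => decide (v = 1)), ?_, ?_, ?_, ?_⟩
  · refine Computable.option_map (f := fun q : List Bool × ℕ => F q.1 q.2)
      (g := fun _ v => decide (v = 1)) hFc ?_
    exact computable_eq Computable.snd (Computable.const 1)
  · intro τ τ' n b hp hb
    rw [Option.map_eq_some_iff] at hb ⊢
    obtain ⟨v, hv, rfl⟩ := hb
    exact ⟨v, hFm _ _ _ _ hp hv, rfl⟩
  · intro k n b hb
    obtain ⟨v, hv, rfl⟩ := Option.map_eq_some_iff.1 hb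
    have := (hF n v).2 ⟨k, hv⟩
    rw [Part.mem_some_iff] at this
    subst this
    cases Y n <;> simp
  · intro n
    obtain ⟨k, hk⟩ := (hF n (Y n).toNat).1 (Part.mem_some _)
    refine ⟨k, ?_⟩
    simp only [hk]
    cases Y n <;> simp

theorem order_negative {U : List Bool →. List Bool} (hU : UniversalMachine U) {h : ℕ → ℕ}
    (hc : Computable h) (hm : Monotone h) (hunb : ∀ k, ∃ n, k ≤ h n) :
    ∃ X : ℕ → Bool, (∀ n, n < K U (pre X n) + h n) ∧
      ∀ Y, ComputesReal X Y → ∀ r, ∃ n, K U (pre Y n) + r ≤ n := by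
  obtain ⟨X, hX1, hX2⟩ := forcing hU ⟨[], badSet U h, G0 h, badSet_up U h, computable_G0 hc,
    G0_unbounded hm hunb, S_badSet_lt_one hU hm hunb⟩
  refine ⟨X, ?_, ?_⟩
  · intro n
    by_contra hcon
    refine hX1 n ⟨pre X n, ?_, List.prefix_refl _⟩
    rw [pre_length]
    omega
  · intro Y hXY r
    obtain ⟨F, hFc, hFm, hF1, hF2⟩ := exists_functional hXY
    rcases hX2 F hFc hFm r with ⟨m, hm'⟩ | ⟨k, t, ht1, ht2⟩
    · exfalso
      obtain ⟨k, hk⟩ := exists_uniform (P := fun j k => (F (pre X k) j).isSome)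
        (fun j k k' hkk hj => by
          obtain ⟨b, hb⟩ := Option.isSome_iff_exists.1 hj
          rw [hFm _ _ _ _ (pre_prefix X hkk) hb]; rfl) m
        (fun j _ => by
          obtain ⟨k, hk⟩ := hF2 j
          exact ⟨k, by rw [hk]; rfl⟩)
      exact hm' k hk
    · have ht : t = pre Y t.length := by
        apply List.ext_getElem
        · rw [pre_length]
        · intro j h1 h2
          rw [hF1 k j _ (ht1 j h1)]
          simp [pre]
      refine ⟨t.length, ?_⟩
      rw [← ht]
      omega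

end Pool.Agent.MP_b653e9_lc
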